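import Pool.Agent.H51.MS.Defs

/-!
# [H51 MS ALG] Phases which depend only on the total class: the limit (40-70 lines)

`FS univ Θ = FS univ (fun c g => Fn c (tot g))` (equal where `wt ≠ 0`). Real and imaginary part: `FS univ (re) + i FS univ (im)`, `lim` for both.
-/

set_option autoImplicit false

open scoped NumberField
open IsDedekindDomain NumberField H63.MA H36.QA Filter Topology
open scoped Classical

noncomputable section

namespace H51.MS

open H51.MM

variable {X : CD} {K : Type} [Field K] [NumberField K]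

theorem alg (F : Fr X K) (hN : 0 < X.N) (hX : X.Cl Finset.univ) (Θ : F.C → Finset F.Lb → ℂ)
    (Fn : F.C → (F.R → ZMod X.p) → ℂ)
    (h : ∀ c g, F.Ok g → F.wt c g ≠ 0 → Θ c g = Fn c (F.tot g)) :
    ∃ l : ℂ, Tendsto (fun Y : ℝ => F.FS Finset.univ Θ Y / ((Y * Real.log Y ^ (X.N - 1) : ℝ) : ℂ))
      atTop (𝓝 l) := by
  obtain ⟨l₁, h₁, -⟩ := lim X K F hN hX fun c x => (Fn c x).re
  obtain ⟨l₂, h₂, -⟩ := lim X K F hN hX fun c x => (Fn c x).im
  refine ⟨(l₁ : ℂ) + Complex.I * (l₂ : ℂ), ?_⟩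
  have h3 := h₁.add (h₂.const_mul Complex.I)
  refine h3.congr fun Y => ?_
  rw [mul_div_assoc', ← add_div]
  congr 1
  unfold Fr0.FS
  rw [Finset.mul_sum, ← Finset.sum_add_distrib]
  refine Finset.sum_congr rfl fun g hg => ?_
  rw [Finset.mul_sum, ← Finset.sum_add_distrib]
  refine Finset.sum_congr rfl fun c _ => ?_
  by_cases hS : F.Sp c (F.cls g)
  · rw [if_pos hS, if_pos hS, if_pos hS]
    by_cases hw : F.wt c g = 0
    · rw [hw]
      ring
    · rw [h c g ((F.mem_Fam _ _ _).1 hg).1 hw]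
      have h4 := Complex.re_add_im (Fn c (F.tot g))
      calc ((Fn c (F.tot g)).re : ℂ) * F.wt c g + Complex.I * (((Fn c (F.tot g)).im : ℂ) * F.wt c g) =
          ((Fn c (F.tot g)).re + (Fn c (F.tot g)).im * Complex.I) * F.wt c g := by ring
        _ = _ := by rw [h4]
  · rw [if_neg hS, if_neg hS, if_neg hS, mul_zero, add_zero]

end H51.MS
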