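import Pool.Agent.H51.MS.Defs
import Pool.Agent.H51.MM.UbA

/-!
# [H51 MS SMA] The families with a small class are negligible (150-220 lines)

`‖wt c g‖ = wt c g` is real `≥ 0` (`wt_re`). `¬ Bg Z₁ g`: some class `i₀` has `nrl (cl i₀ g) ≤ Z₁`, `Z₁ = (log Y) ^ A₁`: sum over `i₀`. For fixed `i₀`: `fs_exp` for `J = univ` and `h c' g = 1[c' = c] 1[nrl (cl i₀ g) ≤ Z₁]`, `lev` with `Z = (log Y) ^ a > Z₁`, `R = R₀` of `unla`:
the part `(k, L)`. If a type of class `i₀` is in `L` the sum is empty (`nrl (cl i₀ (U u)) ≥ nrl (u τ) > lv Z R (k + 1) ≥ Z > Z₁`). Otherwise it is `SS univ c 1 Z R k L W Y` with `W u = (nrl (cl i₀ (U u)) ≤ Z₁)` (`cl i₀ (U u) = cl i₀ (U (rs Lᶜ u))`). Then: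
* `L` has a linked pair: `lnkb` (`H57.AN.i2`, `i3a`): `Y (log Y) ^ A Z ^ (-δ)`.
* `L` unlinked with two types of one class: `unla` with the hypothesis from `nta` (`J = univ`, `X.Cl univ`; `f` any function for which every class of `L` has its type `(i, f i)` in `L`; see how UbA.lean does it): `Y (log Y) ^ A Z⁻¹`.
* otherwise `L.card < N` (one type per class, none of class `i₀`): `fewa` with `J = univ`: `C (1 + log (lv Z R k)) ^ A Y (log Y) ^ (N - 2) + C (lv Z R k) ^ A`; `lv Z R k = (log Y) ^ (a R ^ k)`.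
`a` large (depends on `A₁`, the constants). The model for the whole argument is `ubz` in Pool/Agent/H51/MM/UbA.lean.
-/

set_option autoImplicit false

open scoped NumberField
open IsDedekindDomain NumberField H63.MA H36.QA Filter Topology
open scoped Classical

noncomputable section

namespace H51.MS

open H51.MM

variable {X : CD} {K : Type} [Field K] [NumberField K]

/-- a functional for every class of `L` -/
private theorem sm_exf (L : Finset X.Ty) : ∃ f : Fin X.N → Fin X.w → ZMod X.p,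
    ∀ τ ∈ L, ∃ τ' ∈ L, τ'.1 = (τ.1.1, f τ.1.1) := by
  refine ⟨fun i => if h : ∃ τ ∈ L, τ.1.1 = i then h.choose.1.2 else 0, ?_⟩
  intro τ hτ
  have h : ∃ τ' ∈ L, τ'.1.1 = τ.1.1 := ⟨τ, hτ, rfl⟩
  refine ⟨h.choose, h.choose_spec.1, Prod.ext h.choose_spec.2 ?_⟩
  show h.choose.1.2 = if h : ∃ τ' ∈ L, τ'.1.1 = τ.1.1 then h.choose.1.2 else 0
  rw [dif_pos h]

private theorem sm_nrl (F : Fr0 X K) {g g' : Finset F.Lb} (h : g ⊆ g') : F.nrl g ≤ F.nrl g' := by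
  have h1 : F.nrl (g' \ g) * F.nrl g = F.nrl g' := Finset.prod_sdiff h
  rw [← h1]
  exact le_mul_of_one_le_left (by linarith [F.one_le_nrl g]) (F.one_le_nrl _)

/-- the part of class `i` does not see the types of other classes -/
private theorem sm_cl (F : Fr0 X K) (i : Fin X.N) (L : Finset X.Ty) (hL : ∀ τ ∈ L, τ.1.1 ≠ i)
    (u : X.Ty → Finset F.Lb) (hu : F.TOk u) : cl F i (F.U (F.rs Lᶜ u)) = cl F i (F.U u) := by
  ext a
  unfold cl Fr0.U
  rw [Finset.mem_filter, Finset.mem_filter, Finset.mem_biUnion, Finset.mem_biUnion]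
  constructor
  · rintro ⟨⟨τ, hτ, ha⟩, hi⟩
    refine ⟨⟨τ, hτ, ?_⟩, hi⟩
    unfold Fr0.rs at ha
    split_ifs at ha with h
    · exact ha
    · exact absurd ha (Finset.notMem_empty _)
  · rintro ⟨⟨τ, hτ, ha⟩, hi⟩
    refine ⟨⟨τ, hτ, ?_⟩, hi⟩
    unfold Fr0.rs
    rw [if_pos]
    · exact ha
    · rw [Finset.mem_compl]
      intro h
      apply hL τ h
      rw [← hu.1 τ a ha]
      exact hi

private theorem sm_zero (F : Fr0 X K) (i : Fin X.N) (c : F.C) (Z Z₁ : ℝ) (hZ1 : 1 ≤ Z) (hZ : Z₁ < Z)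
    (R k : ℕ) (hR : 1 ≤ R) (L : Finset X.Ty) (τ : X.Ty) (hτ : τ ∈ L) (hi : τ.1.1 = i) (Y : ℝ) :
    ∑ u ∈ F.TF Finset.univ Y, (if F.Cnd Z R k L u then
      (if F.Sp c (F.cls (F.U u)) ∧ F.nrl (cl F i (F.U u)) ≤ Z₁ then ep X.p (F.Ph c u) else 0) else 0) = 0 := by
  refine Finset.sum_eq_zero fun u hu => ?_
  have hok := ((F.mem_TF Finset.univ Y u).1 hu).1
  by_cases hc : F.Cnd Z R k L u
  · rw [if_pos hc, if_neg]
    rintro ⟨-, h1⟩
    have h2 := hc.1 τ hτ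
    have h3 : F.nrl (u τ) ≤ F.nrl (cl F i (F.U u)) := by
      apply sm_nrl
      intro a ha
      unfold cl
      rw [Finset.mem_filter]
      refine ⟨Finset.mem_biUnion.2 ⟨τ, Finset.mem_univ _, ha⟩, ?_⟩
      rw [hok.1 τ a ha]
      exact hi
    have h4 : Z ≤ lv Z R (k + 1) := by
      unfold lv
      exact le_self_pow₀ hZ1 (pow_ne_zero _ (by omega))
    linarith
  · rw [if_neg hc]

private theorem sm_ss (F : Fr0 X K) (i : Fin X.N) (c : F.C) (Z Z₁ : ℝ) (R k : ℕ) (L : Finset X.Ty)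
    (hL : ∀ τ ∈ L, τ.1.1 ≠ i) (Y : ℝ) :
    ∑ u ∈ F.TF Finset.univ Y, (if F.Cnd Z R k L u then
      (if F.Sp c (F.cls (F.U u)) ∧ F.nrl (cl F i (F.U u)) ≤ Z₁ then ep X.p (F.Ph c u) else 0) else 0) =
      F.SS Finset.univ c (fun _ => 1) Z R k L (fun σ => F.nrl (cl F i (F.U σ)) ≤ Z₁) Y := by
  unfold Fr0.SS
  refine Finset.sum_congr rfl fun u hu => ?_
  have hok := ((F.mem_TF Finset.univ Y u).1 hu).1
  have hE : F.nrl (cl F i (F.U (F.rs Lᶜ u))) ≤ Z₁ ↔ F.nrl (cl F i (F.U u)) ≤ Z₁ := by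
    rw [sm_cl F i L hL u hok]
  by_cases hc : F.Cnd Z R k L u
  · rw [if_pos hc]
    by_cases h1 : F.Sp c (F.cls (F.U u))
    · by_cases h2 : F.nrl (cl F i (F.U u)) ≤ Z₁
      · rw [if_pos ⟨h1, h2⟩, if_pos ⟨hc, hE.2 h2, h1⟩, one_mul]
      · rw [if_neg fun h => h2 h.2, if_neg fun h => h2 (hE.1 h.2.1)]
    · rw [if_neg fun h => h1 h.1, if_neg fun h => h1 h.2.2]
  · rw [if_neg hc, if_neg fun h => hc h.1]

private theorem sm_fs (F : Fr X K) (i : Fin X.N) (c : F.C) (Z₁ Y : ℝ) :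
    ∑ g ∈ F.Fam Finset.univ Y, (if F.Sp c (F.cls g) ∧ F.nrl (cl F.toFr0 i g) ≤ Z₁ then ‖F.wt c g‖ else 0) =
      ‖∑ u ∈ F.TF Finset.univ Y,
        (if F.Sp c (F.cls (F.U u)) ∧ F.nrl (cl F.toFr0 i (F.U u)) ≤ Z₁ then ep X.p (F.Ph c u) else 0)‖ := by
  have h1 := fs_exp F.toFr0 Finset.univ
    (fun c' g => if c' = c ∧ F.nrl (cl F.toFr0 i g) ≤ Z₁ then 1 else 0) Y
  have h2 : F.FS Finset.univ (fun c' g => if c' = c ∧ F.nrl (cl F.toFr0 i g) ≤ Z₁ then 1 else 0) Y =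
      ((∑ g ∈ F.Fam Finset.univ Y,
        (if F.Sp c (F.cls g) ∧ F.nrl (cl F.toFr0 i g) ≤ Z₁ then ‖F.wt c g‖ else 0) : ℝ) : ℂ) := by
    unfold Fr0.FS
    rw [Complex.ofReal_sum]
    refine Finset.sum_congr rfl fun g _ => ?_
    dsimp only
    rw [Finset.sum_eq_single c]
    · obtain ⟨r, hr, hr0, -⟩ := wt_re F c g
      have hr' : ‖F.wt c g‖ = r := by
        rw [hr, Complex.norm_real, Real.norm_eq_abs, abs_of_nonneg hr0]
      by_cases h3 : F.Sp c (F.cls g)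
      · by_cases h4 : F.nrl (cl F.toFr0 i g) ≤ Z₁
        · rw [if_pos h3, if_pos ⟨rfl, h4⟩, if_pos ⟨h3, h4⟩, one_mul, hr', hr]
        · rw [if_pos h3, if_neg fun h => h4 h.2, if_neg fun h => h4 h.2, zero_mul, Complex.ofReal_zero]
      · rw [if_neg h3, if_neg fun h => h3 h.1, Complex.ofReal_zero]
    · intro c' _ hc
      rw [if_neg (show ¬ (c' = c ∧ F.nrl (cl F.toFr0 i g) ≤ Z₁) from fun h => hc h.1), zero_mul]
      split_ifs <;> rfl
    · intro h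
      exact absurd (Finset.mem_univ c) h
  have h3 : (∑ c' : F.C, ∑ u ∈ F.TF Finset.univ Y, if F.Sp c' (F.cls (F.U u)) then
      (if c' = c ∧ F.nrl (cl F.toFr0 i (F.U u)) ≤ Z₁ then 1 else 0) * ep X.p (F.Ph c' u) else 0) =
      ∑ u ∈ F.TF Finset.univ Y,
        (if F.Sp c (F.cls (F.U u)) ∧ F.nrl (cl F.toFr0 i (F.U u)) ≤ Z₁ then ep X.p (F.Ph c u) else 0) := by
    rw [Finset.sum_eq_single c]
    · refine Finset.sum_congr rfl fun u _ => ?_
      by_cases h3 : F.Sp c (F.cls (F.U u))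
      · by_cases h4 : F.nrl (cl F.toFr0 i (F.U u)) ≤ Z₁
        · rw [if_pos h3, if_pos ⟨rfl, h4⟩, if_pos ⟨h3, h4⟩, one_mul]
        · rw [if_pos h3, if_neg fun h => h4 h.2, if_neg fun h => h4 h.2, zero_mul]
      · rw [if_neg h3, if_neg fun h => h3 h.1]
    · intro c' _ hc
      refine Finset.sum_eq_zero fun u _ => ?_
      rw [if_neg (show ¬ (c' = c ∧ F.nrl (cl F.toFr0 i (F.U u)) ≤ Z₁) from fun h => hc h.1), zero_mul]
      split_ifs <;> rfl
    · intro h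
      exact absurd (Finset.mem_univ c) h
  rw [← h3]
  have h4 := h1.symm.trans h2
  rw [h4, Complex.norm_real, Real.norm_eq_abs, abs_of_nonneg]
  refine Finset.sum_nonneg fun g _ => ?_
  split_ifs
  · exact norm_nonneg _
  · exact le_rfl

private theorem sm_one (F : Fr X K) (hX : X.Cl Finset.univ) (A₁ : ℕ) (c : F.C) (i : Fin X.N) :
    ∃ (T b : ℝ) (A B : ℕ), 0 ≤ T ∧ 0 ≤ b ∧ ∀ Y : ℝ, 3 ≤ Y →
      ∑ g ∈ F.Fam Finset.univ Y, (if F.Sp c (F.cls g) ∧ F.nrl (cl F.toFr0 i g) ≤ Real.log Y ^ A₁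
        then ‖F.wt c g‖ else 0) ≤
      T * (Y * Real.log Y ^ (X.N - 1)) * ((1 + b * Real.log (Real.log Y)) ^ A / Real.log Y) +
        T * Real.log Y ^ B := by
  obtain ⟨C₁, A₁', δ, hC₁, hδ, -, H₁⟩ := lnkb X K F.d (H57.AN.i2 K F.d) (H57.AN.i3a K)
  obtain ⟨C₂, A₂, R, hC₂, hR, H₂⟩ := unla X K F.d (H57.AN.i1 K F.d) (H57.AN.i3a K)
  obtain ⟨C₃, A₃, hC₃, H₃⟩ := fewa X K F.d (H57.AN.i3a K) (H57.AN.i3b K X.N F.d)
  obtain ⟨m, hm⟩ : ∃ m, m = Fintype.card X.Ty := ⟨_, rfl⟩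
  obtain ⟨e, he⟩ := exists_nat_ge (((A₁' : ℝ) + 1) / δ)
  obtain ⟨a, ha⟩ : ∃ a, a = A₁ + 1 + (A₂ + 1) + e := ⟨_, rfl⟩
  have haδ : (A₁' : ℝ) + 1 ≤ a * δ := by
    have h1 : (e : ℝ) ≤ a := by
      rw [ha]
      push_cast
      linarith [Nat.cast_nonneg (α := ℝ) A₁, Nat.cast_nonneg (α := ℝ) A₂]
    rw [div_le_iff₀ hδ] at he
    exact he.trans (mul_le_mul_of_nonneg_right h1 hδ.le)
  have hq := F.one_le_qq
  have hD1 := F.one_le_D
  have hlD : 0 ≤ Real.log F.D := Real.log_nonneg hD1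
  obtain ⟨Q, hQ⟩ : ∃ Q, Q = F.qq * F.D := ⟨_, rfl⟩
  have hQ1 : 1 ≤ Q := by
    rw [hQ]
    exact one_le_mul_of_one_le_of_one_le hq hD1
  obtain ⟨k1, hk1⟩ : ∃ k1, k1 = C₁ * Q ^ A₁' * 2 ^ A₁' := ⟨_, rfl⟩
  obtain ⟨k2, hk2⟩ : ∃ k2, k2 = C₂ * Q ^ A₂ * 2 ^ A₂ := ⟨_, rfl⟩
  obtain ⟨k3, hk3⟩ : ∃ k3, k3 = C₃ * (1 + Real.log F.D) ^ A₃ := ⟨_, rfl⟩
  have hk10 : 0 ≤ k1 := by rw [hk1]; positivity
  have hk20 : 0 ≤ k2 := by rw [hk2]; positivity
  have hk30 : 0 ≤ k3 := by rw [hk3]; positivity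
  obtain ⟨T, hT⟩ : ∃ T, T = k1 + k2 + k3 + C₃ := ⟨_, rfl⟩
  have hT0 : 0 ≤ T := by rw [hT]; positivity
  obtain ⟨b, hb⟩ : ∃ b : ℝ, b = a * (R : ℝ) ^ m := ⟨_, rfl⟩
  have hb0 : 0 ≤ b := by rw [hb]; positivity
  obtain ⟨B, hB⟩ : ∃ B, B = a * R ^ m * A₃ := ⟨_, rfl⟩
  refine ⟨(m + 1) * 2 ^ m * T, b, A₃, B, by positivity, hb0, ?_⟩
  intro Y hY
  obtain ⟨l, hl⟩ : ∃ l, l = Real.log Y := ⟨_, rfl⟩
  have hl1 : 1 < l := by
    rw [hl, Real.lt_log_iff_exp_lt (by linarith)]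
    have := Real.exp_one_lt_d9
    linarith
  have hll : 0 ≤ Real.log l := Real.log_nonneg hl1.le
  rw [← hl]
  obtain ⟨Z, hZ⟩ : ∃ Z, Z = l ^ a := ⟨_, rfl⟩
  have hZ1 : 1 ≤ Z := by
    rw [hZ]
    exact one_le_pow₀ hl1.le
  have hZZ : l ^ A₁ < Z := by
    rw [hZ]
    exact pow_lt_pow_right₀ hl1 (by omega)
  obtain ⟨P, hP⟩ : ∃ P, P = (1 + b * Real.log l) ^ A₃ := ⟨_, rfl⟩
  have hP1 : 1 ≤ P := by
    rw [hP]
    exact one_le_pow₀ (by nlinarith)
  obtain ⟨V, hV⟩ : ∃ V, V = Y * l ^ (X.N - 1) := ⟨_, rfl⟩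
  have hVY : Y ≤ V := by
    rw [hV]
    exact le_mul_of_one_le_right (by linarith) (one_le_pow₀ hl1.le)
  have hV0 : 0 ≤ V := by linarith
  rw [← hP, ← hV]
  obtain ⟨W, hW⟩ : ∃ W, W = V * (P / l) := ⟨_, rfl⟩
  have hl0 : 0 < l := by linarith
  have hYW : Y / l ≤ W := by
    rw [hW, ← mul_div_assoc]
    refine div_le_div_of_nonneg_right ?_ hl0.le
    calc Y ≤ V := hVY
      _ = V * 1 := (mul_one V).symm
      _ ≤ V * P := mul_le_mul_of_nonneg_left hP1 hV0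
  have hW0 : 0 ≤ W := by
    rw [hW]
    positivity
  have hB0 : 0 ≤ l ^ B := by positivity
  -- the three bounds
  have bd1 : C₁ * Q ^ A₁' * Y * Z ^ (-δ) * (1 + l) ^ A₁' ≤ k1 * W := by
    have h1 : Z ^ (-δ) ≤ (l ^ (A₁' + 1))⁻¹ := by
      have e1 : Z ^ (-δ) = l ^ (-((a : ℝ) * δ)) := by
        rw [hZ, ← Real.rpow_natCast, ← Real.rpow_mul hl0.le]
        congr 1
        ring
      have e2 : (l ^ (A₁' + 1))⁻¹ = l ^ (-((A₁' : ℝ) + 1)) := by
        rw [Real.rpow_neg hl0.le]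
        congr 1
        rw [← Real.rpow_natCast]
        push_cast
        rfl
      rw [e1, e2]
      exact Real.rpow_le_rpow_of_exponent_le hl1.le (by linarith)
    have h2 : (1 + l) ^ A₁' ≤ 2 ^ A₁' * l ^ A₁' := by
      rw [← mul_pow]
      exact pow_le_pow_left₀ (by linarith) (by linarith) _
    have h3 : Z ^ (-δ) * (1 + l) ^ A₁' ≤ 2 ^ A₁' / l := by
      calc Z ^ (-δ) * (1 + l) ^ A₁' ≤ (l ^ (A₁' + 1))⁻¹ * (2 ^ A₁' * l ^ A₁') :=
            mul_le_mul h1 h2 (by positivity) (by positivity)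
        _ = 2 ^ A₁' / l := by
            rw [pow_succ]
            field_simp
    calc C₁ * Q ^ A₁' * Y * Z ^ (-δ) * (1 + l) ^ A₁' = C₁ * Q ^ A₁' * Y * (Z ^ (-δ) * (1 + l) ^ A₁') := by ring
      _ ≤ C₁ * Q ^ A₁' * Y * (2 ^ A₁' / l) := mul_le_mul_of_nonneg_left h3 (by positivity)
      _ = k1 * (Y / l) := by
          rw [hk1]
          ring
      _ ≤ k1 * W := mul_le_mul_of_nonneg_left hYW hk10
  have bd2 : C₂ * Q ^ A₂ * Y * Z⁻¹ * (1 + l) ^ A₂ ≤ k2 * W := by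
    have h1 : Z⁻¹ ≤ (l ^ (A₂ + 1))⁻¹ := by
      rw [hZ]
      exact inv_anti₀ (by positivity) (pow_le_pow_right₀ hl1.le (by omega))
    have h2 : (1 + l) ^ A₂ ≤ 2 ^ A₂ * l ^ A₂ := by
      rw [← mul_pow]
      exact pow_le_pow_left₀ (by linarith) (by linarith) _
    have h3 : Z⁻¹ * (1 + l) ^ A₂ ≤ 2 ^ A₂ / l := by
      calc Z⁻¹ * (1 + l) ^ A₂ ≤ (l ^ (A₂ + 1))⁻¹ * (2 ^ A₂ * l ^ A₂) :=
            mul_le_mul h1 h2 (by positivity) (by positivity)
        _ = 2 ^ A₂ / l := by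
            rw [pow_succ]
            field_simp
    calc C₂ * Q ^ A₂ * Y * Z⁻¹ * (1 + l) ^ A₂ = C₂ * Q ^ A₂ * Y * (Z⁻¹ * (1 + l) ^ A₂) := by ring
      _ ≤ C₂ * Q ^ A₂ * Y * (2 ^ A₂ / l) := mul_le_mul_of_nonneg_left h3 (by positivity)
      _ = k2 * (Y / l) := by
          rw [hk2]
          ring
      _ ≤ k2 * W := mul_le_mul_of_nonneg_left hYW hk20
  have hlv : ∀ k ≤ m, lv Z R k = l ^ (a * R ^ k) := by
    intro k _
    unfold lv
    rw [hZ, ← pow_mul]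
  have bd3 : ∀ k ≤ m, C₃ * (1 + Real.log F.D) ^ A₃ * (1 + Real.log (lv Z R k)) ^ A₃ *
      (Y * l ^ (X.N - 1) / l) + C₃ * lv Z R k ^ A₃ ≤ k3 * W + C₃ * l ^ B := by
    intro k hk
    have hRk : R ^ k ≤ R ^ m := Nat.pow_le_pow_right hR hk
    have h1 : Real.log (lv Z R k) ≤ b * Real.log l := by
      rw [hlv k hk, Real.log_pow, hb]
      refine mul_le_mul_of_nonneg_right ?_ hll
      push_cast
      refine mul_le_mul_of_nonneg_left ?_ (Nat.cast_nonneg a)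
      exact_mod_cast hRk
    have h0 : 0 ≤ Real.log (lv Z R k) := Real.log_nonneg (one_le_pow₀ hZ1)
    have h2 : (1 + Real.log (lv Z R k)) ^ A₃ ≤ P := by
      rw [hP]
      exact pow_le_pow_left₀ (by linarith) (by linarith) _
    have h3 : lv Z R k ^ A₃ ≤ l ^ B := by
      rw [hlv k hk, ← pow_mul, hB]
      apply pow_le_pow_right₀ hl1.le
      exact Nat.mul_le_mul_right _ (Nat.mul_le_mul_left _ hRk)
    refine add_le_add ?_ (mul_le_mul_of_nonneg_left h3 (by linarith))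
    rw [← hk3, ← hV]
    calc k3 * (1 + Real.log (lv Z R k)) ^ A₃ * (V / l) ≤ k3 * P * (V / l) := by
          refine mul_le_mul_of_nonneg_right ?_ (by positivity)
          exact mul_le_mul_of_nonneg_left h2 hk30
      _ = k3 * W := by
          rw [hW]
          ring
  have key : ∀ k ≤ m, ∀ L : Finset X.Ty,
      ‖∑ u ∈ F.TF Finset.univ Y, (if F.Cnd Z R k L u then
        (if F.Sp c (F.cls (F.U u)) ∧ F.nrl (cl F.toFr0 i (F.U u)) ≤ l ^ A₁ then ep X.p (F.Ph c u) else 0)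
          else 0)‖ ≤ T * W + T * l ^ B := by
    intro k hk L
    have p1 : 0 ≤ k1 * W := by positivity
    have p2 : 0 ≤ k2 * W := by positivity
    have p3 : 0 ≤ k3 * W := by positivity
    have p4 : 0 ≤ C₃ * W := by positivity
    have p5 : 0 ≤ (k1 + k2 + k3) * l ^ B := by positivity
    have p6 : 0 ≤ C₃ * l ^ B := by positivity
    have hsum : T * W + T * l ^ B = k1 * W + k2 * W + k3 * W + C₃ * W + (k1 + k2 + k3) * l ^ B +
        C₃ * l ^ B := by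
      rw [hT]
      ring
    rw [hsum]
    by_cases hi : ∃ τ ∈ L, τ.1.1 = i
    · obtain ⟨τ, hτ, hτi⟩ := hi
      rw [sm_zero F.toFr0 i c Z (l ^ A₁) hZ1 hZZ R k hR L τ hτ hτi Y, norm_zero]
      linarith
    have hLi : ∀ τ ∈ L, τ.1.1 ≠ i := fun τ hτ h => hi ⟨τ, hτ, h⟩
    rw [sm_ss F.toFr0 i c Z (l ^ A₁) R k L hLi Y]
    have h1one : ∀ x : F.R → ZMod X.p, ‖(1 : ℂ)‖ ≤ 1 := fun _ => by rw [norm_one]
    by_cases hlk : ∃ τ ∈ L, ∃ τ' ∈ L, X.lk τ τ'
    · have h2 := H₁ F le_rfl Finset.univ c (fun _ => 1) h1one Z R k L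
        (fun σ => F.nrl (cl F.toFr0 i (F.U σ)) ≤ l ^ A₁) hZ1 hR hlk Y (by linarith)
      rw [← hQ, ← hl] at h2
      linarith
    have hU : X.Unl L := by
      intro τ hτ τ' hτ' h0
      exact hlk ⟨τ, hτ, τ', hτ', h0⟩
    obtain ⟨f, hf⟩ := sm_exf L
    by_cases htwo : ∃ τ₁ ∈ L, ∃ τ₂ ∈ L, τ₁ ≠ τ₂ ∧ τ₁.1.1 = τ₂.1.1
    · obtain ⟨τ₁, h1, τ₂, h2, hne, hcl⟩ := htwo
      have h3 := H₂ F le_rfl Finset.univ c (fun _ => 1) h1one Z R k L
        (fun σ => F.nrl (cl F.toFr0 i (F.U σ)) ≤ l ^ A₁) f hZ1 le_rfl hU hf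
        (fun σ hσ _ _ _ hS κ => nta F Finset.univ hX c L hU f τ₁ τ₂ h1 h2 hne hcl (Finset.mem_univ _)
          σ hσ hS κ) Y (by linarith)
      rw [← hQ, ← hl] at h3
      linarith
    have hdist : ∀ τ ∈ L, ∀ τ' ∈ L, τ.1.1 = τ'.1.1 → τ = τ' := by
      intro τ hτ τ' hτ' he
      by_contra hne
      exact htwo ⟨τ, hτ, τ', hτ', hne, he⟩
    have hcard : L.card < (Finset.univ : Finset (Fin X.N)).card := by
      have h1 : (X.kl L).card = L.card := Finset.card_image_of_injOn fun τ hτ τ' hτ' he => hdist τ hτ τ' hτ' he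
      rw [← h1]
      apply Finset.card_lt_card
      refine ⟨Finset.subset_univ _, fun h => ?_⟩
      obtain ⟨τ, hτ, h2⟩ := Finset.mem_image.1 (h (Finset.mem_univ i))
      exact hLi τ hτ h2
    have h3 := H₃ F le_rfl Finset.univ c (fun _ => 1) h1one Z R k L
      (fun σ => F.nrl (cl F.toFr0 i (F.U σ)) ≤ l ^ A₁) hZ1 hR hdist hcard Y hY
    rw [Finset.card_univ, Fintype.card_fin, ← hl] at h3
    have h4 := bd3 k hk
    linarith
  rw [sm_fs F i c (l ^ A₁) Y]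
  rw [lev F.toFr0 Finset.univ Z hZ1 R hR Y, ← hm]
  calc _ ≤ ∑ k ∈ Finset.range (m + 1), ‖∑ L : Finset X.Ty, ∑ u ∈ F.TF Finset.univ Y,
        (if F.Cnd Z R k L u then (if F.Sp c (F.cls (F.U u)) ∧ F.nrl (cl F.toFr0 i (F.U u)) ≤ l ^ A₁ then
          ep X.p (F.Ph c u) else 0) else 0)‖ := norm_sum_le _ _
    _ ≤ ∑ k ∈ Finset.range (m + 1), ((2 : ℝ) ^ m * (T * W + T * l ^ B)) := by
        refine Finset.sum_le_sum fun k hk => ?_
        have hk' : k ≤ m := Nat.lt_succ_iff.1 (Finset.mem_range.1 hk)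
        refine (norm_sum_le _ _).trans ?_
        refine (Finset.sum_le_card_nsmul _ _ (T * W + T * l ^ B) fun L _ => key k hk' L).trans (le_of_eq ?_)
        rw [nsmul_eq_mul, Finset.card_univ, Fintype.card_finset, ← hm]
        push_cast
        ring
    _ = (m + 1) * 2 ^ m * T * V * (P / l) + (m + 1) * 2 ^ m * T * l ^ B := by
        rw [Finset.sum_const, Finset.card_range, nsmul_eq_mul, hW]
        push_cast
        ring

private theorem sm_lim (b : ℝ) (hb : 0 ≤ b) (A : ℕ) :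
    Tendsto (fun l : ℝ => (1 + b * Real.log l) ^ A / l) atTop (𝓝 0) := by
  have h1 : Tendsto (fun l : ℝ => (1 + b) ^ A * (Real.log l ^ A / l)) atTop (𝓝 0) := by
    have h2 : Tendsto (fun l : ℝ => Real.log l ^ A / l) atTop (𝓝 0) :=
      (Real.isLittleO_pow_log_id_atTop (n := A)).tendsto_div_nhds_zero
    have h3 := h2.const_mul ((1 + b) ^ A)
    rwa [mul_zero] at h3
  refine squeeze_zero' ?_ ?_ h1
  · filter_upwards [eventually_ge_atTop (1 : ℝ)] with l hl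
    have := Real.log_nonneg hl
    positivity
  · filter_upwards [eventually_ge_atTop (Real.exp 1), eventually_ge_atTop (1 : ℝ)] with l hl hl1
    have hlog : 1 ≤ Real.log l := (Real.le_log_iff_exp_le (by linarith)).2 hl
    rw [← mul_div_assoc, ← mul_pow]
    refine div_le_div_of_nonneg_right ?_ (by linarith)
    refine pow_le_pow_left₀ (by nlinarith) ?_ _
    nlinarith

theorem sma (F : Fr X K) (hN : 0 < X.N) (hX : X.Cl Finset.univ) (A₁ : ℕ) (c : F.C) :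
    Tendsto (fun Y : ℝ => (∑ g ∈ F.Fam Finset.univ Y,
      if F.Sp c (F.cls g) ∧ ¬ Bg F.toFr0 (Real.log Y ^ A₁) g then ‖F.wt c g‖ else 0) /
        (Y * Real.log Y ^ (X.N - 1))) atTop (𝓝 0) := by
  choose T b A B hT hb H using fun i : Fin X.N => sm_one F hX A₁ c i
  have hlim : Tendsto (fun Y : ℝ => ∑ i : Fin X.N, (T i * ((1 + b i * Real.log (Real.log Y)) ^ A i /
      Real.log Y) + T i * (Real.log Y ^ B i / Y))) atTop (𝓝 0) := by
    have h0 : (∑ _i : Fin X.N, (0 : ℝ)) = 0 := Finset.sum_const_zero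
    rw [← h0]
    refine tendsto_finsetSum _ fun i _ => ?_
    have h1 := ((sm_lim (b i) (hb i) (A i)).comp Real.tendsto_log_atTop).const_mul (T i)
    have h2 : Tendsto (fun Y : ℝ => Real.log Y ^ B i / Y) atTop (𝓝 0) :=
      (Real.isLittleO_pow_log_id_atTop (n := B i)).tendsto_div_nhds_zero
    have h3 := h1.add (h2.const_mul (T i))
    rw [mul_zero, add_zero] at h3
    exact h3
  refine squeeze_zero' ?_ ?_ hlim
  · filter_upwards [eventually_ge_atTop (3 : ℝ)] with Y hY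
    have hl : 0 ≤ Real.log Y := Real.log_nonneg (by linarith)
    refine div_nonneg (Finset.sum_nonneg fun g _ => ?_) (by positivity)
    split_ifs
    · exact norm_nonneg _
    · exact le_rfl
  · filter_upwards [eventually_ge_atTop (3 : ℝ)] with Y hY
    have hl1 : 1 < Real.log Y := by
      rw [Real.lt_log_iff_exp_lt (by linarith)]
      have := Real.exp_one_lt_d9
      linarith
    have hV : 0 < Y * Real.log Y ^ (X.N - 1) := by positivity
    have hYV : Y ≤ Y * Real.log Y ^ (X.N - 1) :=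
      le_mul_of_one_le_right (by linarith) (one_le_pow₀ hl1.le)
    rw [div_le_iff₀ hV, Finset.sum_mul]
    have h1 : (∑ g ∈ F.Fam Finset.univ Y,
        if F.Sp c (F.cls g) ∧ ¬ Bg F.toFr0 (Real.log Y ^ A₁) g then ‖F.wt c g‖ else 0) ≤
        ∑ i : Fin X.N, ∑ g ∈ F.Fam Finset.univ Y,
          (if F.Sp c (F.cls g) ∧ F.nrl (cl F.toFr0 i g) ≤ Real.log Y ^ A₁ then ‖F.wt c g‖ else 0) := by
      rw [Finset.sum_comm]
      refine Finset.sum_le_sum fun g _ => ?_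
      have hnn : ∀ i : Fin X.N, 0 ≤ (if F.Sp c (F.cls g) ∧ F.nrl (cl F.toFr0 i g) ≤ Real.log Y ^ A₁
          then ‖F.wt c g‖ else 0) := by
        intro i
        split_ifs
        · exact norm_nonneg _
        · exact le_rfl
      split_ifs with h
      · obtain ⟨h2, h3⟩ := h
        unfold Bg at h3
        push Not at h3
        obtain ⟨i, hi⟩ := h3
        refine le_trans (le_of_eq ?_) (Finset.single_le_sum (fun j _ => hnn j) (Finset.mem_univ i))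
        rw [if_pos ⟨h2, hi⟩]
      · exact Finset.sum_nonneg fun i _ => hnn i
    refine h1.trans (Finset.sum_le_sum fun i _ => (H i Y hY).trans ?_)
    have h2 : T i * Real.log Y ^ B i ≤ T i * (Real.log Y ^ B i / Y) * (Y * Real.log Y ^ (X.N - 1)) := by
      have hY0 : (0 : ℝ) < Y := by linarith
      have h3 : T i * Real.log Y ^ B i = T i * (Real.log Y ^ B i / Y) * Y := by
        field_simp
      rw [h3]
      have hTi := hT i
      exact mul_le_mul_of_nonneg_left hYV (by positivity)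
    calc _ ≤ T i * (Y * Real.log Y ^ (X.N - 1)) * ((1 + b i * Real.log (Real.log Y)) ^ A i / Real.log Y) +
          T i * (Real.log Y ^ B i / Y) * (Y * Real.log Y ^ (X.N - 1)) := add_le_add le_rfl h2
      _ = _ := by ring

end H51.MS
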