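import Pool.Agent.H51.MS.Par
import Pool.Agent.H51.MS.Sma

/-!
# [H51 MS NAL] Not aligned phases: the sum is negligible (60-100 lines)

For `c` fixed: the part with `¬ Bg` is at most `∑_{Sp, ¬ Bg} ‖wt‖` (`sma`); the part with `Bg` (there `cls g = univ`, so `Sp` by `Sp_univ`): where `wt c g ≠ 0` `Θ c g` is as in `h`; so it is `PS` with `w = 1`: `par` (i).
-/

set_option autoImplicit false

open scoped NumberField
open IsDedekindDomain NumberField H63.MA H36.QA Filter Topology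
open scoped Classical

noncomputable section

namespace H51.MS

open H51.MM

variable {X : CD} {K : Type} [Field K] [NumberField K]

private theorem nal_bg (F : Fr0 X K) {Z : ℝ} (hZ : 1 ≤ Z) {g : Finset F.Lb} (h : Bg F Z g) :
    F.cls g = Finset.univ := by
  rw [Finset.eq_univ_iff_forall]
  intro i
  have h1 : cl F i g ≠ ∅ := by
    intro h0
    have h2 := h i
    rw [h0] at h2
    have h3 : F.nrl ∅ = 1 := by
      unfold Fr0.nrl
      exact Finset.prod_empty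
    rw [h3] at h2
    linarith
  obtain ⟨a, ha⟩ := Finset.nonempty_iff_ne_empty.2 h1
  unfold cl at ha
  rw [Finset.mem_filter] at ha
  exact Finset.mem_image.2 ⟨a, ha.1, ha.2⟩

theorem nal (F : Fr X K) (B : Bl F) (hB : ¬ B.Al) (O : Or B) (hN : 0 < X.N) (hX : X.Cl Finset.univ)
    (m : ℕ) [NeZero m] (s : F.C → F.Lb → ZMod X.p)
    (H : F.C → (F.R → ZMod X.p) → (B.St → ZMod m) → ℂ) (hH : ∀ c x y, ‖H c x y‖ ≤ 1)
    (Θ : F.C → Finset F.Lb → ℂ) (hΘ : ∀ c g, ‖Θ c g‖ ≤ 1)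
    (h : ∀ c g, F.Ok g → F.wt c g ≠ 0 →
      Θ c g = H c (F.tot g) (prf B m g) * ep X.p (pph B O g + ∑ a ∈ g, s c a)) :
    Tendsto (fun Y : ℝ => F.FS Finset.univ Θ Y / ((Y * Real.log Y ^ (X.N - 1) : ℝ) : ℂ))
      atTop (𝓝 0) := by
  obtain ⟨A₁, hA⟩ := par F B hN hX m (fun _ => 1) (fun _ => ⟨zero_le_one, le_rfl⟩) (Or.inl hB)
  have hpar : ∀ c : F.C, Tendsto (fun Y : ℝ => PS B O m c (fun _ => 1) (s c) (H c) (Real.log Y ^ A₁) Y /
        ((Y * Real.log Y ^ (X.N - 1) : ℝ) : ℂ)) atTop (𝓝 0) := fun c =>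
    hA A₁ le_rfl O c (s c) (H c) (hH c)
  have hsma := fun c : F.C => sma F hN hX A₁ c
  obtain ⟨T, hT⟩ : ∃ T : F.C → ℝ → ℂ, ∀ c Y, T c Y = ∑ g ∈ F.Fam Finset.univ Y,
      if F.Sp c (F.cls g) ∧ ¬ Bg F.toFr0 (Real.log Y ^ A₁) g then Θ c g * F.wt c g else 0 :=
    ⟨_, fun _ _ => rfl⟩
  have hT0 : ∀ c : F.C, Tendsto (fun Y : ℝ => T c Y / ((Y * Real.log Y ^ (X.N - 1) : ℝ) : ℂ))
      atTop (𝓝 0) := by
    intro c
    refine squeeze_zero_norm' ?_ (hsma c)
    filter_upwards [eventually_ge_atTop (3 : ℝ)] with Y hY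
    have hlog : 0 ≤ Real.log Y := Real.log_nonneg (by linarith)
    have hD : 0 ≤ Y * Real.log Y ^ (X.N - 1) := mul_nonneg (by linarith) (pow_nonneg hlog _)
    rw [norm_div, Complex.norm_real, Real.norm_of_nonneg hD, hT]
    refine div_le_div_of_nonneg_right ((norm_sum_le _ _).trans (Finset.sum_le_sum fun g _ => ?_)) hD
    split_ifs
    · rw [norm_mul]
      exact mul_le_of_le_one_left (norm_nonneg _) (hΘ c g)
    · rw [norm_zero]
  have hsum : Tendsto (fun Y : ℝ => ∑ c : F.C, (T c Y / ((Y * Real.log Y ^ (X.N - 1) : ℝ) : ℂ) +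
      PS B O m c (fun _ => 1) (s c) (H c) (Real.log Y ^ A₁) Y /
        ((Y * Real.log Y ^ (X.N - 1) : ℝ) : ℂ))) atTop (𝓝 0) := by
    have h1 := tendsto_finsetSum (Finset.univ : Finset F.C) fun c _ => (hT0 c).add (hpar c)
    simpa only [add_zero, Finset.sum_const_zero] using h1
  refine hsum.congr' ?_
  filter_upwards [eventually_ge_atTop (Real.exp 1)] with Y hY
  have hlog : 1 ≤ Real.log Y := by
    rw [← Real.log_exp 1]
    exact Real.log_le_log (Real.exp_pos 1) hY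
  have hZ : 1 ≤ Real.log Y ^ A₁ := one_le_pow₀ hlog
  unfold Fr0.FS
  rw [Finset.sum_comm, Finset.sum_div]
  refine Finset.sum_congr rfl fun c _ => ?_
  rw [← add_div]
  congr 1
  rw [hT]
  unfold PS
  rw [← Finset.sum_add_distrib]
  refine Finset.sum_congr rfl fun g hg => ?_
  have hok : F.Ok g := ((F.mem_Fam _ _ _).1 hg).1
  by_cases hBg : Bg F.toFr0 (Real.log Y ^ A₁) g
  · have hsp : F.Sp c (F.cls g) := by
      rw [nal_bg F.toFr0 hZ hBg]
      exact F.Sp_univ c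
    rw [if_neg (fun h1 => h1.2 hBg), if_pos hBg, if_pos hsp, zero_add, Finset.prod_const_one,
      Complex.ofReal_one, one_mul]
    by_cases hw : F.wt c g = 0
    · rw [hw, mul_zero, zero_mul, zero_mul]
    · rw [h c g hok hw]
      ring
  · rw [if_neg hBg, add_zero]
    by_cases hsp : F.Sp c (F.cls g)
    · rw [if_pos ⟨hsp, hBg⟩, if_pos hsp]
    · rw [if_neg (fun h1 => hsp h1.1), if_neg hsp]

end H51.MS
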