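import Pool.Agent.H51.MS.Defs

/-!
# [H51 MS BLZ] The bilinear data without phase (100-140 lines)

`St = F.R → ZMod p`, `st = qv`, `P = 0`, `lk i j θ = ¬ van i j θ`, `Xp = 0`, `Xs x y k = Gf c (single k) (x + y) - Gf c (single k) x - Gf c (single k) y` with `single k = Pi.single k 1` (`crs` for `g = {a}`, `h = {b}`, `dotProduct_single`/`single_dotProduct`). `D' = F.D`, `d' = F.d`.
`lk_sub`: `van_sub`. `lk_add`: `van i j (θ + θ')` from `van_sub θ (0 - θ')`. `chr`: `F.chr` with `κ = 0`, `θ₀ = 0`, `σ = h`. `sep`: `F.nt1` with `σ = h₁ ∪ h₂` as in LnkA.lean.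
`al_blz`: `f = 0`.
-/

set_option autoImplicit false

open scoped NumberField
open IsDedekindDomain NumberField H63.MA H36.QA Filter Topology
open scoped Classical

noncomputable section

namespace H51.MS

open H51.MM

variable {X : CD} {K : Type} [Field K] [NumberField K]

private theorem blz_van_neg (X : CD) (i j : Fin X.N) (θ : Fin X.w → ZMod X.p)
    (h : X.van i j θ) : X.van i j (-θ) := by
  have h1 := X.van_sub i j 0 θ (X.van_zero i j) h
  rwa [zero_sub] at h1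

private theorem blz_tot1 (F : Fr X K) (a : F.Lb) : F.tot {a} = F.qv a := by
  unfold Fr0.tot
  exact Finset.sum_singleton _ _

private theorem blz_ok1 (F : Fr X K) (a : F.Lb) (ha : F.Gd a) : F.Ok {a} := by
  constructor
  · intro x hx
    rw [Finset.mem_singleton.1 hx]
    exact ha
  · intro x hx y hy hxy
    rw [Finset.mem_singleton.1 hx, Finset.mem_singleton.1 hy] at hxy
    exact absurd rfl hxy

private theorem blz_sym (F : Fr X K) (c : F.C) (a b : F.Lb) (ha : F.Gd a) (hb : F.Gd b)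
    (hab : F.un a ≠ F.un b) (k : Fin X.w) : (F.s a b + F.s b a) k =
      Gf F c (Pi.single k 1) (F.qv a + F.qv b) - Gf F c (Pi.single k 1) (F.qv a) -
        Gf F c (Pi.single k 1) (F.qv b) := by
  have hd : Disjoint (F.und {a}) (F.und {b}) := by
    unfold Fr0.und
    rw [Finset.image_singleton, Finset.image_singleton, Finset.disjoint_singleton]
    exact hab
  have h := crs F c (Pi.single k 1) {a} {b} (blz_ok1 F a ha) (blz_ok1 F b hb) hd
  rw [Finset.sum_singleton, Finset.sum_singleton, blz_tot1, blz_tot1, single_dotProduct,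
    one_mul] at h
  exact h

private theorem blz_sep (F : Fr X K) (c : F.C) (i j : Fin X.N) (θ : Fin X.w → ZMod X.p)
    (hθ : ¬ X.van i j θ) (e₁ e₂ : Finset F.Lb) (hok₁ : F.Ok e₁) (hok₂ : F.Ok e₂)
    (hcl₁ : ∀ b ∈ e₁, b.1 = j) (hcl₂ : ∀ b ∈ e₂, b.1 = j) (hne : F.und e₁ ≠ F.und e₂) :
    ∃ a : Pl (F.L i), F.Gd ⟨i, a⟩ ∧ F.un ⟨i, a⟩ ∉ F.und e₁ ∧ F.un ⟨i, a⟩ ∉ F.und e₂ ∧
      ∑ b ∈ e₁, θ ⬝ᵥ F.s ⟨i, a⟩ b ≠ ∑ b ∈ e₂, θ ⬝ᵥ F.s ⟨i, a⟩ b := by
  have hθ' : ¬ X.van i j (-θ) := by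
    intro h
    apply hθ
    have h1 := blz_van_neg X i j _ h
    rwa [neg_neg] at h1
  have hex : ∃ b ∈ e₁ ∪ e₂, (∀ b' ∈ e₁ ∪ e₂, F.un b' = F.un b → b' = b) ∧
      ¬ X.van i b.1 ((if b ∈ e₁ then θ else 0) - (if b ∈ e₂ then θ else 0)) := by
    have h1 : (∃ v ∈ F.und e₁, v ∉ F.und e₂) ∨ ∃ v ∈ F.und e₂, v ∉ F.und e₁ := by
      by_contra hcon
      push Not at hcon
      apply hne
      exact Finset.Subset.antisymm hcon.1 hcon.2
    rcases h1 with ⟨v, hv, hv'⟩ | ⟨v, hv, hv'⟩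
    · rw [Fr0.und, Finset.mem_image] at hv
      obtain ⟨b, hb, rfl⟩ := hv
      have hb2 : b ∉ e₂ := fun h => hv' (by rw [Fr0.und, Finset.mem_image]; exact ⟨b, h, rfl⟩)
      refine ⟨b, Finset.mem_union_left _ hb, fun b' hb' hbb => ?_, ?_⟩
      · rcases Finset.mem_union.1 hb' with h3 | h3
        · by_contra h4
          exact hok₁.2 b' h3 b hb h4 hbb
        · exact absurd (by rw [Fr0.und, Finset.mem_image]; exact ⟨b', h3, hbb⟩) hv'
      · rw [if_pos hb, if_neg hb2, sub_zero, hcl₁ b hb]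
        exact hθ
    · rw [Fr0.und, Finset.mem_image] at hv
      obtain ⟨b, hb, rfl⟩ := hv
      have hb2 : b ∉ e₁ := fun h => hv' (by rw [Fr0.und, Finset.mem_image]; exact ⟨b, h, rfl⟩)
      refine ⟨b, Finset.mem_union_right _ hb, fun b' hb' hbb => ?_, ?_⟩
      · rcases Finset.mem_union.1 hb' with h3 | h3
        · exact absurd (by rw [Fr0.und, Finset.mem_image]; exact ⟨b', h3, hbb⟩) hv'
        · by_contra h4
          exact hok₂.2 b' h3 b hb h4 hbb
      · rw [if_neg hb2, if_pos hb, zero_sub, hcl₂ b hb]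
        exact hθ'
  have hgd : ∀ b ∈ e₁ ∪ e₂, F.Gd b := by
    intro b hb
    rcases Finset.mem_union.1 hb with h3 | h3
    · exact hok₁.1 b h3
    · exact hok₂.1 b h3
  obtain ⟨w, hw1, hw2, hw3⟩ := F.nt1 i 0 c 0 (e₁ ∪ e₂)
    (fun b => (if b ∈ e₁ then θ else 0) - (if b ∈ e₂ then θ else 0)) (X.van_zero i i) hgd hex
    (F.und e₁ ∪ F.und e₂)
  rw [Finset.mem_union, not_or] at hw2
  refine ⟨w, hw1, hw2.1, hw2.2, fun h5 => hw3 ?_⟩
  unfold Fr0.ch
  rw [zero_dotProduct, zero_dotProduct, zero_add, zero_add]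
  simp only [sub_dotProduct]
  rw [Finset.sum_sub_distrib, sub_eq_zero]
  have h6 : ∀ e : Finset F.Lb, e ⊆ e₁ ∪ e₂ → ∑ b ∈ e₁ ∪ e₂, (if b ∈ e then θ else 0) ⬝ᵥ F.s ⟨i, w⟩ b =
      ∑ b ∈ e, θ ⬝ᵥ F.s ⟨i, w⟩ b := by
    intro e he
    rw [← Finset.sum_subset he]
    · refine Finset.sum_congr rfl fun b hb => ?_
      rw [if_pos hb]
    · intro b _ hb
      rw [if_neg hb, zero_dotProduct]
  rw [h6 e₁ Finset.subset_union_left, h6 e₂ Finset.subset_union_right]
  exact h5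

theorem blz (F : Fr X K) (c : F.C) : ∃ B : Bl F, (∀ a b, B.P a b = 0) ∧
    (∀ i j θ, B.lk i j θ ↔ ¬ X.van i j θ) := by
  have : NeZero X.p := ⟨X.hp.ne_zero⟩
  refine ⟨{
    St := F.R → ZMod X.p
    st := F.qv
    P := fun _ _ => 0
    lk := fun i j θ => ¬ X.van i j θ
    lk_symm := ?_
    lk_sub := ?_
    lk_add := ?_
    Xs := fun x y k => Gf F c (Pi.single k 1) (x + y) - Gf F c (Pi.single k 1) x -
      Gf F c (Pi.single k 1) y
    sym_s := ?_
    Xp := fun _ _ => 0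
    sym_P := ?_
    Xp_self := fun _ => rfl
    D' := F.D
    one_le_D' := F.one_le_D
    d' := F.d
    chr := ?_
    sep := ?_ }, fun _ _ => rfl, fun _ _ _ => Iff.rfl⟩
  · intro i j θ h h1
    apply h
    have h2 := blz_van_neg X j i _ h1
    rw [neg_neg] at h2
    exact X.van_symm j i θ h2
  · intro i j θ θ' h h'
    exact X.van_sub i j θ θ' (not_not.1 h) (not_not.1 h')
  · intro i j θ θ' h h' h1
    apply h1
    have h2 := X.van_sub i j θ (-θ') (not_not.1 h) (blz_van_neg X i j _ h')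
    rwa [sub_neg_eq_add] at h2
  · intro a b ha hb hab
    funext k
    exact blz_sym F c a b ha hb hab k
  · intro a b _ _ _
    rw [add_zero]
  · intro i j θ h hok _
    obtain ⟨𝔣, χ, h1, h2, h3⟩ := F.chr i 0 c 0 h (fun _ => θ) (X.van_zero i i) hok.1
    refine ⟨𝔣, χ, h1, h2, ?_⟩
    intro a ha ha'
    rw [h3 a ha ha']
    congr 1
    unfold Fr0.ch
    rw [zero_dotProduct, zero_dotProduct, zero_add, zero_add]
    refine Finset.sum_congr rfl fun b _ => ?_
    rw [add_zero]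
  · intro i j θ hθ h₁ h₂ hok₁ hok₂ hcl₁ hcl₂ hne
    simp only [add_zero]
    exact blz_sep F c i j θ hθ h₁ h₂ hok₁ hok₂ hcl₁ hcl₂ hne

end H51.MS
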