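import Pool.Agent.H51.MS.Mss
import Pool.Agent.H51.MM.SngA
import Pool.Agent.H57.AN.Ifa
import Pool.Agent.H63.MA.PZb

/-!
# [H51 MS MRT] Mertens upper bound for the labels with trivial character value (150-220 lines)

`f a = κ ⬝ᵥ qv a`, `1[f a = 0] = (1/p) ∑_{k < p} ep (k f a)`. `k = 0`: `mss`. `1 ≤ k < p`: it suffices `Re ∑_{a of class i, good, nm a ≤ Y} ep (k f a) / nm a ≤ C`.
Let `E = F.L i`, `χ` the ray class character from `F.chr i (k κ) c 0 ∅`, `χ.Non` (from `NT`: it has a value `≠ 1` at a good label; see SngA.lean). `H57.AN.i1 K d`: `‖∑ g ∈ FE K E B M, ∏ w ∈ g, χ w‖ ≤ C' M ^ (1 - δ)`.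
Put `σ = 1 + 1 / log Y`. `D(σ) = ∑_g (∏ χ w) nr g ^ (-σ) = ∏_{v ∉ bad} (1 + (∑_{w | v, nm w prime} χ w) nm v ^ (-σ))`, `|D(σ)| ≤ σ ∫_1^∞ |S(M)| M ^ (-σ - 1) dM ≤ C''` uniformly for `1 < σ ≤ 2` (partial summation). `log |D(σ)| ≥ Re ∑_v (∑_{w|v} χ w) nm v ^ (-σ) - C'''`
(for the finitely many `v` with `nm v` small compared with the degree: absorb them in the constant, leave them out of the product: enlarge `B`; for the others `log |1 + x| ≥ Re x - |x|^2`, `|x| ≤ 1/2`, `∑ |x|^2 < ∞` by `sq2`). So `Re ∑_w χ w nm w ^ (-σ) ≤ C`.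
Finally `|∑_{nm w ≤ Y} χ w / nm w - ∑_w χ w nm w ^ (-σ)| ≤ C`: `1 - nm w ^ (-1/log Y) ≤ log (nm w) / log Y` for `nm w ≤ Y` (`mer`: `∑ log nm w / nm w ≤ C (1 + log Y)`), and `∑_{nm w > Y} nm w ^ (-σ) ≤ C` (Chebyshev `che` in dyadic intervals).
The library may already have this for ray class characters: search for Mertens in Pool/Agent/H63/MA (MertX), H57/LI, H38; any upper bound of this kind for `RC E 𝔣` nonprincipal will do.
-/

set_option autoImplicit false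

open scoped NumberField
open IsDedekindDomain NumberField H63.MA H36.QA Filter Topology
open scoped Classical

noncomputable section

namespace H51.MS

open H51.MM

section core

variable {ι : Type} (N : ι → ℕ)

private def np (g : Finset ι) : ℕ := ∏ i ∈ g, N i

private theorem np_pos (hN : ∀ i, 2 ≤ N i) (g : Finset ι) : 1 ≤ np N g :=
  Nat.one_le_iff_ne_zero.2 (Finset.prod_ne_zero_iff.2 fun i _ => by have := hN i; omega)

private theorem tele (f : ℕ → ℝ) {a b : ℕ} (h : a ≤ b) :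
    ∑ m ∈ Finset.Ico a b, (f m - f (m + 1)) = f a - f b := by
  induction b, h using Nat.le_induction with
  | base => simp
  | succ b hb ih =>
    rw [Finset.sum_Ico_succ_top hb, ih]
    ring

private theorem diff_bd {σ : ℝ} (h1 : 1 ≤ σ) (h2 : σ ≤ 2) {m : ℕ} (hm : 1 ≤ m) :
    0 ≤ (m : ℝ) ^ (-σ) - ((m + 1 : ℕ) : ℝ) ^ (-σ) ∧
      (m : ℝ) ^ (-σ) - ((m + 1 : ℕ) : ℝ) ^ (-σ) ≤ 2 * (m : ℝ) ^ (-2 : ℝ) := by
  have hm1 : (1 : ℝ) ≤ m := by exact_mod_cast hm
  have hm0 : (0 : ℝ) < m := by linarith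
  have hm0' : (0 : ℝ) < ((m + 1 : ℕ) : ℝ) := by positivity
  constructor
  · have h := Real.rpow_le_rpow_of_nonpos hm0 (by push_cast; linarith : (m : ℝ) ≤ ((m + 1 : ℕ) : ℝ))
      (by linarith : -σ ≤ 0)
    linarith
  · have e1 : ((m + 1 : ℕ) : ℝ) = m * (1 + 1 / m) := by
      push_cast
      field_simp
    have hp : 0 < 1 + 1 / (m : ℝ) := by positivity
    have e2 : ((m + 1 : ℕ) : ℝ) ^ (-σ) = (m : ℝ) ^ (-σ) * (1 + 1 / (m : ℝ)) ^ (-σ) := by
      rw [e1, Real.mul_rpow hm0.le hp.le]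
    have h3 : 1 - σ / m ≤ (1 + 1 / (m : ℝ)) ^ (-σ) := by
      rw [Real.rpow_def_of_pos hp]
      have h4 := Real.add_one_le_exp (Real.log (1 + 1 / (m : ℝ)) * -σ)
      have h5 := Real.log_le_sub_one_of_pos hp
      have h6 : Real.log (1 + 1 / (m : ℝ)) * σ ≤ 1 / m * σ :=
        mul_le_mul_of_nonneg_right (by linarith) (by linarith)
      have h7 : σ / m = 1 / m * σ := by ring
      linarith
    have h8 : (m : ℝ) ^ (-σ) ≤ (m : ℝ) ^ (-1 : ℝ) :=
      Real.rpow_le_rpow_of_exponent_le hm1 (by linarith)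
    have h9 : 0 ≤ (m : ℝ) ^ (-σ) := by positivity
    have e3 : (m : ℝ) ^ (-2 : ℝ) = (m : ℝ) ^ (-1 : ℝ) * (1 / m) := by
      rw [show (-2 : ℝ) = -1 + -1 by norm_num, Real.rpow_add hm0, Real.rpow_neg_one]
      ring
    rw [e2, e3]
    have h10 : 0 ≤ 1 / (m : ℝ) := by positivity
    calc (m : ℝ) ^ (-σ) - (m : ℝ) ^ (-σ) * (1 + 1 / (m : ℝ)) ^ (-σ)
        = (m : ℝ) ^ (-σ) * (1 - (1 + 1 / (m : ℝ)) ^ (-σ)) := by ring
      _ ≤ (m : ℝ) ^ (-σ) * (2 * (1 / m)) := by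
        refine mul_le_mul_of_nonneg_left ?_ h9
        have h7 : σ / m = σ * (1 / m) := by ring
        have : σ * (1 / m) ≤ 2 * (1 / m) := mul_le_mul_of_nonneg_right h2 h10
        linarith
      _ ≤ (m : ℝ) ^ (-1 : ℝ) * (2 * (1 / m)) := mul_le_mul_of_nonneg_right h8 (by positivity)
      _ = 2 * ((m : ℝ) ^ (-1 : ℝ) * (1 / m)) := by ring

private theorem core_abel (hN : ∀ i, 2 ≤ N i) {C δ : ℝ} (hC : 0 ≤ C) (hδ : 0 < δ) (hδ1 : δ < 1)
    (F : ℕ → Finset (Finset ι)) (hF : ∀ m n g, m ≤ n → (g ∈ F m ↔ g ∈ F n ∧ np N g ≤ m))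
    (a : Finset ι → ℂ) (hA : ∀ m : ℕ, 1 ≤ m → ‖∑ g ∈ F m, a g‖ ≤ C * (m : ℝ) ^ (1 - δ)) :
    ∃ C1 : ℝ, ∀ σ : ℝ, 1 ≤ σ → σ ≤ 2 → ∀ n : ℕ, 1 ≤ n →
      ‖∑ g ∈ F n, a g * (((np N g : ℝ) ^ (-σ) : ℝ) : ℂ)‖ ≤ C1 := by
  have hsum : Summable fun m : ℕ => 1 / (m : ℝ) ^ (1 + δ) :=
    Real.summable_one_div_nat_rpow.2 (by linarith)
  refine ⟨C + 2 * C * ∑' m : ℕ, 1 / (m : ℝ) ^ (1 + δ), fun σ h1 h2 n hn => ?_⟩
  obtain ⟨f, hf⟩ : ∃ f : ℕ → ℝ, f = fun m : ℕ => (m : ℝ) ^ (-σ) := ⟨_, rfl⟩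
  have key : ∑ g ∈ F n, a g * (((np N g : ℝ) ^ (-σ) : ℝ) : ℂ) =
      (f (n + 1) : ℂ) * ∑ g ∈ F n, a g +
        ∑ m ∈ Finset.Ico 1 (n + 1), ((f m - f (m + 1) : ℝ) : ℂ) * ∑ g ∈ F m, a g := by
    have e1 : ∀ m ∈ Finset.Ico 1 (n + 1), ((f m - f (m + 1) : ℝ) : ℂ) * ∑ g ∈ F m, a g =
        ∑ g ∈ F n, if np N g ≤ m then ((f m - f (m + 1) : ℝ) : ℂ) * a g else 0 := by
      intro m hm
      rw [Finset.mem_Ico] at hm
      rw [Finset.mul_sum, ← Finset.sum_filter]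
      refine Finset.sum_congr ?_ fun _ _ => rfl
      ext g
      rw [Finset.mem_filter]
      exact hF m n g (by omega)
    rw [Finset.sum_congr rfl e1, Finset.sum_comm, Finset.mul_sum, ← Finset.sum_add_distrib]
    refine Finset.sum_congr rfl fun g hg => ?_
    have hg1 := np_pos N hN g
    have hgn : np N g ≤ n := ((hF n n g le_rfl).1 hg).2
    rw [← Finset.sum_filter]
    have e2 : (Finset.Ico 1 (n + 1)).filter (fun m => np N g ≤ m) = Finset.Ico (np N g) (n + 1) := by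
      ext m
      simp only [Finset.mem_filter, Finset.mem_Ico]
      omega
    rw [e2, ← Finset.sum_mul, ← Complex.ofReal_sum, tele f (by omega : np N g ≤ n + 1)]
    have e3 : f (np N g) = (np N g : ℝ) ^ (-σ) := by rw [hf]
    rw [← e3]
    push_cast
    ring
  rw [key]
  refine (norm_add_le _ _).trans ?_
  have hn1 : (1 : ℝ) ≤ n := by exact_mod_cast hn
  refine add_le_add ?_ ?_
  · rw [norm_mul, Complex.norm_real, Real.norm_of_nonneg (by rw [hf]; positivity)]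
    have h3 : f (n + 1) ≤ (n : ℝ) ^ (-1 : ℝ) := by
      rw [hf]
      show (((n + 1 : ℕ) : ℝ)) ^ (-σ) ≤ _
      have h4 : (1 : ℝ) ≤ ((n + 1 : ℕ) : ℝ) := by push_cast; linarith
      calc (((n + 1 : ℕ) : ℝ)) ^ (-σ) ≤ (((n + 1 : ℕ) : ℝ)) ^ (-1 : ℝ) :=
            Real.rpow_le_rpow_of_exponent_le h4 (by linarith)
        _ ≤ (n : ℝ) ^ (-1 : ℝ) :=
          Real.rpow_le_rpow_of_nonpos (by linarith) (by push_cast; linarith) (by norm_num)
    have h4 := hA n hn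
    have h5 : 0 ≤ f (n + 1) := by rw [hf]; positivity
    have h6 : (n : ℝ) ^ (1 - δ) ≤ n := by
      calc (n : ℝ) ^ (1 - δ) ≤ (n : ℝ) ^ (1 : ℝ) := Real.rpow_le_rpow_of_exponent_le hn1 (by linarith)
        _ = n := Real.rpow_one _
    calc f (n + 1) * ‖∑ g ∈ F n, a g‖ ≤ (n : ℝ) ^ (-1 : ℝ) * (C * n) := by
          refine mul_le_mul h3 (h4.trans (mul_le_mul_of_nonneg_left h6 hC)) (norm_nonneg _)
            (by positivity)
      _ = C := by
        rw [Real.rpow_neg_one]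
        field_simp
  · refine (norm_sum_le _ _).trans ?_
    have h3 : ∀ m ∈ Finset.Ico 1 (n + 1), ‖((f m - f (m + 1) : ℝ) : ℂ) * ∑ g ∈ F m, a g‖ ≤
        2 * C * (1 / (m : ℝ) ^ (1 + δ)) := by
      intro m hm
      rw [Finset.mem_Ico] at hm
      have hm1 : (1 : ℝ) ≤ m := by exact_mod_cast hm.1
      have hm0 : (0 : ℝ) < m := by linarith
      obtain ⟨h4, h5⟩ := diff_bd h1 h2 hm.1
      have h4' : 0 ≤ f m - f (m + 1) := by rw [hf]; exact h4
      have h5' : f m - f (m + 1) ≤ 2 * (m : ℝ) ^ (-2 : ℝ) := by rw [hf]; exact h5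
      rw [norm_mul, Complex.norm_real, Real.norm_of_nonneg h4']
      calc (f m - f (m + 1)) * ‖∑ g ∈ F m, a g‖ ≤ (2 * (m : ℝ) ^ (-2 : ℝ)) * (C * (m : ℝ) ^ (1 - δ)) :=
            mul_le_mul h5' (hA m hm.1) (norm_nonneg _) (by positivity)
        _ = 2 * C * ((m : ℝ) ^ (-2 : ℝ) * (m : ℝ) ^ (1 - δ)) := by ring
        _ = 2 * C * (1 / (m : ℝ) ^ (1 + δ)) := by
          rw [← Real.rpow_add hm0, one_div, ← Real.rpow_neg hm0.le]
          congr 2
          ring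
    refine (Finset.sum_le_sum h3).trans ?_
    rw [← Finset.mul_sum]
    exact mul_le_mul_of_nonneg_left (hsum.sum_le_tsum _ fun m _ => by positivity) (by linarith)

private theorem core_tail
    (hs : ∀ s : ℝ, 1 < s → Summable fun i => (N i : ℝ) ^ (-s)) {σ : ℝ} (hσ : 1 < σ) :
    ∃ n0 : ℕ, ∀ n : ℕ, n0 ≤ n → ∀ T : Finset ι,
      ∑ g ∈ T.powerset.filter (fun g => n < np N g), (np N g : ℝ) ^ (-σ) ≤ 1 := by
  obtain ⟨s, hs0⟩ : ∃ s, s = (1 + σ) / 2 := ⟨_, rfl⟩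
  have hs1 : 1 < s := by rw [hs0]; linarith
  have hsσ : 0 < σ - s := by rw [hs0]; linarith
  have hS := hs s hs1
  obtain ⟨Z, hZ⟩ : ∃ Z, Z = Real.exp (∑' i, (N i : ℝ) ^ (-s)) := ⟨_, rfl⟩
  have hZ0 : 0 < Z := by rw [hZ]; exact Real.exp_pos _
  have ht : Filter.Tendsto (fun n : ℕ => (n : ℝ) ^ (-(σ - s)) * Z) Filter.atTop (nhds (0 * Z)) :=
    ((tendsto_rpow_neg_atTop hsσ).comp tendsto_natCast_atTop_atTop).mul_const Z
  rw [zero_mul] at ht
  have hev := (ht.eventually (gt_mem_nhds (by norm_num : (0 : ℝ) < 1))).and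
    (Filter.eventually_ge_atTop 1)
  obtain ⟨n0, hn0⟩ := Filter.eventually_atTop.1 hev
  refine ⟨n0, fun n hn T => ?_⟩
  obtain ⟨h1, h2⟩ := hn0 n hn
  have hn1 : (1 : ℝ) ≤ n := by exact_mod_cast h2
  have h3 : ∀ g ∈ T.powerset.filter (fun g => n < np N g), (np N g : ℝ) ^ (-σ) ≤
      (n : ℝ) ^ (-(σ - s)) * (np N g : ℝ) ^ (-s) := by
    intro g hg
    have h4 := (Finset.mem_filter.1 hg).2
    have h5 : (n : ℝ) ≤ np N g := by exact_mod_cast h4.le
    have h6 : (0 : ℝ) < np N g := by linarith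
    have e : (np N g : ℝ) ^ (-σ) = (np N g : ℝ) ^ (-(σ - s)) * (np N g : ℝ) ^ (-s) := by
      rw [← Real.rpow_add h6]
      congr 1
      ring
    rw [e]
    refine mul_le_mul_of_nonneg_right ?_ (by positivity)
    exact Real.rpow_le_rpow_of_nonpos (by linarith) h5 (by linarith)
  refine (Finset.sum_le_sum h3).trans ?_
  rw [← Finset.mul_sum]
  have h4 : ∑ g ∈ T.powerset.filter (fun g => n < np N g), (np N g : ℝ) ^ (-s) ≤ Z := by
    refine (Finset.sum_le_sum_of_subset_of_nonneg (Finset.filter_subset _ _)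
      fun g _ _ => by positivity).trans ?_
    have e : ∀ g ∈ T.powerset, (np N g : ℝ) ^ (-s) = ∏ i ∈ g, (N i : ℝ) ^ (-s) := by
      intro g _
      unfold np
      push_cast
      rw [Real.finsetProd_rpow]
      intro i _
      positivity
    rw [Finset.sum_congr rfl e, ← Finset.prod_one_add, hZ]
    calc ∏ i ∈ T, (1 + (N i : ℝ) ^ (-s)) ≤ ∏ i ∈ T, Real.exp ((N i : ℝ) ^ (-s)) := by
          refine Finset.prod_le_prod (fun i _ => by positivity) fun i _ => ?_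
          linarith [Real.add_one_le_exp ((N i : ℝ) ^ (-s))]
      _ = Real.exp (∑ i ∈ T, (N i : ℝ) ^ (-s)) := (Real.exp_sum _ _).symm
      _ ≤ _ := Real.exp_le_exp.2 (hS.sum_le_tsum _ fun i _ => by positivity)
  calc (n : ℝ) ^ (-(σ - s)) * ∑ g ∈ T.powerset.filter (fun g => n < np N g), (np N g : ℝ) ^ (-s)
      ≤ (n : ℝ) ^ (-(σ - s)) * Z := mul_le_mul_of_nonneg_left h4 (by positivity)
    _ ≤ 1 := h1.le

private theorem log_bd {z : ℂ} (hz : ‖z‖ ≤ 1 / 2) : z.re ≤ Real.log ‖1 + z‖ + ‖z‖ ^ 2 := by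
  have h1 := Complex.norm_log_one_add_sub_self_le (z := z) (by linarith)
  have h2 : ‖z‖ ^ 2 * (1 - ‖z‖)⁻¹ / 2 ≤ ‖z‖ ^ 2 := by
    have h3 : (1 - ‖z‖)⁻¹ ≤ 2 := by
      rw [inv_le_comm₀ (by linarith) (by norm_num)]
      linarith
    have h4 : 0 ≤ ‖z‖ ^ 2 := by positivity
    nlinarith
  have h3 := (Complex.abs_re_le_norm (Complex.log (1 + z) - z)).trans (h1.trans h2)
  rw [Complex.sub_re, Complex.log_re] at h3
  have h4 := (abs_le.1 h3).1
  linarith

private theorem core_log {T : Finset ι} {z : ι → ℂ} (hz : ∀ i ∈ T, ‖z i‖ ≤ 1 / 2) {D : ℝ}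
    (hD : ‖∏ i ∈ T, (1 + z i)‖ ≤ D) : ∑ i ∈ T, (z i).re ≤ Real.log D + ∑ i ∈ T, ‖z i‖ ^ 2 := by
  have hne : ∀ i ∈ T, (1 + z i) ≠ 0 := by
    intro i hi h
    have h1 : z i = -1 := by linear_combination h
    have h2 := hz i hi
    rw [h1, norm_neg, norm_one] at h2
    norm_num at h2
  have h1 : ∑ i ∈ T, (z i).re ≤ ∑ i ∈ T, (Real.log ‖1 + z i‖ + ‖z i‖ ^ 2) :=
    Finset.sum_le_sum fun i hi => log_bd (hz i hi)
  rw [Finset.sum_add_distrib, ← Real.log_prod fun i hi => norm_ne_zero_iff.2 (hne i hi)] at h1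
  refine h1.trans (add_le_add ?_ le_rfl)
  rw [← norm_prod]
  exact Real.log_le_log (norm_pos_iff.2 (Finset.prod_ne_zero_iff.2 hne)) hD

private theorem np_mem (hN : ∀ i, 2 ≤ N i) {g : Finset ι} {i : ι} (hi : i ∈ g) : N i ≤ np N g :=
  Nat.le_of_dvd (np_pos N hN g) (Finset.dvd_prod_of_mem N hi)

/-- the places of norm greater than `Y` -/
private theorem core_far (hN : ∀ i, 2 ≤ N i) {Y Cm : ℝ} (hY : 3 ≤ Y) (hCm : 0 ≤ Cm)
    (T : Finset ι) (hT : ∀ i ∈ T, Y < N i)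
    (hm : ∀ k : ℕ, ∑ i ∈ T.filter (fun i => (N i : ℝ) ≤ Y ^ (k + 1)), Real.log (N i) / N i ≤
      Cm * (1 + Real.log (Y ^ (k + 1)))) :
    ∑ i ∈ T, (N i : ℝ) ^ (-(1 + 1 / Real.log Y)) ≤ 6 * Cm := by
  have hY0 : (0 : ℝ) < Y := by linarith
  have hl : 1 ≤ Real.log Y := by
    rw [Real.le_log_iff_exp_le hY0]
    exact (Real.exp_one_lt_d9.le.trans (by norm_num)).trans hY
  have hl0 : 0 < Real.log Y := by linarith
  have hn0 : ∀ i, (0 : ℝ) < N i := fun i => by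
    have := hN i
    exact_mod_cast (by omega : 0 < N i)
  have hln : ∀ i, 0 ≤ Real.log (N i) := fun i => Real.log_natCast_nonneg _
  obtain ⟨k, hk⟩ : ∃ k : ι → ℕ, k = fun i => ⌊Real.log (N i) / Real.log Y⌋₊ := ⟨_, rfl⟩
  have hk1 : ∀ i, (k i : ℝ) * Real.log Y ≤ Real.log (N i) := by
    intro i
    have h := Nat.floor_le (div_nonneg (hln i) hl0.le)
    rw [le_div_iff₀ hl0] at h
    rw [hk]
    exact h
  have hk2 : ∀ i, Real.log (N i) ≤ ((k i : ℝ) + 1) * Real.log Y := by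
    intro i
    have h := (Nat.lt_floor_add_one (Real.log (N i) / Real.log Y)).le
    rw [div_le_iff₀ hl0] at h
    rw [hk]
    exact h
  have hk3 : ∀ i ∈ T, 1 ≤ k i := by
    intro i hi
    rw [hk]
    refine Nat.le_floor ?_
    rw [Nat.cast_one, one_le_div hl0]
    exact Real.log_le_log hY0 (hT i hi).le
  obtain ⟨J, hJ⟩ : ∃ J, J = T.sup k + 1 := ⟨_, rfl⟩
  have hmap : ∀ i ∈ T, k i ∈ Finset.range J := by
    intro i hi
    rw [Finset.mem_range, hJ]
    exact Nat.lt_succ_of_le (Finset.le_sup hi)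
  rw [← Finset.sum_fiberwise_of_maps_to hmap]
  have hj : ∀ j ∈ Finset.range J, ∑ i ∈ T.filter (fun i => k i = j),
      (N i : ℝ) ^ (-(1 + 1 / Real.log Y)) ≤ 3 * Cm * (1 / 2 : ℝ) ^ j := by
    intro j _
    rcases Nat.eq_zero_or_pos j with h0 | h0
    · have he : T.filter (fun i => k i = j) = ∅ := by
        rw [Finset.filter_eq_empty_iff]
        intro i hi h
        have := hk3 i hi
        omega
      rw [he, Finset.sum_empty]
      positivity
    · have hj1 : (1 : ℝ) ≤ j := by exact_mod_cast h0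
      have hjl : 0 < (j : ℝ) * Real.log Y := by positivity
      have h1 : ∀ i ∈ T.filter (fun i => k i = j), (N i : ℝ) ^ (-(1 + 1 / Real.log Y)) ≤
          (1 / 2 : ℝ) ^ j / (j * Real.log Y) * (Real.log (N i) / N i) := by
        intro i hi
        have hij := (Finset.mem_filter.1 hi).2
        have h2 := hk1 i
        rw [hij] at h2
        have e : (N i : ℝ) ^ (-(1 + 1 / Real.log Y)) =
            (1 / N i) * Real.exp (-(Real.log (N i) / Real.log Y)) := by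
          rw [show -(1 + 1 / Real.log Y) = (-1 : ℝ) + -(1 / Real.log Y) by ring,
            Real.rpow_add (hn0 i), Real.rpow_neg_one, Real.rpow_def_of_pos (hn0 i), one_div]
          congr 2 <;> ring
        rw [e]
        have h3 : Real.exp (-(Real.log (N i) / Real.log Y)) ≤ (1 / 2 : ℝ) ^ j := by
          have h4 : (j : ℝ) ≤ Real.log (N i) / Real.log Y := by rwa [le_div_iff₀ hl0]
          have h5 : Real.exp (-(j : ℝ)) ≤ (1 / 2 : ℝ) ^ j := by
            have h6 : Real.exp (-1) ≤ 1 / 2 := by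
              rw [Real.exp_neg, one_div]
              refine inv_anti₀ (by norm_num) ?_
              have := Real.add_one_le_exp (1 : ℝ)
              linarith
            have h7 : Real.exp (-(j : ℝ)) = Real.exp (-1) ^ j := by
              rw [← Real.exp_nat_mul]
              ring_nf
            rw [h7]
            exact pow_le_pow_left₀ (Real.exp_pos _).le h6 j
          exact (Real.exp_le_exp.2 (by linarith)).trans h5
        have h4 : 1 / (N i : ℝ) ≤ (Real.log (N i) / N i) / (j * Real.log Y) := by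
          rw [le_div_iff₀ hjl]
          have : (1 / (N i : ℝ)) * (j * Real.log Y) ≤ (1 / (N i : ℝ)) * Real.log (N i) :=
            mul_le_mul_of_nonneg_left h2 (by have := hn0 i; positivity)
          calc _ ≤ _ := this
            _ = Real.log (N i) / N i := by ring
        calc (1 / (N i : ℝ)) * Real.exp (-(Real.log (N i) / Real.log Y)) ≤
            (Real.log (N i) / N i) / (j * Real.log Y) * (1 / 2 : ℝ) ^ j :=
              mul_le_mul h4 h3 (Real.exp_pos _).le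
                (div_nonneg (div_nonneg (hln i) (hn0 i).le) hjl.le)
          _ = _ := by ring
      refine (Finset.sum_le_sum h1).trans ?_
      rw [← Finset.mul_sum]
      have h2 : ∑ i ∈ T.filter (fun i => k i = j), Real.log (N i) / N i ≤
          Cm * (1 + Real.log (Y ^ (j + 1))) := by
        refine le_trans ?_ (hm j)
        refine Finset.sum_le_sum_of_subset_of_nonneg ?_ fun i _ _ => div_nonneg (hln i) (hn0 i).le
        intro i hi
        rw [Finset.mem_filter] at hi ⊢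
        refine ⟨hi.1, ?_⟩
        have h3 := hk2 i
        rw [hi.2] at h3
        have h4 : Real.log (N i) ≤ Real.log (Y ^ (j + 1)) := by
          rw [Real.log_pow]
          push_cast
          exact h3
        exact (Real.log_le_log_iff (hn0 i) (by positivity)).1 h4
      rw [Real.log_pow] at h2
      push_cast at h2
      have h3 : 1 + ((j : ℝ) + 1) * Real.log Y ≤ 3 * (j * Real.log Y) := by nlinarith
      calc (1 / 2 : ℝ) ^ j / (j * Real.log Y) *
            ∑ i ∈ T.filter (fun i => k i = j), Real.log (N i) / N i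
          ≤ (1 / 2 : ℝ) ^ j / (j * Real.log Y) * (Cm * (3 * (j * Real.log Y))) := by
            refine mul_le_mul_of_nonneg_left (h2.trans (mul_le_mul_of_nonneg_left h3 hCm)) ?_
            positivity
        _ = 3 * Cm * (1 / 2 : ℝ) ^ j := by
          field_simp
  refine (Finset.sum_le_sum hj).trans ?_
  rw [← Finset.mul_sum]
  have h2 : ∑ j ∈ Finset.range J, (1 / 2 : ℝ) ^ j ≤ 2 := by
    have h3 := (summable_geometric_two).sum_le_tsum (Finset.range J) fun n _ => by positivity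
    rwa [tsum_geometric_two] at h3
  calc 3 * Cm * ∑ j ∈ Finset.range J, (1 / 2 : ℝ) ^ j ≤ 3 * Cm * 2 :=
        mul_le_mul_of_nonneg_left h2 (by positivity)
    _ = 6 * Cm := by ring

private theorem core_main (hN : ∀ i, 2 ≤ N i) {P : ℝ → Finset ι} {G : ι → Prop}
    (hP : ∀ x i, i ∈ P x ↔ G i ∧ (N i : ℝ) ≤ x) (χ : ι → ℂ) (hχ : ∀ i, ‖χ i‖ ≤ 1)
    (hs : ∀ s : ℝ, 1 < s → Summable fun i => (N i : ℝ) ^ (-s))
    {C δ : ℝ} (hC : 0 ≤ C) (hδ : 0 < δ) (hδ1 : δ < 1)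
    (hA : ∀ m : ℕ, 1 ≤ m → ‖∑ g ∈ (P m).powerset.filter (fun g => np N g ≤ m), ∏ i ∈ g, χ i‖ ≤
      C * (m : ℝ) ^ (1 - δ)) {Cm : ℝ} (hCm : 0 ≤ Cm)
    (hm : ∀ Y : ℝ, 1 ≤ Y → ∑ i ∈ P Y, Real.log (N i) / N i ≤ Cm * (1 + Real.log Y)) :
    ∃ C' : ℝ, ∀ Y : ℝ, 3 ≤ Y → ∑ i ∈ P Y, (χ i).re / N i ≤ C' := by
  obtain ⟨F, hF⟩ : ∃ F : ℕ → Finset (Finset ι), F = fun n : ℕ =>
    (P n).powerset.filter (fun g => np N g ≤ n) := ⟨_, rfl⟩
  have hFm : ∀ m n g, m ≤ n → (g ∈ F m ↔ g ∈ F n ∧ np N g ≤ m) := by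
    intro m n g hmn
    rw [hF]
    simp only [Finset.mem_filter, Finset.mem_powerset]
    constructor
    · rintro ⟨h1, h2⟩
      refine ⟨⟨fun i hi => ?_, h2.trans hmn⟩, h2⟩
      obtain ⟨h3, h4⟩ := (hP _ _).1 (h1 hi)
      exact (hP _ _).2 ⟨h3, h4.trans (by exact_mod_cast hmn)⟩
    · rintro ⟨⟨h1, -⟩, h2⟩
      refine ⟨fun i hi => ?_, h2⟩
      obtain ⟨h3, -⟩ := (hP _ _).1 (h1 hi)
      exact (hP _ _).2 ⟨h3, by exact_mod_cast (np_mem N hN hi).trans h2⟩
  obtain ⟨C1, hC1⟩ := core_abel N hN hC hδ hδ1 F hFm (fun g => ∏ i ∈ g, χ i) (by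
    intro m hm'
    rw [hF]
    exact hA m hm')
  have hS2 := hs 2 (by norm_num)
  refine ⟨Real.log (C1 + 1) + (∑' i, (N i : ℝ) ^ (-2 : ℝ)) + 2 * Cm + 6 * Cm, fun Y hY => ?_⟩
  have hY0 : (0 : ℝ) < Y := by linarith
  have hl : 1 ≤ Real.log Y := by
    rw [Real.le_log_iff_exp_le hY0]
    exact (Real.exp_one_lt_d9.le.trans (by norm_num)).trans hY
  have hl0 : 0 < Real.log Y := by linarith
  obtain ⟨σ, hσ⟩ : ∃ σ, σ = 1 + 1 / Real.log Y := ⟨_, rfl⟩
  have hσ1 : 1 < σ := by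
    rw [hσ]
    have : 0 < 1 / Real.log Y := by positivity
    linarith
  have hσ2 : σ ≤ 2 := by
    rw [hσ]
    have : 1 / Real.log Y ≤ 1 := by
      rw [div_le_one hl0]
      exact hl
    linarith
  have hn0 : ∀ i, (2 : ℝ) ≤ N i := fun i => by exact_mod_cast hN i
  obtain ⟨n0, htail⟩ := core_tail N hs hσ1
  obtain ⟨n, hn⟩ : ∃ n, n = max n0 ⌈Y⌉₊ := ⟨_, rfl⟩
  have hnn0 : n0 ≤ n := by rw [hn]; exact le_max_left _ _
  have hnY : Y ≤ n := (Nat.le_ceil Y).trans (by rw [hn]; exact_mod_cast le_max_right _ _)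
  have hn1 : 1 ≤ n := by
    have : (1 : ℝ) ≤ n := by linarith
    exact_mod_cast this
  obtain ⟨z, hz⟩ : ∃ z : ι → ℂ, z = fun i => χ i * (((N i : ℝ) ^ (-σ) : ℝ) : ℂ) := ⟨_, rfl⟩
  have hzn : ∀ i, ‖z i‖ ≤ (N i : ℝ) ^ (-σ) := by
    intro i
    rw [hz]
    simp only
    rw [norm_mul, Complex.norm_real, Real.norm_of_nonneg (by positivity)]
    exact mul_le_of_le_one_left (by positivity) (hχ i)
  have hz1 : ∀ i, (N i : ℝ) ^ (-σ) ≤ (N i : ℝ) ^ (-1 : ℝ) := fun i =>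
    Real.rpow_le_rpow_of_exponent_le (by linarith [hn0 i]) (by linarith)
  have hz2 : ∀ i, (N i : ℝ) ^ (-1 : ℝ) ≤ 1 / 2 := by
    intro i
    rw [Real.rpow_neg_one, ← one_div]
    exact one_div_le_one_div_of_le (by norm_num) (hn0 i)
  have hprod : ‖∏ i ∈ P n, (1 + z i)‖ ≤ C1 + 1 := by
    have e1 : ∏ i ∈ P n, (1 + z i) = ∑ g ∈ (P n).powerset,
        (∏ i ∈ g, χ i) * (((np N g : ℝ) ^ (-σ) : ℝ) : ℂ) := by
      rw [Finset.prod_one_add]
      refine Finset.sum_congr rfl fun g _ => ?_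
      rw [hz, Finset.prod_mul_distrib]
      congr 1
      unfold np
      push_cast
      rw [← Complex.ofReal_prod, Real.finsetProd_rpow]
      intro i _
      positivity
    rw [e1, ← Finset.sum_filter_add_sum_filter_not (P n).powerset (fun g => np N g ≤ n)]
    refine (norm_add_le _ _).trans (add_le_add ?_ ?_)
    · have h := hC1 σ hσ1.le hσ2 n hn1
      rw [hF] at h
      exact h
    · refine (norm_sum_le _ _).trans ?_
      have h1 : ∀ g ∈ (P n).powerset.filter (fun g => ¬ np N g ≤ n),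
          ‖(∏ i ∈ g, χ i) * (((np N g : ℝ) ^ (-σ) : ℝ) : ℂ)‖ ≤ (np N g : ℝ) ^ (-σ) := by
        intro g _
        rw [norm_mul, Complex.norm_real, Real.norm_of_nonneg (by positivity), norm_prod]
        exact mul_le_of_le_one_left (by positivity)
          (Finset.prod_le_one (fun i _ => norm_nonneg _) fun i _ => hχ i)
      refine (Finset.sum_le_sum h1).trans ?_
      have h2 : (P n).powerset.filter (fun g => ¬ np N g ≤ n) =
          (P n).powerset.filter (fun g => n < np N g) :=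
        Finset.filter_congr fun g _ => not_le
      rw [h2]
      exact htail n hnn0 (P n)
  have hlog := core_log (T := P n) (z := z)
    (fun i _ => (hzn i).trans ((hz1 i).trans (hz2 i))) hprod
  have hsq : ∑ i ∈ P n, ‖z i‖ ^ 2 ≤ ∑' i, (N i : ℝ) ^ (-2 : ℝ) := by
    refine le_trans (Finset.sum_le_sum fun i _ => ?_) (hS2.sum_le_tsum (P n) fun i _ => by positivity)
    have h1 := (hzn i).trans (hz1 i)
    have h2 : (0 : ℝ) < N i := by linarith [hn0 i]
    calc ‖z i‖ ^ 2 ≤ ((N i : ℝ) ^ (-1 : ℝ)) ^ 2 := pow_le_pow_left₀ (norm_nonneg _) h1 2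
      _ = (N i : ℝ) ^ (-2 : ℝ) := by
        rw [← Real.rpow_natCast, ← Real.rpow_mul h2.le]
        norm_num
  have hsub : P Y ⊆ P n := by
    intro i hi
    obtain ⟨h1, h2⟩ := (hP _ _).1 hi
    exact (hP _ _).2 ⟨h1, h2.trans hnY⟩
  have hre : ∀ i, |(z i).re| ≤ (N i : ℝ) ^ (-σ) := fun i => (Complex.abs_re_le_norm _).trans (hzn i)
  have hfar : -∑ i ∈ P n \ P Y, (z i).re ≤ 6 * Cm := by
    rw [← Finset.sum_neg_distrib]
    refine le_trans (Finset.sum_le_sum fun i _ => ?_) (core_far N hN hY hCm (P n \ P Y) ?_ ?_)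
    · rw [← hσ]
      exact (neg_le_abs _).trans (hre i)
    · intro i hi
      rw [Finset.mem_sdiff] at hi
      by_contra hcon
      exact hi.2 ((hP _ _).2 ⟨((hP _ _).1 hi.1).1, not_lt.1 hcon⟩)
    · intro k
      refine le_trans (Finset.sum_le_sum_of_subset_of_nonneg ?_ fun i _ _ =>
        div_nonneg (Real.log_natCast_nonneg _) (Nat.cast_nonneg _))
        (hm (Y ^ (k + 1)) (one_le_pow₀ (by linarith)))
      intro i hi
      rw [Finset.mem_filter, Finset.mem_sdiff] at hi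
      exact (hP _ _).2 ⟨((hP _ _).1 hi.1.1).1, hi.2⟩
  have hnear : ∑ i ∈ P Y, ((χ i).re / N i - (z i).re) ≤ 2 * Cm := by
    have h1 : ∀ i ∈ P Y, (χ i).re / N i - (z i).re ≤ (1 / Real.log Y) * (Real.log (N i) / N i) := by
      intro i _
      have h2 : (0 : ℝ) < N i := by linarith [hn0 i]
      have e1 : (z i).re = (χ i).re * (N i : ℝ) ^ (-σ) := by
        rw [hz]
        simp only
        rw [Complex.re_mul_ofReal]
      have e2 : (N i : ℝ) ^ (-σ) = (1 / N i) * Real.exp (-(Real.log (N i) / Real.log Y)) := by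
        rw [hσ, show -(1 + 1 / Real.log Y) = (-1 : ℝ) + -(1 / Real.log Y) by ring,
          Real.rpow_add h2, Real.rpow_neg_one, Real.rpow_def_of_pos h2, one_div]
        congr 2 <;> ring
      have h3 := Real.add_one_le_exp (-(Real.log (N i) / Real.log Y))
      have h4 : Real.exp (-(Real.log (N i) / Real.log Y)) ≤ 1 := by
        rw [Real.exp_le_one_iff, neg_nonpos]
        exact div_nonneg (Real.log_natCast_nonneg _) hl0.le
      have h5 : (χ i).re ≤ 1 := (Complex.re_le_norm _).trans (hχ i)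
      have e3 : (χ i).re / N i - (z i).re = (1 / N i) *
          ((χ i).re * (1 - Real.exp (-(Real.log (N i) / Real.log Y)))) := by
        rw [e1, e2]
        ring
      rw [e3]
      have h6 : (χ i).re * (1 - Real.exp (-(Real.log (N i) / Real.log Y))) ≤
          Real.log (N i) / Real.log Y := by
        have h7 : (χ i).re * (1 - Real.exp (-(Real.log (N i) / Real.log Y))) ≤
            1 * (1 - Real.exp (-(Real.log (N i) / Real.log Y))) :=
          mul_le_mul_of_nonneg_right h5 (by linarith)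
        linarith
      calc (1 / (N i : ℝ)) * ((χ i).re * (1 - Real.exp (-(Real.log (N i) / Real.log Y)))) ≤
            (1 / (N i : ℝ)) * (Real.log (N i) / Real.log Y) :=
            mul_le_mul_of_nonneg_left h6 (by positivity)
        _ = _ := by ring
    refine (Finset.sum_le_sum h1).trans ?_
    rw [← Finset.mul_sum]
    have h2 := hm Y (by linarith)
    calc (1 / Real.log Y) * ∑ i ∈ P Y, Real.log (N i) / N i ≤
          (1 / Real.log Y) * (Cm * (1 + Real.log Y)) := mul_le_mul_of_nonneg_left h2 (by positivity)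
      _ ≤ (1 / Real.log Y) * (Cm * (2 * Real.log Y)) := by
        refine mul_le_mul_of_nonneg_left (mul_le_mul_of_nonneg_left (by linarith) hCm) (by positivity)
      _ = 2 * Cm := by field_simp
  rw [Finset.sum_sub_distrib] at hnear
  have hsplit := Finset.sum_sdiff hsub (f := fun i => (z i).re)
  linarith

end core

variable {X : CD} {K : Type} [Field K] [NumberField K]

private theorem mrt_over {E : Type} [Field E] [NumberField E] {w v : Pl E} (h : Over w v) : w = v := by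
  apply HeightOneSpectrum.ext
  ext x
  have h1 : v.asIdeal = w.asIdeal.comap (algebraMap (𝓞 E) (𝓞 E)) := h.symm
  rw [h1, Ideal.mem_comap]
  have h2 : algebraMap (𝓞 E) (𝓞 E) x = x := RingOfIntegers.ext rfl
  rw [h2]

private theorem mrt_blw {E : Type} [Field E] [NumberField E] (w : Pl E) : blw E w = w :=
  (mrt_over (blw_over E w)).symm

private theorem mrt_np {E : Type} [Field E] [NumberField E] (g : Finset (Pl E)) :
    ((np (fun w : Pl E => nm w) g : ℕ) : ℝ) = nr g := by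
  unfold np nr
  push_cast
  rfl

/-- the good places of norm at most `x` -/
private def mP (F : Fr0 X K) (i : Fin X.N) (x : ℝ) : Finset (Pl (F.L i)) :=
  (H57.AN.PB (F.L i) x).filter fun w => F.Gd ⟨i, w⟩

private theorem mem_mP (F : Fr0 X K) (i : Fin X.N) (x : ℝ) (w : Pl (F.L i)) :
    w ∈ mP F i x ↔ F.Gd ⟨i, w⟩ ∧ (nm w : ℝ) ≤ x := by
  unfold mP
  rw [Finset.mem_filter, H57.AN.mem_PB, and_comm]

private theorem mrt_ms (F : Fr0 X K) (u : F.Lb → ℝ) (i : Fin X.N) (Y : ℝ) :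
    Ms F u i Y = ∑ w ∈ mP F i Y, u ⟨i, w⟩ / (nm w : ℝ) := by
  unfold Ms
  have h : (F.lbfin Y).toFinset.filter (fun a => a.1 = i ∧ F.Gd a) =
      (mP F i Y).map (Function.Embedding.sigmaMk i) := by
    ext a
    rw [Finset.mem_filter, Set.Finite.mem_toFinset, Finset.mem_map]
    constructor
    · rintro ⟨h1, h2, h3⟩
      obtain ⟨j, v⟩ := a
      have h4 : j = i := h2
      subst h4
      exact ⟨v, (mem_mP F _ Y v).2 ⟨h3, h1⟩, rfl⟩
    · rintro ⟨v, hv, rfl⟩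
      obtain ⟨h1, h2⟩ := (mem_mP F i Y v).1 hv
      exact ⟨h2, rfl, h1⟩
  rw [h, Finset.sum_map]
  rfl

private theorem mrt_one (F : Fr X K) (c : F.C) (i : Fin X.N) (κ : F.R → ZMod X.p)
    (hκ : F.NT i fun a => κ ⬝ᵥ F.qv a) : ∃ C : ℝ, ∀ Y : ℝ, 3 ≤ Y →
      ∑ w ∈ mP F.toFr0 i Y, (ep X.p (κ ⬝ᵥ F.qv ⟨i, w⟩)).re / (nm w : ℝ) ≤ C := by
  obtain ⟨𝔣, χ, h𝔣, -, hχ⟩ := F.chr i κ c 0 ∅ (fun _ => 0) (X.van_zero i i)
    (fun b hb => absurd hb (Finset.notMem_empty b))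
  have hval : ∀ a : Pl (F.L i), F.Gd ⟨i, a⟩ → χ.χ a.asIdeal = ep X.p (κ ⬝ᵥ F.qv ⟨i, a⟩) := by
    intro a ha
    rw [hχ a ha (by simp [Fr0.und])]
    congr 1
    simp [Fr0.ch]
  have hNon : χ.Non := by
    obtain ⟨a, ha1, -, ha3⟩ := hκ ∅
    have h1 := hval a ha1
    refine ⟨a.asIdeal, a.ne_bot, ?_, ?_⟩
    · by_contra hcon
      rw [χ.zero_of _ hcon] at h1
      have h2 := ep_norm X.p (κ ⬝ᵥ F.qv ⟨i, a⟩)
      rw [← h1, norm_zero] at h2
      exact zero_ne_one h2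
    · rw [h1]
      exact fun h => ha3 ((ep_eq_one X.hp _).1 h)
  obtain ⟨B, hB⟩ : ∃ B : Finset (Pl (F.L i)), B =
      F.bad.biUnion fun v => (over_finite (L := F.L i) v).toFinset := ⟨_, rfl⟩
  have hmB : ∀ w : Pl (F.L i), w ∈ B ↔ F.un ⟨i, w⟩ ∈ F.bad := by
    intro w
    rw [hB, Finset.mem_biUnion]
    constructor
    · rintro ⟨v, hv, hw⟩
      rw [Set.Finite.mem_toFinset] at hw
      have h1 : Over w v := hw
      rwa [below_unique (F.un_over ⟨i, w⟩) h1]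
    · intro h
      refine ⟨_, h, ?_⟩
      rw [Set.Finite.mem_toFinset]
      exact F.un_over ⟨i, w⟩
  obtain ⟨C, A, δ, hC, hδ, hδ4, hAN⟩ := H57.AN.i1 (F.L i) 1
  obtain ⟨Cm, hCm, hmer⟩ := H57.AN.mer (Module.finrank ℚ (F.L i))
  have hfr : Module.finrank (F.L i) (F.L i) ≤ 1 := by
    rw [Module.finrank_self]
  have hbase : 0 ≤ C * C ^ B.card * (dd (F.L i) * (Ideal.absNorm 𝔣 : ℝ)) ^ A := by
    have h1 : 0 ≤ dd (F.L i) * (Ideal.absNorm 𝔣 : ℝ) := mul_nonneg (dd_pos _).le (Nat.cast_nonneg _)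
    positivity
  have hN : ∀ w : Pl (F.L i), 2 ≤ nm w := fun w => one_lt_nm w
  obtain ⟨C', hC'⟩ := core_main (fun w : Pl (F.L i) => nm w) hN
    (P := mP F.toFr0 i) (G := fun w => F.Gd ⟨i, w⟩) (fun x w => mem_mP F.toFr0 i x w)
    (fun w => χ.χ w.asIdeal) (fun w => H57.LI.norm_rc χ _)
    (fun s hs => pz_summable (F.L i) hs) hbase hδ (by linarith) (by
      intro m hm
      have h1 := hAN (F.L i) (F.tc i) hfr 𝔣 h𝔣 χ hNon B (m : ℝ) (by exact_mod_cast hm)
      have h2 : FE (F.L i) (F.L i) B (m : ℝ) = (mP F.toFr0 i (m : ℝ)).powerset.filter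
          (fun g => np (fun w : Pl (F.L i) => nm w) g ≤ m) := by
        ext g
        unfold FE
        rw [Finset.mem_filter, mem_AF, Finset.mem_filter, Finset.mem_powerset, ← mrt_np, Nat.cast_le]
        constructor
        · rintro ⟨h3, h4, -⟩
          refine ⟨fun w hw => ?_, h3⟩
          rw [mem_mP]
          obtain ⟨h5, h6⟩ := h4 w hw
          rw [mrt_blw, hmB] at h5
          refine ⟨⟨h5, h6⟩, ?_⟩
          exact_mod_cast (np_mem (fun w : Pl (F.L i) => nm w) hN hw).trans h3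
        · rintro ⟨h3, h4⟩
          refine ⟨h4, fun w hw => ?_, fun w _ w' _ h => by rwa [mrt_blw, mrt_blw]⟩
          obtain ⟨h5, -⟩ := (mem_mP _ _ _ _).1 (h3 hw)
          rw [mrt_blw, hmB]
          exact h5
      rw [h2] at h1
      exact h1) (Cm := Cm) (by linarith) (by
      intro Y hY
      refine le_trans ?_ (hmer (F.L i) rfl Y hY)
      refine Finset.sum_le_sum_of_subset_of_nonneg (Finset.filter_subset _ _) fun w _ _ =>
        div_nonneg (Real.log_natCast_nonneg _) (Nat.cast_nonneg _))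
  refine ⟨C', fun Y hY => ?_⟩
  refine le_trans (le_of_eq ?_) (hC' Y hY)
  refine Finset.sum_congr rfl fun w hw => ?_
  rw [hval w ((mem_mP _ _ _ _).1 hw).1]

theorem mrt (F : Fr X K) (c : F.C) (i : Fin X.N) (κ : F.R → ZMod X.p)
    (hκ : F.NT i fun a => κ ⬝ᵥ F.qv a) : ∃ C : ℝ, ∀ Y : ℝ, 3 ≤ Y →
      Ms F.toFr0 (fun a => if κ ⬝ᵥ F.qv a = 0 then 1 else 0) i Y ≤
        (1 - (1 / 2 : ℝ)) * Real.log (Real.log Y) + C := by
  have hpz : NeZero X.p := ⟨X.hp.ne_zero⟩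
  have hpr : Fact X.p.Prime := ⟨X.hp⟩
  have hdot : ∀ (k : ZMod X.p) (a : F.Lb), (k • κ) ⬝ᵥ F.qv a = k * (κ ⬝ᵥ F.qv a) := by
    intro k a
    rw [smul_dotProduct, smul_eq_mul]
  have hk : ∀ k : ZMod X.p, ∃ C : ℝ, 0 ≤ C ∧ (k ≠ 0 → ∀ Y : ℝ, 3 ≤ Y →
      ∑ w ∈ mP F.toFr0 i Y, (ep X.p (k * (κ ⬝ᵥ F.qv ⟨i, w⟩))).re / (nm w : ℝ) ≤ C) := by
    intro k
    by_cases hk0 : k = 0
    · exact ⟨0, le_rfl, fun h => absurd hk0 h⟩
    · obtain ⟨C, hC⟩ := mrt_one F c i (k • κ) (by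
        intro B
        obtain ⟨a, h1, h2, h3⟩ := hκ B
        refine ⟨a, h1, h2, ?_⟩
        simp only
        rw [hdot]
        exact mul_ne_zero hk0 h3)
      refine ⟨max C 0, le_max_right _ _, fun _ Y hY => ?_⟩
      have h1 := hC Y hY
      simp only [hdot] at h1
      exact h1.trans (le_max_left _ _)
  choose Ck hCk0 hCk using hk
  obtain ⟨C0, hC0, hmss⟩ := mss F
  refine ⟨C0 + ∑ k, Ck k, fun Y hY => ?_⟩
  have hp2 : (2 : ℝ) ≤ X.p := by exact_mod_cast X.hp.two_le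
  have hp0 : (0 : ℝ) < X.p := by linarith
  have hll : 0 ≤ Real.log (Real.log Y) := by
    refine Real.log_nonneg ?_
    rw [Real.le_log_iff_exp_le (by linarith)]
    exact (Real.exp_one_lt_d9.le.trans (by norm_num)).trans hY
  have hsumC : 0 ≤ ∑ k, Ck k := Finset.sum_nonneg fun k _ => hCk0 k
  rw [mrt_ms]
  have h1 : ∀ w ∈ mP F.toFr0 i Y, (if κ ⬝ᵥ F.qv ⟨i, w⟩ = 0 then (1 : ℝ) else 0) / (nm w : ℝ) =
      (1 / X.p) * ∑ k : ZMod X.p, (ep X.p (k * (κ ⬝ᵥ F.qv ⟨i, w⟩))).re / (nm w : ℝ) := by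
    intro w _
    have h2 := congrArg Complex.re (ep_sum X.hp (κ ⬝ᵥ F.qv ⟨i, w⟩))
    rw [Complex.re_sum] at h2
    rw [← Finset.sum_div, h2]
    split_ifs with h3
    · rw [Complex.natCast_re]
      field_simp
    · simp
  rw [Finset.sum_congr rfl h1, ← Finset.mul_sum, Finset.sum_comm,
    ← Finset.add_sum_erase _ _ (Finset.mem_univ (0 : ZMod X.p))]
  have h0 : ∑ w ∈ mP F.toFr0 i Y, (ep X.p (0 * (κ ⬝ᵥ F.qv ⟨i, w⟩))).re / (nm w : ℝ) ≤
      Real.log (Real.log Y) + C0 := by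
    have h2 := hmss (fun _ => 1) i (fun _ => ⟨zero_le_one, le_rfl⟩) Y hY
    rw [mrt_ms] at h2
    refine le_trans (le_of_eq ?_) h2
    refine Finset.sum_congr rfl fun w _ => ?_
    rw [zero_mul, ep_zero, Complex.one_re]
  have h2 : ∑ k ∈ Finset.univ.erase (0 : ZMod X.p),
      ∑ w ∈ mP F.toFr0 i Y, (ep X.p (k * (κ ⬝ᵥ F.qv ⟨i, w⟩))).re / (nm w : ℝ) ≤ ∑ k, Ck k := by
    refine (Finset.sum_le_sum fun k hk' => hCk k (Finset.ne_of_mem_erase hk') Y hY).trans ?_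
    exact Finset.sum_le_sum_of_subset_of_nonneg (Finset.erase_subset _ _) fun k _ _ => hCk0 k
  have h3 : (1 : ℝ) / X.p ≤ 1 / 2 := one_div_le_one_div_of_le (by norm_num) hp2
  have h4 : (0 : ℝ) ≤ 1 / X.p := by positivity
  have h5 : 0 ≤ Real.log (Real.log Y) + C0 + ∑ k, Ck k := by linarith
  calc (1 / (X.p : ℝ)) * _ ≤ (1 / (X.p : ℝ)) * (Real.log (Real.log Y) + C0 + ∑ k, Ck k) :=
        mul_le_mul_of_nonneg_left (add_le_add h0 h2) h4
    _ ≤ (1 / 2) * (Real.log (Real.log Y) + C0 + ∑ k, Ck k) := mul_le_mul_of_nonneg_right h3 h5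
    _ ≤ (1 - (1 / 2 : ℝ)) * Real.log (Real.log Y) + (C0 + ∑ k, Ck k) := by linarith

end H51.MS
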