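import Pool.Agent.H51.MS.Defs

/-!
# [H51 MS ORX] There is an order (20-40 lines)

`lt a b`: `st a < st b` in a linear order of the finite set `St` (e.g. by `Fintype.equivFin`), or `st a = st b` and `WellOrderingRel a b` on `F.Lb`.
-/

set_option autoImplicit false

open scoped NumberField
open IsDedekindDomain NumberField H63.MA H36.QA Filter Topology
open scoped Classical

noncomputable section

namespace H51.MS

open H51.MM

variable {X : CD} {K : Type} [Field K] [NumberField K]

theorem orx (F : Fr X K) (B : Bl F) : Nonempty (Or B) := by
  obtain ⟨e⟩ : Nonempty (B.St ≃ Fin (Fintype.card B.St)) := ⟨Fintype.equivFin B.St⟩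
  refine ⟨⟨fun a b => e (B.st a) < e (B.st b) ∨ (B.st a = B.st b ∧ WellOrderingRel a b),
    fun a b hab => ?_, fun a b a' b' h1 h2 h3 => ?_⟩⟩
  · have hne : a ≠ b := by
      rintro rfl
      exact hab rfl
    have htri : WellOrderingRel a b ∨ a = b ∨ WellOrderingRel b a := trichotomous_of _ a b
    have hasy : ∀ x y : F.Lb, WellOrderingRel x y → ¬ WellOrderingRel y x := fun x y h h' => asymm_of _ h h'
    by_cases hs : B.st a = B.st b
    · rw [hs]
      simp only [lt_self_iff_false, true_and, false_or]
      rcases htri with h | h | h
      · exact ⟨fun _ => hasy _ _ h, fun _ => h⟩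
      · exact absurd h hne
      · exact ⟨fun h' => absurd h (hasy _ _ h'), fun h' => absurd h h'⟩
    · have hs' : ¬ B.st b = B.st a := fun h => hs h.symm
      simp only [hs, hs', false_and, or_false]
      have hne2 : e (B.st a) ≠ e (B.st b) := fun h => hs (e.injective h)
      constructor
      · intro h h'
        exact absurd h (lt_asymm h')
      · intro h
        exact lt_of_le_of_ne (not_lt.1 h) hne2
  · have h3' : B.st a' ≠ B.st b' := by rwa [← h1, ← h2]
    simp only [h3, h3', false_and, or_false]
    rw [h1, h2]

end H51.MS
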