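import Pool.Agent.H51.MS.Par
import Pool.Agent.H51.MS.Blz
import Pool.Agent.H51.MS.Orx
import Pool.Agent.H51.MS.Sma
import Pool.Agent.H51.MS.Mrt

/-!
# [H51 MS THN] A character condition on one class makes the sum negligible (80-120 lines)

`w a = if a.1 = i ∧ κ ⬝ᵥ qv a ≠ 0 then 0 else 1`. For `c` fixed: `‖∑ g, if Sp then Θ c g * wt c g‖ ≤ ∑_{g : Sp, ¬ Bg} ‖wt‖ + ∑_{g : Bg} (∏ w a) ‖wt c g‖` (if `Θ c g ≠ 0` then `∏ w a = 1`). First sum: `sma`. Second sum: it is `PS` for `blz F c`, the order of `orx`, `m = 1`, `s = 0`, `H = 1`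
(`pph = 0`, `wt` real `≥ 0`): `par` (ii) with `mrt` (`ms_mono`), `δ = 1/2`. Sum over `c ∈ F.C`. If `F.C` is empty everything is `0`.
-/

set_option autoImplicit false

open scoped NumberField
open IsDedekindDomain NumberField H63.MA H36.QA Filter Topology
open scoped Classical

noncomputable section

namespace H51.MS

open H51.MM

variable {X : CD} {K : Type} [Field K] [NumberField K]

private theorem thn_one (F : Fr X K) (hN : 0 < X.N) (hX : X.Cl Finset.univ) (i : Fin X.N)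
    (κ : F.R → ZMod X.p) (hκ : F.NT i fun a => κ ⬝ᵥ F.qv a) (c : F.C) (Θ : Finset F.Lb → ℂ)
    (hΘ : ∀ g, ‖Θ g‖ ≤ 1)
    (h : ∀ g, F.Ok g → F.wt c g ≠ 0 → (∃ a ∈ g, a.1 = i ∧ κ ⬝ᵥ F.qv a ≠ 0) → Θ g = 0) :
    ∃ T : ℝ → ℝ, Tendsto (fun Y : ℝ => T Y / (Y * Real.log Y ^ (X.N - 1))) atTop (𝓝 0) ∧
      ∀ Y, ‖∑ g ∈ F.Fam Finset.univ Y, if F.Sp c (F.cls g) then Θ g * F.wt c g else 0‖ ≤ T Y := by
  obtain ⟨C, hC⟩ := mrt F c i κ hκ
  obtain ⟨w, hwdef⟩ : ∃ w : F.Lb → ℝ, ∀ a, w a = if a.1 = i ∧ κ ⬝ᵥ F.qv a ≠ 0 then 0 else 1 :=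
    ⟨_, fun _ => rfl⟩
  have hw : ∀ a, 0 ≤ w a ∧ w a ≤ 1 := by
    intro a
    rw [hwdef]
    split_ifs <;> norm_num
  obtain ⟨B, hB, -⟩ := blz F c
  obtain ⟨O⟩ := orx F B
  obtain ⟨A, hA⟩ := par F B hN hX 1 w hw (Or.inr ⟨i, 1 / 2, C, by norm_num, fun Y hY =>
    (ms_mono F.toFr0 w _ i Y (fun a hai _ => by
      rw [hwdef]
      by_cases hk : κ ⬝ᵥ F.qv a = 0
      · rw [if_neg (fun h1 => h1.2 hk), if_pos hk]
      · rw [if_pos ⟨hai, hk⟩, if_neg hk])).trans (hC Y hY)⟩)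
  have h1 := hA A le_rfl O c (fun _ => 0) (fun _ _ => 1) (fun _ _ => by rw [norm_one])
  have h2 := sma F hN hX A c
  choose r hr1 hr2 hr3 using wt_re F c
  have hPS : ∀ Y : ℝ, PS B O 1 c w (fun _ => 0) (fun _ _ => 1) (Real.log Y ^ A) Y =
      ((∑ g ∈ F.Fam Finset.univ Y, if Bg F.toFr0 (Real.log Y ^ A) g then
        (∏ a ∈ g, w a) * r g else 0 : ℝ) : ℂ) := by
    intro Y
    unfold PS
    rw [Complex.ofReal_sum]
    refine Finset.sum_congr rfl fun g _ => ?_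
    have h3 : pph B O g = 0 := by
      unfold pph
      refine Finset.sum_eq_zero fun a _ => Finset.sum_eq_zero fun b _ => ?_
      rw [hB, ite_self]
    rw [h3, Finset.sum_const_zero, add_zero, ep_zero, mul_one, mul_one, hr1]
    split_ifs
    · rw [Complex.ofReal_mul]
    · rw [Complex.ofReal_zero]
  have hPSn : ∀ Y : ℝ, ‖PS B O 1 c w (fun _ => 0) (fun _ _ => 1) (Real.log Y ^ A) Y‖ =
      ∑ g ∈ F.Fam Finset.univ Y, if Bg F.toFr0 (Real.log Y ^ A) g then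
        (∏ a ∈ g, w a) * r g else 0 := by
    intro Y
    rw [hPS, Complex.norm_real, Real.norm_of_nonneg]
    refine Finset.sum_nonneg fun g _ => ?_
    split_ifs
    · exact mul_nonneg (Finset.prod_nonneg fun a _ => (hw a).1) (hr2 g)
    · exact le_rfl
  refine ⟨fun Y => (∑ g ∈ F.Fam Finset.univ Y,
      if F.Sp c (F.cls g) ∧ ¬ Bg F.toFr0 (Real.log Y ^ A) g then ‖F.wt c g‖ else 0) +
      ‖PS B O 1 c w (fun _ => 0) (fun _ _ => 1) (Real.log Y ^ A) Y‖, ?_, fun Y => ?_⟩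
  · have h4 : Tendsto (fun Y : ℝ => ‖PS B O 1 c w (fun _ => 0) (fun _ _ => 1) (Real.log Y ^ A) Y‖ /
        (Y * Real.log Y ^ (X.N - 1))) atTop (𝓝 0) := by
      have h5 := h1.norm
      rw [norm_zero] at h5
      refine h5.congr' ?_
      filter_upwards [eventually_gt_atTop (1 : ℝ)] with Y hY
      have h6 : 0 ≤ Y * Real.log Y ^ (X.N - 1) :=
        mul_nonneg (by linarith) (pow_nonneg (Real.log_nonneg hY.le) _)
      rw [norm_div, Complex.norm_real, Real.norm_of_nonneg h6]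
    have h7 := h2.add h4
    rw [add_zero] at h7
    refine h7.congr fun Y => ?_
    rw [add_div]
  · show _ ≤ _ + _
    rw [hPSn, ← Finset.sum_add_distrib]
    refine (norm_sum_le _ _).trans (Finset.sum_le_sum fun g hg => ?_)
    have hok : F.Ok g := ((F.mem_Fam _ _ g).1 hg).1
    have hnn : 0 ≤ (∏ a ∈ g, w a) * r g :=
      mul_nonneg (Finset.prod_nonneg fun a _ => (hw a).1) (hr2 g)
    have hle : ‖Θ g * F.wt c g‖ ≤ ‖F.wt c g‖ := by
      rw [norm_mul]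
      exact mul_le_of_le_one_left (norm_nonneg _) (hΘ g)
    have hwn : ‖F.wt c g‖ = r g := by
      rw [hr1, Complex.norm_real, Real.norm_of_nonneg (hr2 g)]
    by_cases hSp : F.Sp c (F.cls g)
    · rw [if_pos hSp]
      by_cases hBg : Bg F.toFr0 (Real.log Y ^ A) g
      · rw [if_neg (fun h8 => h8.2 hBg), if_pos hBg, zero_add]
        by_cases hw0 : F.wt c g = 0
        · rw [hw0, mul_zero, norm_zero]
          exact hnn
        · by_cases hex : ∃ a ∈ g, a.1 = i ∧ κ ⬝ᵥ F.qv a ≠ 0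
          · rw [h g hok hw0 hex, zero_mul, norm_zero]
            exact hnn
          · have h9 : ∏ a ∈ g, w a = 1 := by
              refine Finset.prod_eq_one fun a ha => ?_
              rw [hwdef, if_neg]
              exact fun h10 => hex ⟨a, ha, h10⟩
            rw [h9, one_mul, ← hwn]
            exact hle
      · rw [if_pos ⟨hSp, hBg⟩, if_neg hBg, add_zero]
        exact hle
    · rw [if_neg hSp, norm_zero]
      refine add_nonneg ?_ ?_
      · split_ifs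
        · exact norm_nonneg _
        · exact le_rfl
      · split_ifs
        · exact hnn
        · exact le_rfl

theorem thn (F : Fr X K) (hN : 0 < X.N) (hX : X.Cl Finset.univ) (i : Fin X.N) (κ : F.R → ZMod X.p)
    (hκ : F.NT i fun a => κ ⬝ᵥ F.qv a) (Θ : F.C → Finset F.Lb → ℂ) (hΘ : ∀ c g, ‖Θ c g‖ ≤ 1)
    (h : ∀ c g, F.Ok g → F.wt c g ≠ 0 → (∃ a ∈ g, a.1 = i ∧ κ ⬝ᵥ F.qv a ≠ 0) → Θ c g = 0) :
    Tendsto (fun Y : ℝ => F.FS Finset.univ Θ Y / ((Y * Real.log Y ^ (X.N - 1) : ℝ) : ℂ))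
      atTop (𝓝 0) := by
  choose T hT1 hT2 using fun c => thn_one F hN hX i κ hκ c (Θ c) (hΘ c) (h c)
  have h1 : Tendsto (fun Y : ℝ => ∑ c : F.C, T c Y / (Y * Real.log Y ^ (X.N - 1))) atTop (𝓝 0) := by
    have h2 := tendsto_finset_sum (Finset.univ : Finset F.C) (fun c _ => hT1 c)
    rwa [Finset.sum_const_zero] at h2
  refine squeeze_zero_norm' ?_ h1
  filter_upwards [eventually_gt_atTop (1 : ℝ)] with Y hY
  have h6 : 0 ≤ Y * Real.log Y ^ (X.N - 1) :=
    mul_nonneg (by linarith) (pow_nonneg (Real.log_nonneg hY.le) _)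
  rw [norm_div, Complex.norm_real, Real.norm_of_nonneg h6, ← Finset.sum_div]
  refine div_le_div_of_nonneg_right ?_ h6
  unfold Fr0.FS
  rw [Finset.sum_comm]
  exact (norm_sum_le _ _).trans (Finset.sum_le_sum fun c _ => hT2 c Y)

end H51.MS
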