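import Pool.Agent.H51.MS.Defs

/-!
# [H51 MS BIL] The bilinear estimate for the phases `θ ⬝ᵥ s a b + P b a` (120-180 lines)

Model: `lnka` (Pool/Agent/H51/MM/LnkA.lean; copy its private lemmas `em`, ...). `H57.AN.i2 K d : AN2 K d` with `d = max F.d B.d'`, constants `D = max F.D B.D'`.
* Without `t`, `G` and `c`: `AN2` with `E = F.L i`, `E' = F.L j`, `B = F.bad`, `T = B.St → ZMod X.p`, `t g = prf B X.p (em g)`, `φ' h w = ep (∑ b ∈ h, (θ ⬝ᵥ s ⟨i, w⟩ b + P b ⟨i, w⟩))`,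
  `φ g w' = ep (∑ a ∈ g, (-θ ⬝ᵥ s ⟨j, w'⟩ a + P a ⟨j, w'⟩))`, `Ξ x y = ep (∑ σ, ∑ σ', x σ * y σ' * (θ ⬝ᵥ Xs σ σ' + Xp σ σ'))`: from `sym_s`, `sym_P`, for `a ∈ g`, `b ∈ h`:
  `θ ⬝ᵥ s a b + P b a = (-θ ⬝ᵥ s b a + P a b) + (θ ⬝ᵥ Xs (st a) (st b) + Xp (st a) (st b))`, summed over `g × h` and sorted by the states. `chr i j θ`, `chr j i (-θ)`, `sep i j θ`, `sep j i (-θ)` (`lk_symm`)
  (values of `ep` are different if the arguments are: `ep` is injective on `ZMod p`, see the lemma used in LnkA).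
* `t`, `G`: sum over the values `(x, y) ∈ T × T` of `(t g, t h)`; indicators in `α`, `β` (at most `card T ^ 2` terms).
* `c`: the sum with `c < nrl g * nrl h` is the difference of the sums with the cutoffs `Y` and `min Y c` (the second one is empty if `c < 1`; the families in it have norm `≤ min Y c`, so
  `Fam {i} Y` may be replaced by `Fam {i} (min Y c)`); `Y' z^(-δ) (1 + log Y')^A` is monotone in `Y' ≥ 1`.
-/

set_option autoImplicit false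

open scoped NumberField
open IsDedekindDomain NumberField H63.MA H36.QA Filter Topology
open scoped Classical

noncomputable section

namespace H51.MS

open H51.MM

variable {X : CD} {K : Type} [Field K] [NumberField K]

private theorem bun_blw (F : Fr X K) (i : Fin X.N) (w : Pl (F.L i)) : F.un ⟨i, w⟩ = blw K w :=
  below_unique (F.un_over ⟨i, w⟩) (blw_over K w)

/-- a family of places as a family of labels -/
private def em (F : Fr0 X K) (i : Fin X.N) (g : Finset (Pl (F.L i))) : Finset F.Lb :=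
  g.map (Function.Embedding.sigmaMk i)

private theorem mem_em (F : Fr0 X K) (i : Fin X.N) (g : Finset (Pl (F.L i))) (a : F.Lb) :
    a ∈ em F i g ↔ ∃ w ∈ g, (⟨i, w⟩ : F.Lb) = a := by
  unfold em
  rw [Finset.mem_map]
  rfl

private theorem em_inj (F : Fr0 X K) (i : Fin X.N) : Function.Injective (em F i) :=
  Finset.map_injective _

private theorem em_sum {M : Type} [AddCommMonoid M] (F : Fr0 X K) (i : Fin X.N) (g : Finset (Pl (F.L i)))
    (f : F.Lb → M) : ∑ a ∈ em F i g, f a = ∑ w ∈ g, f ⟨i, w⟩ := by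
  unfold em
  rw [Finset.sum_map]
  rfl

private theorem em_nrl (F : Fr0 X K) (i : Fin X.N) (g : Finset (Pl (F.L i))) : F.nrl (em F i g) = nr g := by
  unfold Fr0.nrl em nr
  rw [Finset.prod_map]
  rfl

private theorem em_und (F : Fr X K) (i : Fin X.N) (g : Finset (Pl (F.L i))) :
    F.und (em F.toFr0 i g) = ud K g := by
  ext v
  rw [Fr0.und, ud, Finset.mem_image, Finset.mem_image]
  constructor
  · rintro ⟨a, ha, rfl⟩
    rw [mem_em] at ha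
    obtain ⟨w, hw, rfl⟩ := ha
    exact ⟨w, hw, (bun_blw F i w).symm⟩
  · rintro ⟨w, hw, rfl⟩
    exact ⟨⟨i, w⟩, (mem_em F.toFr0 i g _).2 ⟨w, hw, rfl⟩, bun_blw F i w⟩

private theorem em_ok (F : Fr X K) (i : Fin X.N) (g : Finset (Pl (F.L i))) :
    F.Ok (em F.toFr0 i g) ↔ Fme K F.bad g := by
  constructor
  · rintro ⟨h1, h2⟩
    refine ⟨fun w hw => ?_, fun w hw w' hw' hne => ?_⟩
    · have h3 := h1 ⟨i, w⟩ ((mem_em F.toFr0 i g _).2 ⟨w, hw, rfl⟩)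
      rw [Fr0.Gd, bun_blw F i w] at h3
      exact h3
    · have h3 := h2 ⟨i, w⟩ ((mem_em F.toFr0 i g _).2 ⟨w, hw, rfl⟩) ⟨i, w'⟩
        ((mem_em F.toFr0 i g _).2 ⟨w', hw', rfl⟩) (fun h => hne (eq_of_heq (Sigma.mk.inj h).2))
      rwa [bun_blw F i w, bun_blw F i w'] at h3
  · rintro ⟨h1, h2⟩
    refine ⟨fun a ha => ?_, fun a ha b hb hne => ?_⟩
    · rw [mem_em] at ha
      obtain ⟨w, hw, rfl⟩ := ha
      rw [Fr0.Gd, bun_blw F i w]
      exact h1 w hw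
    · rw [mem_em] at ha hb
      obtain ⟨w, hw, rfl⟩ := ha
      obtain ⟨w', hw', rfl⟩ := hb
      rw [bun_blw F i w, bun_blw F i w']
      exact h2 w hw w' hw' (fun h => hne (by rw [h]))

private theorem em_cls (F : Fr0 X K) (i : Fin X.N) (g : Finset (Pl (F.L i))) : F.cls (em F i g) ⊆ {i} := by
  intro k hk
  rw [Fr0.cls, Finset.mem_image] at hk
  obtain ⟨a, ha, rfl⟩ := hk
  rw [mem_em] at ha
  obtain ⟨w, hw, rfl⟩ := ha
  exact Finset.mem_singleton_self _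

private theorem em_fam (F : Fr X K) (i : Fin X.N) (Y : ℝ) :
    F.Fam {i} Y = (FE K (F.L i) F.bad Y).image (em F.toFr0 i) := by
  ext g
  rw [Fr0.mem_Fam, Finset.mem_image]
  constructor
  · rintro ⟨h1, h2, h3⟩
    have h4 : em F.toFr0 i (g.preimage (fun w : Pl (F.L i) => (⟨i, w⟩ : F.Lb))
      (fun a _ b _ h => eq_of_heq (Sigma.mk.inj h).2)) = g := by
      ext a
      rw [mem_em]
      constructor
      · rintro ⟨w, hw, rfl⟩
        exact Finset.mem_preimage.1 hw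
      · intro ha
        have h5 : a.1 ∈ F.cls g := by
          rw [Fr0.cls, Finset.mem_image]
          exact ⟨a, ha, rfl⟩
        have h6 := Finset.mem_singleton.1 (h2 h5)
        obtain ⟨k, w⟩ := a
        simp only at h6
        subst h6
        exact ⟨w, Finset.mem_preimage.2 ha, rfl⟩
    refine ⟨_, ?_, h4⟩
    rw [FE, Finset.mem_filter, mem_AF, ← em_nrl, h4, ← em_ok, h4]
    exact ⟨h3, h1⟩
  · rintro ⟨w, hw, rfl⟩
    rw [FE, Finset.mem_filter, mem_AF] at hw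
    rw [em_ok, em_nrl]
    exact ⟨hw.2, em_cls F.toFr0 i w, hw.1⟩

private theorem em_famsum (F : Fr X K) (i : Fin X.N) (Y : ℝ) (f : Finset F.Lb → ℂ) :
    ∑ g ∈ F.Fam {i} Y, f g = ∑ g ∈ FE K (F.L i) F.bad Y, f (em F.toFr0 i g) := by
  rw [em_fam, Finset.sum_image ((em_inj F.toFr0 i).injOn)]

private theorem ep_sum' (X : CD) {ι : Type} (s : Finset ι) (f : ι → ZMod X.p) :
    ep X.p (∑ x ∈ s, f x) = ∏ x ∈ s, ep X.p (f x) := by
  induction s using Finset.induction_on with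
  | empty => rw [Finset.sum_empty, Finset.prod_empty, ep_zero]
  | insert a s ha ih => rw [Finset.sum_insert ha, Finset.prod_insert ha, ep_add X.hp, ih]

private theorem ep_inj (X : CD) {a b : ZMod X.p} (h : ep X.p a = ep X.p b) : a = b := by
  have : NeZero X.p := ⟨X.hp.ne_zero⟩
  rw [rayc_std, rayc_std] at h
  exact ZMod.injective_stdAddChar h


/-- sums of functions of the state -/
private theorem prf_one {F : Fr X K} (B : Bl F) (m : ℕ) (g : Finset F.Lb) (f : B.St → ZMod m) :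
    ∑ b ∈ g, f (B.st b) = ∑ y, prf B m g y * f y := by
  rw [← Finset.sum_fiberwise g B.st]
  refine Finset.sum_congr rfl fun y _ => ?_
  have h1 : ∀ b ∈ g.filter (fun b => B.st b = y), f (B.st b) = f y := by
    intro b hb
    rw [(Finset.mem_filter.1 hb).2]
  rw [Finset.sum_congr rfl h1, Finset.sum_const, nsmul_eq_mul]
  rfl

private theorem prf_two {F : Fr X K} (B : Bl F) (m : ℕ) (g h : Finset F.Lb) (f : B.St → B.St → ZMod m) :
    ∑ a ∈ g, ∑ b ∈ h, f (B.st a) (B.st b) = ∑ x, ∑ y, prf B m g x * prf B m h y * f x y := by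
  have h1 : ∀ a ∈ g, ∑ b ∈ h, f (B.st a) (B.st b) = (fun x => ∑ y, prf B m h y * f x y) (B.st a) := by
    intro a _
    exact prf_one B m h (f (B.st a))
  refine (Finset.sum_congr rfl h1).trans ((prf_one B m g (fun x => ∑ y, prf B m h y * f x y)).trans ?_)
  refine Finset.sum_congr rfl fun x _ => ?_
  rw [Finset.mul_sum]
  refine Finset.sum_congr rfl fun y _ => ?_
  rw [mul_assoc]

/-- the value of a family of class `i` at a place of class `j` -/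
private def vl {F : Fr X K} (B : Bl F) (i j : Fin X.N) (ϑ : Fin X.w → ZMod X.p) (g : Finset (Pl (F.L i)))
    (w : Pl (F.L j)) : ZMod X.p :=
  ∑ a ∈ em F.toFr0 i g, (ϑ ⬝ᵥ F.s ⟨j, w⟩ a + B.P a ⟨j, w⟩)

private theorem em_cl (F : Fr0 X K) (i : Fin X.N) (g : Finset (Pl (F.L i))) : ∀ b ∈ em F i g, b.1 = i := by
  intro b hb
  rw [mem_em] at hb
  obtain ⟨w, -, rfl⟩ := hb
  rfl

private theorem vl_chr {F : Fr X K} (B : Bl F) (D : ℝ) (d : ℕ) (hD : B.D' ≤ D) (hd : B.d' ≤ d) (i j : Fin X.N)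
    (ϑ : Fin X.w → ZMod X.p) (g : Finset (Pl (F.L i))) (hg : Fme K F.bad g) :
    ∃ (𝔣 : Ideal (𝓞 (F.L j))) (χ : RC (F.L j) 𝔣), 𝔣 ≠ ⊥ ∧ (Ideal.absNorm 𝔣 : ℝ) ≤ D * nr g ^ d ∧
      ∀ w : Pl (F.L j), blw K w ∉ F.bad → (nm w).Prime → blw K w ∉ ud K g →
        χ.χ w.asIdeal = ep X.p (vl B i j ϑ g w) := by
  have hok := (em_ok F i g).2 hg
  obtain ⟨𝔣, χ, h1, h2, h3⟩ := B.chr j i ϑ (em F.toFr0 i g) hok (em_cl F.toFr0 i g)
  refine ⟨𝔣, χ, h1, ?_, ?_⟩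
  · rw [← ok_nr F _ hok, em_nrl] at h2
    have h4 : (1 : ℝ) ≤ nr g := one_le_nr g
    refine h2.trans (mul_le_mul hD (pow_le_pow_right₀ h4 hd) (by positivity) ?_)
    exact (zero_le_one.trans B.one_le_D').trans hD
  · intro w hw1 hw2 hw3
    exact h3 w ⟨by rw [bun_blw F j w]; exact hw1, hw2⟩ (by rw [bun_blw F j w, em_und]; exact hw3)

private theorem vl_ne {F : Fr X K} (B : Bl F) (i j : Fin X.N) (ϑ : Fin X.w → ZMod X.p) (hϑ : B.lk j i ϑ)
    (g₁ g₂ : Finset (Pl (F.L i))) (h₁ : Fme K F.bad g₁) (h₂ : Fme K F.bad g₂) (hne : ud K g₁ ≠ ud K g₂) :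
    ∃ w : Pl (F.L j), blw K w ∉ F.bad ∧ (nm w).Prime ∧ blw K w ∉ ud K g₁ ∧ blw K w ∉ ud K g₂ ∧
      ep X.p (vl B i j ϑ g₁ w) ≠ ep X.p (vl B i j ϑ g₂ w) := by
  have hok₁ := (em_ok F i g₁).2 h₁
  have hok₂ := (em_ok F i g₂).2 h₂
  obtain ⟨w, hw1, hw2, hw3, hw4⟩ := B.sep j i ϑ hϑ _ _ hok₁ hok₂ (em_cl F.toFr0 i g₁) (em_cl F.toFr0 i g₂)
    (by rw [em_und, em_und]; exact hne)
  rw [Fr0.Gd, bun_blw F j w] at hw1
  rw [bun_blw F j w, em_und] at hw2 hw3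
  exact ⟨w, hw1.1, hw1.2, hw2, hw3, fun h => hw4 (ep_inj X h)⟩

private theorem vl_rel {F : Fr X K} (B : Bl F) (i j : Fin X.N) (θ : Fin X.w → ZMod X.p)
    (g : Finset (Pl (F.L i))) (h : Finset (Pl (F.L j))) (hg : Fme K F.bad g) (hh : Fme K F.bad h)
    (hd : Disjoint (ud K g) (ud K h)) :
    ∏ w ∈ g, ep X.p (vl B j i θ h w) =
      ep X.p (∑ x, ∑ y, prf B X.p (em F.toFr0 i g) x * prf B X.p (em F.toFr0 j h) y *
        (θ ⬝ᵥ B.Xs x y + B.Xp x y)) * ∏ w ∈ h, ep X.p (vl B i j (-θ) g w) := by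
  have hokg := (em_ok F i g).2 hg
  have hokh := (em_ok F j h).2 hh
  rw [← ep_sum', ← ep_sum', ← ep_add X.hp]
  congr 1
  rw [← prf_two B X.p (em F.toFr0 i g) (em F.toFr0 j h) (fun x y => θ ⬝ᵥ B.Xs x y + B.Xp x y)]
  unfold vl
  rw [← em_sum F.toFr0 i g (fun a => ∑ b ∈ em F.toFr0 j h, (θ ⬝ᵥ F.s a b + B.P b a)),
    ← em_sum F.toFr0 j h (fun b => ∑ a ∈ em F.toFr0 i g, ((-θ) ⬝ᵥ F.s b a + B.P a b)), Finset.sum_comm
    (s := em F.toFr0 j h), ← Finset.sum_add_distrib]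
  refine Finset.sum_congr rfl fun a ha => ?_
  rw [← Finset.sum_add_distrib]
  refine Finset.sum_congr rfl fun b hb => ?_
  have hne : F.un a ≠ F.un b := by
    intro h1
    have h2 : F.un a ∈ ud K g := by
      rw [← em_und, Fr0.und, Finset.mem_image]
      exact ⟨a, ha, rfl⟩
    have h3 : F.un a ∈ ud K h := by
      rw [← em_und, Fr0.und, Finset.mem_image]
      exact ⟨b, hb, h1.symm⟩
    exact Finset.disjoint_left.1 hd h2 h3
  rw [← B.sym_s a b (hokg.1 a ha) (hokh.1 b hb) hne, B.sym_P a b (hokg.1 a ha) (hokh.1 b hb) hne,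
    dotProduct_add, neg_dotProduct]
  ring

/-- the estimate without the profile and the lower cutoff -/
private theorem bil0 (F : Fr X K) (B : Bl F) :
    ∃ (C : ℝ) (A : ℕ) (δ : ℝ), 1 ≤ C ∧ 0 < δ ∧ δ ≤ 1 / 4 ∧ ∀ (i j : Fin X.N) (θ : Fin X.w → ZMod X.p),
      B.lk i j θ → ∀ (α β : Finset F.Lb → ℂ), (∀ g, ‖α g‖ ≤ 1) → (∀ g, ‖β g‖ ≤ 1) →
      ∀ z Y : ℝ, 1 ≤ z → 1 ≤ Y →
      ‖∑ g ∈ F.Fam {i} Y, ∑ h ∈ F.Fam {j} Y, if z < F.nrl g ∧ z < F.nrl h ∧ F.nrl g * F.nrl h ≤ Y ∧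
        Disjoint (F.und g) (F.und h) then α g * β h *
          ep X.p (∑ a ∈ g, ∑ b ∈ h, (θ ⬝ᵥ F.s a b + B.P b a)) else 0‖ ≤
      C * Y * z ^ (-δ) * (1 + Real.log Y) ^ A := by
  obtain ⟨d, hd1, hd2⟩ : ∃ d : ℕ, F.d ≤ d ∧ B.d' ≤ d := ⟨max F.d B.d', le_max_left _ _, le_max_right _ _⟩
  obtain ⟨D, hD1, hD2⟩ : ∃ D : ℝ, F.D ≤ D ∧ B.D' ≤ D := ⟨max F.D B.D', le_max_left _ _, le_max_right _ _⟩
  have hD : 1 ≤ D := F.one_le_D.trans hD1
  obtain ⟨C, A, δ, hC, hδ, hδ4, H⟩ := H57.AN.i2 K d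
  obtain ⟨Q, hQ⟩ : ∃ Q : ℝ, Q = (Fintype.card (B.St → ZMod X.p) : ℝ) := ⟨_, rfl⟩
  have hQ1 : 1 ≤ Q := by
    rw [hQ]
    exact_mod_cast Fintype.card_pos
  have hQD : 1 ≤ Q * D := by nlinarith
  refine ⟨C * (Q * D) ^ A, A, δ, ?_, hδ, hδ4, ?_⟩
  · have h1 : 1 ≤ (Q * D) ^ A := one_le_pow₀ hQD
    nlinarith
  intro i j θ hθ α β hα hβ z Y hz hY
  have hθ' : B.lk j i (-θ) := B.lk_symm i j θ hθ
  have key := H (F.L i) (F.L j) (F.tc i) (F.tc j) ((F.deg i).trans hd1) ((F.deg j).trans hd1) D Q hD hQ1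
      ((F.dis i).trans hD1) ((F.dis j).trans hD1) F.bad (B.St → ZMod X.p) hQ.ge
      (fun g => prf B X.p (em F.toFr0 i g)) (fun h => prf B X.p (em F.toFr0 j h))
      (fun x y => ep X.p (∑ σ, ∑ σ', x σ * y σ' * (θ ⬝ᵥ B.Xs σ σ' + B.Xp σ σ')))
      (fun g w => ep X.p (vl B i j (-θ) g w)) (fun h w => ep X.p (vl B j i θ h w))
      (fun _ _ => (ep_norm _ _).le) (fun _ _ => ep_norm _ _) (fun _ _ => ep_norm _ _)
      (fun g hg => vl_chr B D d hD2 hd2 i j (-θ) g hg)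
      (fun g₁ g₂ h₁ h₂ hne => vl_ne B i j (-θ) hθ' g₁ g₂ h₁ h₂ hne)
      (fun h hh => vl_chr B D d hD2 hd2 j i θ h hh)
      (fun g₁ g₂ h₁ h₂ hne => vl_ne B j i θ hθ g₁ g₂ h₁ h₂ hne)
      (fun g h hg hh hd => vl_rel B i j θ g h hg hh hd)
      (fun g => α (em F.toFr0 i g)) (fun h => β (em F.toFr0 j h)) (fun g => hα _) (fun h => hβ _) z Y hz hY
  refine le_trans (le_of_eq ?_) key
  congr 1
  rw [em_famsum]
  refine Finset.sum_congr rfl fun g _ => ?_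
  rw [em_famsum]
  refine Finset.sum_congr rfl fun h _ => ?_
  rw [em_nrl, em_nrl, em_und, em_und]
  refine if_congr Iff.rfl ?_ rfl
  rw [← ep_sum', em_sum]
  rfl

/-- the estimate with the lower cutoff -/
private theorem bil1 (F : Fr X K) (B : Bl F) :
    ∃ (C : ℝ) (A : ℕ) (δ : ℝ), 1 ≤ C ∧ 0 < δ ∧ δ ≤ 1 / 4 ∧ ∀ (i j : Fin X.N) (θ : Fin X.w → ZMod X.p),
      B.lk i j θ → ∀ (α β : Finset F.Lb → ℂ), (∀ g, ‖α g‖ ≤ 1) → (∀ g, ‖β g‖ ≤ 1) →
      ∀ z Y c : ℝ, 1 ≤ z → 1 ≤ Y →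
      ‖∑ g ∈ F.Fam {i} Y, ∑ h ∈ F.Fam {j} Y, if z < F.nrl g ∧ z < F.nrl h ∧ F.nrl g * F.nrl h ≤ Y ∧
        c < F.nrl g * F.nrl h ∧ Disjoint (F.und g) (F.und h) then α g * β h *
          ep X.p (∑ a ∈ g, ∑ b ∈ h, (θ ⬝ᵥ F.s a b + B.P b a)) else 0‖ ≤
      C * Y * z ^ (-δ) * (1 + Real.log Y) ^ A := by
  obtain ⟨C, A, δ, hC, hδ, hδ4, H⟩ := bil0 F B
  refine ⟨2 * C, A, δ, by linarith, hδ, hδ4, ?_⟩
  intro i j θ hθ α β hα hβ z Y c hz hY
  have hz0 : 0 < z ^ (-δ) := Real.rpow_pos_of_pos (zero_lt_one.trans_le hz) _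
  have hlog : 0 ≤ Real.log Y := Real.log_nonneg hY
  have hone : ∀ g h : Finset F.Lb, 1 ≤ F.nrl g * F.nrl h := by
    intro g h
    have h1 := F.one_le_nrl g
    have h2 := F.one_le_nrl h
    nlinarith
  have hB0 : 0 ≤ C * Y * z ^ (-δ) * (1 + Real.log Y) ^ A := by positivity
  have hH := H i j θ hθ α β hα hβ z Y hz hY
  rcases lt_or_ge c 1 with hc | hc
  · refine le_trans (le_of_eq ?_) (hH.trans (by linarith))
    congr 1
    refine Finset.sum_congr rfl fun g _ => Finset.sum_congr rfl fun h _ => ?_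
    refine if_congr ?_ rfl rfl
    constructor
    · rintro ⟨h1, h2, h3, h4, h5⟩
      exact ⟨h1, h2, h3, h5⟩
    · rintro ⟨h1, h2, h3, h5⟩
      exact ⟨h1, h2, h3, hc.trans_le (hone g h), h5⟩
  rcases le_or_gt Y c with hcY | hcY
  · have h0 : (∑ g ∈ F.Fam {i} Y, ∑ h ∈ F.Fam {j} Y, if z < F.nrl g ∧ z < F.nrl h ∧ F.nrl g * F.nrl h ≤ Y ∧
        c < F.nrl g * F.nrl h ∧ Disjoint (F.und g) (F.und h) then α g * β h *
          ep X.p (∑ a ∈ g, ∑ b ∈ h, (θ ⬝ᵥ F.s a b + B.P b a)) else 0) = 0 := by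
      refine Finset.sum_eq_zero fun g _ => Finset.sum_eq_zero fun h _ => ?_
      rw [if_neg]
      rintro ⟨-, -, h3, h4, -⟩
      linarith
    rw [h0, norm_zero]
    linarith
  -- the second sum
  have hsub : ∀ k : Fin X.N, F.Fam {k} c ⊆ F.Fam {k} Y := by
    intro k g hg
    rw [Fr0.mem_Fam] at hg ⊢
    exact ⟨hg.1, hg.2.1, hg.2.2.trans hcY.le⟩
  have hK := H i j θ hθ α β hα hβ z c hz hc
  obtain ⟨W, hW⟩ : ∃ W : Finset F.Lb → Finset F.Lb → ℂ, ∀ g h, W g h = α g * β h *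
      ep X.p (∑ a ∈ g, ∑ b ∈ h, (θ ⬝ᵥ F.s a b + B.P b a)) := ⟨_, fun _ _ => rfl⟩
  simp only [← hW] at hH hK ⊢
  have hext : (∑ g ∈ F.Fam {i} c, ∑ h ∈ F.Fam {j} c, if z < F.nrl g ∧ z < F.nrl h ∧ F.nrl g * F.nrl h ≤ c ∧
      Disjoint (F.und g) (F.und h) then W g h else 0) =
      ∑ g ∈ F.Fam {i} Y, ∑ h ∈ F.Fam {j} Y, if z < F.nrl g ∧ z < F.nrl h ∧ F.nrl g * F.nrl h ≤ c ∧
      Disjoint (F.und g) (F.und h) then W g h else 0 := by
    have h1 : ∀ g ∈ F.Fam {i} c, (∑ h ∈ F.Fam {j} c, if z < F.nrl g ∧ z < F.nrl h ∧ F.nrl g * F.nrl h ≤ c ∧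
      Disjoint (F.und g) (F.und h) then W g h else 0) =
      ∑ h ∈ F.Fam {j} Y, if z < F.nrl g ∧ z < F.nrl h ∧ F.nrl g * F.nrl h ≤ c ∧
      Disjoint (F.und g) (F.und h) then W g h else 0 := by
      intro g hg
      refine Finset.sum_subset (hsub j) fun h hh hhc => ?_
      rw [if_neg]
      rintro ⟨-, -, h3, -⟩
      apply hhc
      rw [Fr0.mem_Fam] at hh ⊢
      refine ⟨hh.1, hh.2.1, le_trans ?_ h3⟩
      have h4 := F.one_le_nrl g
      have h5 := F.one_le_nrl h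
      nlinarith
    rw [Finset.sum_congr rfl h1]
    refine Finset.sum_subset (hsub i) fun g hg hgc => Finset.sum_eq_zero fun h hh => ?_
    rw [if_neg]
    rintro ⟨-, -, h3, -⟩
    apply hgc
    rw [Fr0.mem_Fam] at hg ⊢
    refine ⟨hg.1, hg.2.1, le_trans ?_ h3⟩
    have h4 := F.one_le_nrl g
    have h5 := F.one_le_nrl h
    nlinarith
  rw [hext] at hK
  have hdiff : (∑ g ∈ F.Fam {i} Y, ∑ h ∈ F.Fam {j} Y, if z < F.nrl g ∧ z < F.nrl h ∧ F.nrl g * F.nrl h ≤ Y ∧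
      c < F.nrl g * F.nrl h ∧ Disjoint (F.und g) (F.und h) then W g h else 0) =
      (∑ g ∈ F.Fam {i} Y, ∑ h ∈ F.Fam {j} Y, if z < F.nrl g ∧ z < F.nrl h ∧ F.nrl g * F.nrl h ≤ Y ∧
        Disjoint (F.und g) (F.und h) then W g h else 0) -
      ∑ g ∈ F.Fam {i} Y, ∑ h ∈ F.Fam {j} Y, if z < F.nrl g ∧ z < F.nrl h ∧ F.nrl g * F.nrl h ≤ c ∧
        Disjoint (F.und g) (F.und h) then W g h else 0 := by
    rw [← Finset.sum_sub_distrib]
    refine Finset.sum_congr rfl fun g _ => ?_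
    rw [← Finset.sum_sub_distrib]
    refine Finset.sum_congr rfl fun h _ => ?_
    by_cases h1 : z < F.nrl g ∧ z < F.nrl h ∧ F.nrl g * F.nrl h ≤ Y ∧ Disjoint (F.und g) (F.und h)
    · rw [if_pos h1]
      obtain ⟨h2, h3, h4, h5⟩ := h1
      by_cases h6 : F.nrl g * F.nrl h ≤ c
      · rw [if_neg (fun h7 => absurd h7.2.2.2.1 (not_lt.2 h6)), if_pos ⟨h2, h3, h6, h5⟩, sub_self]
      · rw [if_pos ⟨h2, h3, h4, not_le.1 h6, h5⟩, if_neg (fun h7 => h6 h7.2.2.1), sub_zero]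
    · rw [if_neg h1, if_neg (fun h7 => h1 ⟨h7.1, h7.2.1, h7.2.2.1, h7.2.2.2.2⟩),
        if_neg (fun h7 => h1 ⟨h7.1, h7.2.1, h7.2.2.1.trans hcY.le, h7.2.2.2⟩), sub_self]
  rw [hdiff]
  have hmono : C * c * z ^ (-δ) * (1 + Real.log c) ^ A ≤ C * Y * z ^ (-δ) * (1 + Real.log Y) ^ A := by
    have h1 : Real.log c ≤ Real.log Y := Real.log_le_log (by linarith) hcY.le
    have h2 : 0 ≤ Real.log c := Real.log_nonneg hc
    have h3 : (1 + Real.log c) ^ A ≤ (1 + Real.log Y) ^ A := pow_le_pow_left₀ (by linarith) (by linarith) _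
    have h4 : C * c * z ^ (-δ) ≤ C * Y * z ^ (-δ) := by
      refine mul_le_mul_of_nonneg_right (mul_le_mul_of_nonneg_left hcY.le (by linarith)) hz0.le
    exact mul_le_mul h4 h3 (by positivity) (by positivity)
  refine (norm_sub_le _ _).trans ?_
  linarith

theorem bil {X : CD} {K : Type} [Field K] [NumberField K] (F : Fr X K) (B : Bl F) :
    ∃ (C : ℝ) (A : ℕ) (δ : ℝ), 1 ≤ C ∧ 0 < δ ∧ δ ≤ 1 / 4 ∧ ∀ (i j : Fin X.N) (θ : Fin X.w → ZMod X.p),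
      B.lk i j θ → ∀ (T : Type) [Fintype T] (t : Finset F.Lb → T) (α β : Finset F.Lb → ℂ)
      (G : T → T → ℂ), (∀ g, ‖α g‖ ≤ 1) → (∀ g, ‖β g‖ ≤ 1) → (∀ x y, ‖G x y‖ ≤ 1) →
      ∀ z Y c : ℝ, 1 ≤ z → 1 ≤ Y →
      ‖∑ g ∈ F.Fam {i} Y, ∑ h ∈ F.Fam {j} Y, if z < F.nrl g ∧ z < F.nrl h ∧ F.nrl g * F.nrl h ≤ Y ∧
        c < F.nrl g * F.nrl h ∧ Disjoint (F.und g) (F.und h) then α g * β h * G (t g) (t h) *
          ep X.p (∑ a ∈ g, ∑ b ∈ h, (θ ⬝ᵥ F.s a b + B.P b a)) else 0‖ ≤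
      C * (Fintype.card T : ℝ) ^ 2 * Y * z ^ (-δ) * (1 + Real.log Y) ^ A := by
  obtain ⟨C, A, δ, hC, hδ, hδ4, H⟩ := bil1 F B
  refine ⟨C, A, δ, hC, hδ, hδ4, ?_⟩
  intro i j θ hθ T _ t α β G hα hβ hG z Y c hz hY
  obtain ⟨S, hS⟩ : ∃ S : T → T → ℂ, ∀ x y, S x y = ∑ g ∈ F.Fam {i} Y, ∑ h ∈ F.Fam {j} Y,
      if z < F.nrl g ∧ z < F.nrl h ∧ F.nrl g * F.nrl h ≤ Y ∧
        c < F.nrl g * F.nrl h ∧ Disjoint (F.und g) (F.und h) then
        (if t g = x then α g else 0) * (if t h = y then β h else 0) *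
          ep X.p (∑ a ∈ g, ∑ b ∈ h, (θ ⬝ᵥ F.s a b + B.P b a)) else 0 := ⟨_, fun _ _ => rfl⟩
  have hSb : ∀ x y, ‖S x y‖ ≤ C * Y * z ^ (-δ) * (1 + Real.log Y) ^ A := by
    intro x y
    rw [hS]
    refine H i j θ hθ (fun g => if t g = x then α g else 0) (fun h => if t h = y then β h else 0) ?_ ?_ z Y c hz hY
    · intro g
      split_ifs
      · exact hα _
      · rw [norm_zero]; exact zero_le_one
    · intro g
      split_ifs
      · exact hβ _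
      · rw [norm_zero]; exact zero_le_one
  have hsum : (∑ g ∈ F.Fam {i} Y, ∑ h ∈ F.Fam {j} Y, if z < F.nrl g ∧ z < F.nrl h ∧ F.nrl g * F.nrl h ≤ Y ∧
        c < F.nrl g * F.nrl h ∧ Disjoint (F.und g) (F.und h) then α g * β h * G (t g) (t h) *
          ep X.p (∑ a ∈ g, ∑ b ∈ h, (θ ⬝ᵥ F.s a b + B.P b a)) else 0) = ∑ x, ∑ y, G x y * S x y := by
    have h1 : ∀ x y, G x y * S x y = ∑ g ∈ F.Fam {i} Y, ∑ h ∈ F.Fam {j} Y,
        G x y * (if z < F.nrl g ∧ z < F.nrl h ∧ F.nrl g * F.nrl h ≤ Y ∧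
        c < F.nrl g * F.nrl h ∧ Disjoint (F.und g) (F.und h) then
        (if t g = x then α g else 0) * (if t h = y then β h else 0) *
          ep X.p (∑ a ∈ g, ∑ b ∈ h, (θ ⬝ᵥ F.s a b + B.P b a)) else 0) := by
      intro x y
      rw [hS, Finset.mul_sum]
      refine Finset.sum_congr rfl fun g _ => ?_
      rw [Finset.mul_sum]
    simp only [h1]
    have h2 : ∀ x : T, (∑ y, ∑ g ∈ F.Fam {i} Y, ∑ h ∈ F.Fam {j} Y,
        G x y * (if z < F.nrl g ∧ z < F.nrl h ∧ F.nrl g * F.nrl h ≤ Y ∧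
        c < F.nrl g * F.nrl h ∧ Disjoint (F.und g) (F.und h) then
        (if t g = x then α g else 0) * (if t h = y then β h else 0) *
          ep X.p (∑ a ∈ g, ∑ b ∈ h, (θ ⬝ᵥ F.s a b + B.P b a)) else 0)) = ∑ g ∈ F.Fam {i} Y, ∑ h ∈ F.Fam {j} Y, ∑ y,
        G x y * (if z < F.nrl g ∧ z < F.nrl h ∧ F.nrl g * F.nrl h ≤ Y ∧
        c < F.nrl g * F.nrl h ∧ Disjoint (F.und g) (F.und h) then
        (if t g = x then α g else 0) * (if t h = y then β h else 0) *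
          ep X.p (∑ a ∈ g, ∑ b ∈ h, (θ ⬝ᵥ F.s a b + B.P b a)) else 0) := by
      intro x
      rw [Finset.sum_comm]
      refine Finset.sum_congr rfl fun g _ => ?_
      rw [Finset.sum_comm]
    simp only [h2]
    symm
    rw [Finset.sum_comm]
    refine Finset.sum_congr rfl fun g _ => ?_
    rw [Finset.sum_comm]
    refine Finset.sum_congr rfl fun h _ => ?_
    by_cases hP : z < F.nrl g ∧ z < F.nrl h ∧ F.nrl g * F.nrl h ≤ Y ∧
        c < F.nrl g * F.nrl h ∧ Disjoint (F.und g) (F.und h)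
    · simp only [if_pos hP]
      rw [Finset.sum_eq_single (t g)]
      · rw [Finset.sum_eq_single (t h)]
        · rw [if_pos rfl, if_pos rfl]
          ring
        · intro y _ hy
          rw [if_neg (Ne.symm hy), mul_zero, zero_mul, mul_zero]
        · intro h3
          exact absurd (Finset.mem_univ _) h3
      · intro x _ hx
        refine Finset.sum_eq_zero fun y _ => ?_
        rw [if_neg (Ne.symm hx), zero_mul, zero_mul, mul_zero]
      · intro h3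
        exact absurd (Finset.mem_univ _) h3
    · simp only [if_neg hP, mul_zero, Finset.sum_const_zero]
  rw [hsum]
  obtain ⟨M, hM⟩ : ∃ M : ℝ, M = C * Y * z ^ (-δ) * (1 + Real.log Y) ^ A := ⟨_, rfl⟩
  rw [← hM] at hSb
  calc ‖∑ x, ∑ y, G x y * S x y‖ ≤ ∑ _x : T, ∑ _y : T, M := by
        refine (norm_sum_le _ _).trans (Finset.sum_le_sum fun x _ => ?_)
        refine (norm_sum_le _ _).trans (Finset.sum_le_sum fun y _ => ?_)
        rw [norm_mul]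
        calc ‖G x y‖ * ‖S x y‖ ≤ 1 * M :=
              mul_le_mul (hG x y) (hSb x y) (norm_nonneg _) zero_le_one
          _ = M := one_mul _
    _ = C * (Fintype.card T : ℝ) ^ 2 * Y * z ^ (-δ) * (1 + Real.log Y) ^ A := by
        rw [Finset.sum_const, Finset.sum_const, Finset.card_univ, nsmul_eq_mul, nsmul_eq_mul, hM]
        ring

end H51.MS
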