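import Pool.Agent.H51.MS.Defs
import Pool.Agent.H57.AN.Ub

/-!
# [H51 MS MSS] The mass of a class (60-90 lines)

`Ms w i Y` = sum of `w a / nm a` over the good labels of class `i` with norm at most `Y`.
* `mss`: `0 ≤ w ≤ 1`: at most the sum of `1 / nm w` over all places of `F.L i` of norm `≤ Y` (`PB (F.L i) Y`); `H57.AN.zt` for `n = finrank ℚ (F.L i)` (`TC (F.L i) n` from `F.tc i`, see how Ub.lean / Ifa.lean build `TC`).
* `mss_mono`.
-/

set_option autoImplicit false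

open scoped NumberField
open IsDedekindDomain NumberField H63.MA H36.QA Filter Topology
open scoped Classical

noncomputable section

namespace H51.MS

open H51.MM

variable {X : CD} {K : Type} [Field K] [NumberField K]

/-- the mass of class `i` -/
def Ms (F : Fr0 X K) (w : F.Lb → ℝ) (i : Fin X.N) (Y : ℝ) : ℝ :=
  ∑ a ∈ (F.lbfin Y).toFinset.filter fun a => a.1 = i ∧ F.Gd a, w a / (nm a.2 : ℝ)

theorem ms_mono (F : Fr0 X K) (w w' : F.Lb → ℝ) (i : Fin X.N) (Y : ℝ)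
    (h : ∀ a : F.Lb, a.1 = i → F.Gd a → w a ≤ w' a) : Ms F w i Y ≤ Ms F w' i Y := by
  unfold Ms
  refine Finset.sum_le_sum fun a ha => ?_
  obtain ⟨-, h1, h2⟩ := Finset.mem_filter.1 ha
  exact div_le_div_of_nonneg_right (h a h1 h2) (Nat.cast_nonneg _)

theorem mss (F : Fr X K) : ∃ C : ℝ, 0 ≤ C ∧ ∀ (w : F.Lb → ℝ) (i : Fin X.N), (∀ a, 0 ≤ w a ∧ w a ≤ 1) →
    ∀ Y : ℝ, 3 ≤ Y → Ms F.toFr0 w i Y ≤ Real.log (Real.log Y) + C := by
  have h0 : ∀ i : Fin X.N, ∃ C : ℝ, 0 ≤ C ∧ ∀ Y : ℝ, 3 ≤ Y →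
      ∑ w ∈ H57.AN.PB (F.L i) Y, (1 : ℝ) / nm w ≤ Real.log (Real.log Y) + C := by
    intro i
    have hpos : 0 < Module.finrank ℚ (F.L i) := Module.finrank_pos
    obtain ⟨C, A, hC, h⟩ := H57.AN.zt (Module.finrank ℚ (F.L i)) hpos
    refine ⟨A * Real.log (1 + Real.log (dd (F.L i))) + C, ?_, fun Y hY => ?_⟩
    · have h1 : 0 ≤ Real.log (dd (F.L i)) := Real.log_nonneg (one_le_dd (F.L i))
      have h2 : 0 ≤ Real.log (1 + Real.log (dd (F.L i))) := Real.log_nonneg (by linarith)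
      have h3 : (0 : ℝ) ≤ A := Nat.cast_nonneg _
      have := mul_nonneg h3 h2
      linarith
    · have h1 := h (F.L i) ⟨F.tc i, rfl⟩ Y hY
      linarith
  choose C hC0 hC using h0
  refine ⟨∑ i, C i, Finset.sum_nonneg fun i _ => hC0 i, fun w i hw Y hY => ?_⟩
  have h1 : C i ≤ ∑ i, C i := Finset.single_le_sum (f := C) (fun i _ => hC0 i) (Finset.mem_univ i)
  have h2 := hC i Y hY
  have h3 : Ms F.toFr0 w i Y ≤ ∑ w ∈ H57.AN.PB (F.L i) Y, (1 : ℝ) / nm w := by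
    unfold Ms
    have h4 : ∀ a ∈ (F.lbfin Y).toFinset.filter (fun a => a.1 = i ∧ F.Gd a),
        w a / (nm a.2 : ℝ) ≤ 1 / (nm a.2 : ℝ) := fun a _ =>
      div_le_div_of_nonneg_right (hw a).2 (Nat.cast_nonneg _)
    refine (Finset.sum_le_sum h4).trans ?_
    have h5 : (F.lbfin Y).toFinset.filter (fun a => a.1 = i ∧ F.Gd a) ⊆
        (H57.AN.PB (F.L i) Y).map (Function.Embedding.sigmaMk i) := by
      intro a ha
      obtain ⟨h6, h7, -⟩ := Finset.mem_filter.1 ha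
      obtain ⟨j, v⟩ := a
      have h8 : j = i := h7
      subst h8
      rw [Finset.mem_map]
      refine ⟨v, ?_, rfl⟩
      rw [H57.AN.mem_PB]
      exact (Set.Finite.mem_toFinset (F.lbfin Y)).1 h6
    refine (Finset.sum_le_sum_of_subset_of_nonneg h5 fun a _ _ => by positivity).trans ?_
    rw [Finset.sum_map]
    exact le_rfl
  linarith

end H51.MS
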