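import Pool.Agent.H51.MS.Trb
import Pool.Agent.H51.MS.Mss

/-!
# [H51 MS CNB] The trivial bound for given large blocks (150-220 lines)

`M = card (Bk X)`. `u` is determined by `ρ = rb Lᶜ u` (in `BF (lv Z R k ^ M)`) and `rb L u`. For fixed `ρ`, `Y' = Y / nrb ρ ≥ Y ^ (1/2)`:
`∑ am w u ≤ ∑_{u' : blocks in L, norm ≤ Y'} ∏_{β ∈ L} ∏_{a ∈ u' β} w a / 3 ≤ ∑ s ∈ AF K Y', ∏ v ∈ s, f v`, `f v = ∑ β ∈ L, ∑_{a over v, good, of class of β} w a / 3` (expand the product: for every `v ∈ s = und (BU u')` a pair `(β, a)`; the map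
`u' ↦ (v ↦ (β, a))` is injective; model: `ub_cnt` in H57/AN/Ub.lean). `0 ≤ f v ≤ M * N * d`. `H57.AN.ub`: `≤ C (Y' / log Y') exp (∑ v ∈ PB K Y', f v / nm v)`, `log Y' ≥ log Y / 2`,
`∑ v ∈ PB K Y', f v / nm v ≤ ∑ β ∈ L, Ms w (class of β) Y / 3` (for a good label `nm a = nm (un a)`: `gd_nm` in MM/Trv.lean). `∑_ρ 1 / nrb ρ ≤ C (1 + log (lv Z R k ^ M)) ^ A` by `trb`, and `1 + log (x ^ M) ≤ (M + 1) (1 + log x)`.
(`Y' ≥ 2` is needed for `ub`: for `3 ≤ Y < 4` enlarge: `Y ^ (1/2) ≥ √3 < 2`; the number of families with norm `≤ Y' < 2` is one (all blocks empty), and `C (Y / log Y) ≥ 1`.)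
-/

set_option autoImplicit false

open scoped NumberField
open IsDedekindDomain NumberField H63.MA H36.QA Filter Topology
open scoped Classical

noncomputable section

namespace H51.MS

open H51.MM

variable {X : CD} {K : Type} [Field K] [NumberField K]

/-- the abstract product bound -/
private theorem cnb_abs {Q V : Type} (π : Q → V) (g : Q → ℝ) (hg : ∀ q, 0 ≤ g q) (G : V → Finset Q)
    (hG : ∀ v, ∀ q ∈ G v, π q = v) (PP : Finset (Finset Q)) (A : Finset (Finset V))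
    (h1 : ∀ P ∈ PP, ∀ q ∈ P, q ∈ G (π q)) (h2 : ∀ P ∈ PP, ∀ q ∈ P, ∀ q' ∈ P, π q = π q' → q = q')
    (h3 : ∀ P ∈ PP, P.image π ∈ A) :
    ∑ P ∈ PP, ∏ q ∈ P, g q ≤ ∑ s ∈ A, ∏ v ∈ s, ∑ q ∈ G v, g q := by
  rw [← Finset.sum_fiberwise_of_maps_to h3]
  refine Finset.sum_le_sum fun s _ => ?_
  rw [Finset.prod_sum]
  have hinj : Set.InjOn (fun p : ∀ v ∈ s, Q => s.attach.image fun v => p v.1 v.2)
      (s.pi G : Set (∀ v ∈ s, Q)) := by
    intro p hp p' hp' he
    rw [Finset.mem_coe, Finset.mem_pi] at hp hp'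
    have he' : (s.attach.image fun v => p v.1 v.2) = s.attach.image fun v => p' v.1 v.2 := he
    funext v hv
    have h4 : p v hv ∈ s.attach.image fun v => p' v.1 v.2 := by
      rw [← he']
      exact Finset.mem_image.2 ⟨⟨v, hv⟩, Finset.mem_attach _ _, rfl⟩
    obtain ⟨⟨v', hv'⟩, -, h5⟩ := Finset.mem_image.1 h4
    have h6 : v' = v := by
      have h7 := hG v' _ (hp' v' hv')
      have h8 := hG v _ (hp v hv)
      have h9 : π (p' v' hv') = π (p v hv) := congrArg π h5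
      rw [← h7, h9, h8]
    subst h6
    exact h5.symm
  have hprod : ∀ p ∈ s.pi G, ∏ x ∈ s.attach, g (p x.1 x.2) =
      ∏ q ∈ s.attach.image (fun v => p v.1 v.2), g q := by
    intro p hp
    rw [Finset.mem_pi] at hp
    rw [Finset.prod_image]
    intro v _ v' _ h
    apply Subtype.ext
    have h7 := hG v'.1 _ (hp v'.1 v'.2)
    have h8 := hG v.1 _ (hp v.1 v.2)
    have h9 : π (p v.1 v.2) = π (p v'.1 v'.2) := congrArg π h
    rw [← h8, h9, h7]
  rw [Finset.sum_congr rfl hprod]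
  have himg : ∑ P ∈ (s.pi G).image (fun p : ∀ v ∈ s, Q => s.attach.image fun v => p v.1 v.2),
      ∏ q ∈ P, g q = ∑ p ∈ s.pi G, ∏ q ∈ s.attach.image (fun v => p v.1 v.2), g q :=
    Finset.sum_image hinj
  rw [← himg]
  refine Finset.sum_le_sum_of_subset_of_nonneg ?_ fun P _ _ => Finset.prod_nonneg fun q _ => hg q
  intro P hP
  obtain ⟨hP1, hP2⟩ := Finset.mem_filter.1 hP
  have h4 : ∀ v ∈ s, ∃ q, q ∈ P ∧ π q = v := by
    intro v hv
    rw [← hP2, Finset.mem_image] at hv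
    exact hv
  choose p hp1 hp2 using h4
  rw [Finset.mem_image]
  refine ⟨p, ?_, ?_⟩
  · rw [Finset.mem_pi]
    intro v hv
    have h5 := h1 P hP1 _ (hp1 v hv)
    rwa [hp2] at h5
  · ext q
    rw [Finset.mem_image]
    constructor
    · rintro ⟨v, -, rfl⟩
      exact hp1 v.1 v.2
    · intro hq
      have hv : π q ∈ s := by
        rw [← hP2]
        exact Finset.mem_image_of_mem _ hq
      exact ⟨⟨π q, hv⟩, Finset.mem_attach _ _, h2 P hP1 _ (hp1 _ hv) _ hq (hp2 _ hv)⟩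

private theorem cnb_over_card {K E : Type} [Field K] [NumberField K] [Field E] [NumberField E] [Algebra K E]
    (l : Pl K) {S : Finset (Pl E)} (hS : ∀ v ∈ S, Over v l) : S.card ≤ Module.finrank K E := by
  have h1 : S.card ≤ (IsDedekindDomain.primesOverFinset l.asIdeal (𝓞 E)).card := by
    refine Finset.card_le_card_of_injOn (fun v => v.asIdeal) ?_ ?_
    · intro v hv
      rw [Finset.mem_coe, IsDedekindDomain.mem_primesOverFinset_iff l.ne_bot]
      exact ⟨v.isPrime, ⟨(hS v hv).symm⟩⟩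
    · intro v _ w _ h
      exact IsDedekindDomain.HeightOneSpectrum.ext h
  have hmax : l.asIdeal.IsMaximal := l.isMaximal
  have hnz : NoZeroSMulDivisors (𝓞 K) (𝓞 E) := ⟨fun {x y} h => by
    rw [Algebra.smul_def, mul_eq_zero] at h
    rcases h with h | h
    · exact Or.inl ((map_eq_zero_iff _ (FaithfulSMul.algebraMap_injective (𝓞 K) (𝓞 E))).1 h)
    · exact Or.inr h⟩
  exact h1.trans (Ideal.card_primesOverFinset_le_finrank (𝓞 E) K E l.ne_bot)

/-- the labels over `v` -/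
private def clov (F : Fr0 X K) (v : Pl K) : Finset F.Lb :=
  Finset.univ.sigma fun i => (over_finite (L := F.L i) v).toFinset

private theorem mem_clov (F : Fr0 X K) (v : Pl K) (a : F.Lb) : a ∈ clov F v ↔ Over a.2 v := by
  unfold clov
  rw [Finset.mem_sigma, Set.Finite.mem_toFinset]
  exact ⟨fun h => h.2, fun h => ⟨Finset.mem_univ _, h⟩⟩

private theorem clov_card (F : Fr X K) (v : Pl K) : (clov F.toFr0 v).card ≤ X.N * F.d := by
  unfold clov
  rw [Finset.card_sigma]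
  calc ∑ i : Fin X.N, ((over_finite (L := F.L i) v).toFinset).card
      ≤ ∑ _i : Fin X.N, F.d := by
        refine Finset.sum_le_sum fun i _ => ?_
        refine (cnb_over_card (K := K) (E := F.L i) v ?_).trans (F.deg i)
        intro w hw
        rw [Set.Finite.mem_toFinset] at hw
        exact hw
    _ = X.N * F.d := by
        rw [Finset.sum_const, Finset.card_univ, Fintype.card_fin, smul_eq_mul]

/-- the pairs of a block in `L` and a good label over `v` -/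
private def GG (F : Fr0 X K) (L : Finset (Bk X)) (v : Pl K) : Finset (Σ _ : Bk X, F.Lb) :=
  (L.sigma fun _ => clov F v).filter fun q => F.un q.2 = v ∧ F.Gd q.2 ∧ q.2.1 = q.1.1.1.1

private theorem mem_GG (F : Fr X K) (L : Finset (Bk X)) (v : Pl K) (q : Σ _ : Bk X, F.Lb) :
    q ∈ GG F.toFr0 L v ↔ q.1 ∈ L ∧ F.un q.2 = v ∧ F.Gd q.2 ∧ q.2.1 = q.1.1.1.1 := by
  unfold GG
  rw [Finset.mem_filter, Finset.mem_sigma, mem_clov]
  constructor
  · rintro ⟨⟨h1, -⟩, h2⟩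
    exact ⟨h1, h2⟩
  · rintro ⟨h1, h2⟩
    refine ⟨⟨h1, ?_⟩, h2⟩
    rw [← h2.1]
    exact F.un_over q.2

private theorem gg_card (F : Fr X K) (L : Finset (Bk X)) (v : Pl K) :
    (GG F.toFr0 L v).card ≤ Fintype.card (Bk X) * (X.N * F.d) := by
  unfold GG
  refine (Finset.card_filter_le _ _).trans ?_
  rw [Finset.card_sigma, Finset.sum_const, smul_eq_mul]
  exact Nat.mul_le_mul (Finset.card_le_univ L) (clov_card F v)

/-- the coefficients -/
private def ff (F : Fr0 X K) (w : F.Lb → ℝ) (L : Finset (Bk X)) (v : Pl K) : ℝ :=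
  ∑ q ∈ GG F L v, w q.2 / 3

private theorem ff_nn (F : Fr0 X K) (w : F.Lb → ℝ) (hw : ∀ a, 0 ≤ w a ∧ w a ≤ 1)
    (L : Finset (Bk X)) (v : Pl K) : 0 ≤ ff F w L v :=
  Finset.sum_nonneg fun q _ => div_nonneg (hw q.2).1 (by norm_num)

private theorem ff_le (F : Fr X K) (w : F.Lb → ℝ) (hw : ∀ a, 0 ≤ w a ∧ w a ≤ 1)
    (L : Finset (Bk X)) (v : Pl K) :
    ff F.toFr0 w L v ≤ ((Fintype.card (Bk X) * (X.N * F.d) : ℕ) : ℝ) := by
  unfold ff
  calc ∑ q ∈ GG F.toFr0 L v, w q.2 / 3 ≤ ∑ _q ∈ GG F.toFr0 L v, (1 : ℝ) := by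
        refine Finset.sum_le_sum fun q _ => ?_
        have h1 := (hw q.2).1
        have h2 := (hw q.2).2
        linarith
    _ = ((GG F.toFr0 L v).card : ℝ) := by
        rw [Finset.sum_const, nsmul_eq_mul, mul_one]
    _ ≤ _ := by exact_mod_cast gg_card F L v

private theorem ff_sum (F : Fr X K) (w : F.Lb → ℝ) (hw : ∀ a, 0 ≤ w a ∧ w a ≤ 1)
    (L : Finset (Bk X)) (Y' Y : ℝ) (hY : Y' ≤ Y) :
    ∑ v ∈ H57.AN.PB K Y', ff F.toFr0 w L v / nm v ≤ ∑ β ∈ L, Ms F.toFr0 w β.1.1.1 Y / 3 := by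
  have h1 : ∀ v ∈ H57.AN.PB K Y', ff F.toFr0 w L v / nm v =
      ∑ q ∈ GG F.toFr0 L v, w q.2 / 3 / nm q.2.2 := by
    intro v _
    unfold ff
    rw [Finset.sum_div]
    refine Finset.sum_congr rfl fun q hq => ?_
    rw [mem_GG] at hq
    rw [gd_nm F q.2 hq.2.2.1, hq.2.1]
  rw [Finset.sum_congr rfl h1, ← Finset.sum_biUnion]
  · have h2 : ∑ β ∈ L, Ms F.toFr0 w β.1.1.1 Y / 3 =
        ∑ q ∈ L.sigma (fun β : Bk X => (F.lbfin Y).toFinset.filter fun a => a.1 = β.1.1.1 ∧ F.Gd a),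
          w q.2 / 3 / nm q.2.2 := by
      rw [Finset.sum_sigma]
      refine Finset.sum_congr rfl fun β _ => ?_
      unfold Ms
      rw [Finset.sum_div]
      refine Finset.sum_congr rfl fun a _ => ?_
      change w a / (nm a.2 : ℝ) / 3 = w a / 3 / (nm a.2 : ℝ)
      rw [div_right_comm]
    rw [h2]
    refine Finset.sum_le_sum_of_subset_of_nonneg ?_ fun q _ _ => by
      have h3 := (hw q.2).1
      positivity
    intro q hq
    rw [Finset.mem_biUnion] at hq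
    obtain ⟨v, hv, hq⟩ := hq
    rw [mem_GG] at hq
    obtain ⟨h3, h4, h5, h6⟩ := hq
    rw [Finset.mem_sigma, Finset.mem_filter, Set.Finite.mem_toFinset]
    refine ⟨h3, ?_, h6, h5⟩
    rw [H57.AN.mem_PB] at hv
    change (nm q.2.2 : ℝ) ≤ Y
    rw [gd_nm F q.2 h5, h4]
    exact hv.trans hY
  · intro v _ v' _ hne
    rw [Function.onFun, Finset.disjoint_left]
    intro q hq hq'
    rw [mem_GG] at hq hq'
    exact hne (hq.2.1.symm.trans hq'.2.1)

private theorem rb_ok (F : Fr0 X K) (L : Finset (Bk X)) (u : Bk X → Finset F.Lb) (hu : BOk F u) :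
    BOk F (rb F L u) := by
  obtain ⟨h1, h2, h3⟩ := hu
  refine ⟨fun β a ha => ?_, fun β => ?_, fun β β' h => ?_⟩
  · unfold rb at ha
    split_ifs at ha with h4
    · exact h1 β a ha
    · exact absurd ha (Finset.notMem_empty _)
  · unfold rb
    split_ifs with h4
    · exact h2 β
    · exact ⟨fun a ha => absurd ha (Finset.notMem_empty _), fun a ha => absurd ha (Finset.notMem_empty _)⟩
  · refine Disjoint.mono ?_ ?_ (h3 β β' h)
    · unfold rb Fr0.und
      split_ifs with h4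
      · exact le_rfl
      · rw [Finset.image_empty]
        exact Finset.empty_subset _
    · unfold rb Fr0.und
      split_ifs with h4
      · exact le_rfl
      · rw [Finset.image_empty]
        exact Finset.empty_subset _

private theorem nrb_rb (F : Fr0 X K) (L : Finset (Bk X)) (u : Bk X → Finset F.Lb) :
    nrb F (rb F L u) = ∏ β ∈ L, F.nrl (u β) := by
  unfold nrb
  have h1 : ∀ β ∈ (Finset.univ : Finset (Bk X)), F.nrl (rb F L u β) =
      if β ∈ L then F.nrl (u β) else 1 := by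
    intro β _
    unfold rb
    split_ifs with h
    · rfl
    · unfold Fr0.nrl
      rw [Finset.prod_empty]
  rw [Finset.prod_congr rfl h1, Finset.prod_ite_mem, Finset.univ_inter]

/-- the sum over one fibre -/
private theorem cnb_fib (F : Fr X K) (w : F.Lb → ℝ) (hw : ∀ a, 0 ≤ w a ∧ w a ≤ 1)
    (L : Finset (Bk X)) (Y : ℝ) (ρ : Bk X → Finset F.Lb) (U : Finset (Bk X → Finset F.Lb))
    (hU : ∀ u ∈ U, BOk F.toFr0 u ∧ nrb F.toFr0 u ≤ Y ∧ rb F.toFr0 Lᶜ u = ρ) :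
    ∑ u ∈ U, am F.toFr0 w u ≤
      ∑ s ∈ AF K (Y / nrb F.toFr0 ρ), ∏ v ∈ s, ff F.toFr0 w L v := by
  have h1 : ∀ u ∈ U, am F.toFr0 w u ≤ ∏ q ∈ L.sigma u, w q.2 / 3 := by
    intro u _
    rw [Finset.prod_sigma]
    unfold am
    rw [← Finset.prod_mul_prod_compl L]
    have h2 : ∀ T : Finset (Bk X), 0 ≤ ∏ β ∈ T, ∏ a ∈ u β, w a / 3 := fun T =>
      Finset.prod_nonneg fun β _ => Finset.prod_nonneg fun a _ => div_nonneg (hw a).1 (by norm_num)
    have h3 : ∏ β ∈ Lᶜ, ∏ a ∈ u β, w a / 3 ≤ 1 := by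
      refine Finset.prod_le_one (fun β _ => Finset.prod_nonneg fun a _ => div_nonneg (hw a).1 (by norm_num))
        fun β _ => ?_
      refine Finset.prod_le_one (fun a _ => div_nonneg (hw a).1 (by norm_num)) fun a _ => ?_
      have h4 := (hw a).2
      have h5 := (hw a).1
      linarith
    exact mul_le_of_le_one_right (h2 L) h3
  refine (Finset.sum_le_sum h1).trans ?_
  have hinj : Set.InjOn (fun u : Bk X → Finset F.Lb => L.sigma u) (U : Set (Bk X → Finset F.Lb)) := by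
    intro u hu u' hu' he
    have he' : L.sigma u = L.sigma u' := he
    funext β
    by_cases hβ : β ∈ L
    · ext a
      have h2 : (⟨β, a⟩ : Σ _ : Bk X, F.Lb) ∈ L.sigma u ↔ (⟨β, a⟩ : Σ _ : Bk X, F.Lb) ∈ L.sigma u' := by
        rw [he']
      rw [Finset.mem_sigma, Finset.mem_sigma] at h2
      exact ⟨fun h => (h2.1 ⟨hβ, h⟩).2, fun h => (h2.2 ⟨hβ, h⟩).2⟩
    · have h2 := congrFun (hU u hu).2.2 β
      have h3 := congrFun (hU u' hu').2.2 β
      unfold rb at h2 h3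
      rw [if_pos (Finset.mem_compl.2 hβ)] at h2 h3
      rw [h2, h3]
  have himg : ∑ P ∈ U.image (fun u : Bk X → Finset F.Lb => L.sigma u), ∏ q ∈ P, w q.2 / 3 =
      ∑ u ∈ U, ∏ q ∈ L.sigma u, w q.2 / 3 := Finset.sum_image hinj
  rw [← himg]
  have hin : ∀ u ∈ U, ∀ q ∈ L.sigma u, ∀ q' ∈ L.sigma u, F.un q.2 = F.un q'.2 → q = q' := by
    intro u hu q hq q' hq' he
    have hb := (hU u hu).1
    have hok := bok_ok F.toFr0 u hb
    rw [Finset.mem_sigma] at hq hq'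
    obtain ⟨β, a⟩ := q
    obtain ⟨β', a'⟩ := q'
    have ha : a ∈ BU F.toFr0 u := Finset.mem_biUnion.2 ⟨β, Finset.mem_univ _, hq.2⟩
    have ha' : a' ∈ BU F.toFr0 u := Finset.mem_biUnion.2 ⟨β', Finset.mem_univ _, hq'.2⟩
    have haa : a = a' := by
      by_contra hne
      exact hok.2 a ha a' ha' hne he
    subst haa
    have hββ : β = β' := by
      by_contra hne
      exact Finset.disjoint_left.1 (bok_dis F.toFr0 u hb β β' hne) hq.2 hq'.2
    subst hββ
    rfl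
  unfold ff
  refine cnb_abs (fun q : Σ _ : Bk X, F.Lb => F.un q.2) (fun q => w q.2 / 3)
    (fun q => div_nonneg (hw q.2).1 (by norm_num)) (GG F.toFr0 L) ?_ _ _ ?_ ?_ ?_
  · intro v q hq
    exact ((mem_GG F L v q).1 hq).2.1
  · intro P hP q hq
    obtain ⟨u, hu, rfl⟩ := Finset.mem_image.1 hP
    have hb := (hU u hu).1
    rw [Finset.mem_sigma] at hq
    rw [mem_GG]
    exact ⟨hq.1, rfl, (hb.2.1 q.1).1 q.2 hq.2, hb.1 q.1 q.2 hq.2⟩
  · intro P hP q hq q' hq' he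
    obtain ⟨u, hu, rfl⟩ := Finset.mem_image.1 hP
    exact hin u hu q hq q' hq' he
  · intro P hP
    obtain ⟨u, hu, rfl⟩ := Finset.mem_image.1 hP
    obtain ⟨hb, hn, hr⟩ := hU u hu
    rw [mem_AF]
    have h2 : nr ((L.sigma u).image fun q : Σ _ : Bk X, F.Lb => F.un q.2) = ∏ β ∈ L, F.nrl (u β) := by
      unfold H63.MA.nr
      rw [Finset.prod_image (fun q hq q' hq' he => hin u hu q hq q' hq' he), Finset.prod_sigma]
      refine Finset.prod_congr rfl fun β _ => ?_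
      unfold Fr0.nrl
      refine Finset.prod_congr rfl fun a ha => ?_
      rw [gd_nm F a ((hb.2.1 β).1 a ha)]
    have h3 : nrb F.toFr0 u = (∏ β ∈ L, F.nrl (u β)) * nrb F.toFr0 ρ := by
      rw [← hr, nrb_rb]
      unfold nrb
      rw [Finset.prod_mul_prod_compl L]
    have h4 : 0 < nrb F.toFr0 ρ := lt_of_lt_of_le one_pos (one_le_nrb F.toFr0 ρ)
    rw [h2, le_div_iff₀ h4, ← h3]
    exact hn

/-- the comparison of the sizes -/
private theorem cnb_size {Y n : ℝ} (hY : 3 ≤ Y) (hn : 1 ≤ n) (hn2 : n ^ 2 ≤ Y) :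
    max (Y / n) 2 / Real.log (max (Y / n) 2) ≤ 6 * (1 / n * (Y / Real.log Y)) := by
  have hn0 : 0 < n := by linarith
  have hY0 : 0 < Y := by linarith
  have hlY : 0 < Real.log Y := Real.log_pos (by linarith)
  set y : ℝ := Y / n with hy
  have hy0 : 0 < y := div_pos hY0 hn0
  have hyy : Y ≤ y ^ 2 := by
    rw [hy, div_pow, le_div_iff₀ (by positivity)]
    nlinarith
  have hl : Real.log Y ≤ 2 * Real.log y := by
    have h1 := Real.log_le_log hY0 hyy
    rwa [Real.log_pow] at h1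
  have he : 6 * (1 / n * (Y / Real.log Y)) = 6 * y / Real.log Y := by
    rw [hy]
    field_simp
  rw [he]
  rcases le_total 2 y with h2 | h2
  · rw [max_eq_left h2]
    have hly : 0 < Real.log y := Real.log_pos (by linarith)
    rw [div_le_div_iff₀ hly hlY]
    nlinarith
  · rw [max_eq_right h2]
    have h3 : Real.log y ≤ y - 1 := Real.log_le_sub_one_of_pos hy0
    have h4 : Real.log Y ≤ 2 * y := by linarith
    have h5 : (0.69 : ℝ) < Real.log 2 := by
      have := Real.log_two_gt_d9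
      linarith
    rw [div_le_div_iff₀ (by linarith) hlY]
    nlinarith

theorem cnb (F : Fr X K) (w : F.Lb → ℝ) (hw : ∀ a, 0 ≤ w a ∧ w a ≤ 1) : ∃ (C : ℝ) (A : ℕ), 1 ≤ C ∧
    ∀ (Z : ℝ) (R k : ℕ) (L : Finset (Bk X)), 1 ≤ Z → 1 ≤ R → ∀ Y : ℝ, 3 ≤ Y →
      lv Z R k ^ (2 * Fintype.card (Bk X)) ≤ Y →
      (∑ u ∈ BF F.toFr0 Y, if ∀ β, β ∉ L → F.nrl (u β) ≤ lv Z R k then am F.toFr0 w u else 0) ≤
        C * (1 + Real.log (lv Z R k)) ^ A * (Y / Real.log Y) *
          Real.exp (∑ β ∈ L, Ms F.toFr0 w β.1.1.1 Y / 3) := by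
  obtain ⟨C₁, hC₁, hub⟩ := H57.AN.ub K ((Fintype.card (Bk X) * (X.N * F.d) : ℕ) : ℝ) (Nat.cast_nonneg _)
  obtain ⟨C₂, A, hC₂, htr⟩ := trb F
  set M : ℕ := Fintype.card (Bk X) with hM
  have hM1 : (1 : ℝ) ≤ ((M : ℝ) + 1) ^ A := one_le_pow₀ (by
    have : (0 : ℝ) ≤ M := Nat.cast_nonneg _
    linarith)
  refine ⟨6 * C₁ * C₂ * ((M : ℝ) + 1) ^ A, A, ?_, ?_⟩
  · have h1 : 1 ≤ C₁ * C₂ := one_le_mul_of_one_le_of_one_le hC₁ hC₂
    nlinarith
  intro Z R k L hZ hR Y hY hx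
  set x : ℝ := lv Z R k with hxd
  have hx1 : 1 ≤ x := by
    rw [hxd]
    unfold lv
    exact one_le_pow₀ hZ
  have hxM : 1 ≤ x ^ M := one_le_pow₀ hx1
  have hY0 : 0 < Y := by linarith
  have hlY : 0 < Real.log Y := Real.log_pos (by linarith)
  set E : ℝ := Real.exp (∑ β ∈ L, Ms F.toFr0 w β.1.1.1 Y / 3) with hE
  have hE0 : 0 < E := Real.exp_pos _
  rw [← Finset.sum_filter]
  set U : Finset (Bk X → Finset F.Lb) :=
    (BF F.toFr0 Y).filter fun u => ∀ β, β ∉ L → F.nrl (u β) ≤ x with hUd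
  have hmaps : ∀ u ∈ U, rb F.toFr0 Lᶜ u ∈ BF F.toFr0 (x ^ M) := by
    intro u hu
    obtain ⟨h1, h2⟩ := Finset.mem_filter.1 hu
    rw [mem_BF] at h1 ⊢
    refine ⟨rb_ok F.toFr0 _ u h1.1, ?_⟩
    unfold nrb
    calc ∏ β, F.nrl (rb F.toFr0 Lᶜ u β) ≤ ∏ _β : Bk X, x := by
          refine Finset.prod_le_prod (fun β _ => zero_le_one.trans (F.one_le_nrl _)) fun β _ => ?_
          unfold rb
          split_ifs with h
          · exact h2 β (Finset.mem_compl.1 h)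
          · unfold Fr0.nrl
            rw [Finset.prod_empty]
            exact hx1
      _ = x ^ M := by rw [Finset.prod_const, Finset.card_univ]
  rw [← Finset.sum_fiberwise_of_maps_to hmaps]
  have hfib : ∀ ρ ∈ BF F.toFr0 (x ^ M), ∑ u ∈ U.filter (fun u => rb F.toFr0 Lᶜ u = ρ), am F.toFr0 w u ≤
      6 * C₁ * (Y / Real.log Y) * E * (1 / nrb F.toFr0 ρ) := by
    intro ρ hρ
    rw [mem_BF] at hρ
    have hn1 := one_le_nrb F.toFr0 ρ
    have hn0 : 0 < nrb F.toFr0 ρ := by linarith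
    have hn2 : nrb F.toFr0 ρ ^ 2 ≤ Y := by
      calc nrb F.toFr0 ρ ^ 2 ≤ (x ^ M) ^ 2 := pow_le_pow_left₀ hn0.le hρ.2 2
        _ = x ^ (2 * M) := by rw [← pow_mul, mul_comm]
        _ ≤ Y := hx
    have h1 := cnb_fib F w hw L Y ρ (U.filter fun u => rb F.toFr0 Lᶜ u = ρ) (by
      intro u hu
      obtain ⟨h2, h3⟩ := Finset.mem_filter.1 hu
      have h4 := (mem_BF F.toFr0 Y u).1 (Finset.mem_filter.1 h2).1
      exact ⟨h4.1, h4.2, h3⟩)
    refine h1.trans ?_
    set y : ℝ := max (Y / nrb F.toFr0 ρ) 2 with hy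
    have hy2 : 2 ≤ y := le_max_right _ _
    have hyY : y ≤ Y := max_le (div_le_self hY0.le hn1) (by linarith)
    have h5 : ∑ s ∈ AF K (Y / nrb F.toFr0 ρ), ∏ v ∈ s, ff F.toFr0 w L v ≤
        ∑ s ∈ AF K y, ∏ v ∈ s, ff F.toFr0 w L v := by
      refine Finset.sum_le_sum_of_subset_of_nonneg ?_ fun s _ _ =>
        Finset.prod_nonneg fun v _ => ff_nn F.toFr0 w hw L v
      intro s hs
      rw [mem_AF] at hs ⊢
      exact hs.trans (le_max_left _ _)
    refine h5.trans ?_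
    have h6 := hub (ff F.toFr0 w L) (fun v => ⟨ff_nn F.toFr0 w hw L v, ff_le F w hw L v⟩) y hy2
    refine h6.trans ?_
    have h7 : Real.exp (∑ v ∈ H57.AN.PB K y, ff F.toFr0 w L v / nm v) ≤ E :=
      Real.exp_le_exp.2 (ff_sum F w hw L y Y hyY)
    have h8 := cnb_size hY hn1 hn2
    rw [← hy] at h8
    have hly : 0 < Real.log y := Real.log_pos (by linarith)
    have h9 : 0 ≤ y / Real.log y := by positivity
    have hC0 : 0 ≤ C₁ := by linarith
    calc C₁ * (y / Real.log y) * Real.exp (∑ v ∈ H57.AN.PB K y, ff F.toFr0 w L v / nm v)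
        ≤ C₁ * (6 * (1 / nrb F.toFr0 ρ * (Y / Real.log Y))) * E := by
          refine mul_le_mul (mul_le_mul_of_nonneg_left h8 hC0) h7 (Real.exp_pos _).le ?_
          positivity
      _ = 6 * C₁ * (Y / Real.log Y) * E * (1 / nrb F.toFr0 ρ) := by ring
  refine (Finset.sum_le_sum hfib).trans ?_
  rw [← Finset.mul_sum]
  have h2 := (htr (x ^ M) hxM).2
  have hlx : 0 ≤ Real.log x := Real.log_nonneg hx1
  have h3 : 1 + Real.log (x ^ M) ≤ ((M : ℝ) + 1) * (1 + Real.log x) := by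
    rw [Real.log_pow]
    have hM0 : (0 : ℝ) ≤ M := Nat.cast_nonneg _
    nlinarith
  have h4 : 0 ≤ 1 + Real.log (x ^ M) := by
    have := Real.log_nonneg hxM
    linarith
  have h5 : (1 + Real.log (x ^ M)) ^ A ≤ ((M : ℝ) + 1) ^ A * (1 + Real.log x) ^ A := by
    rw [← mul_pow]
    exact pow_le_pow_left₀ h4 h3 A
  have hC0 : 0 ≤ C₁ := by linarith
  have hC0' : 0 ≤ C₂ := by linarith
  calc 6 * C₁ * (Y / Real.log Y) * E * ∑ ρ ∈ BF F.toFr0 (x ^ M), 1 / nrb F.toFr0 ρ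
      ≤ 6 * C₁ * (Y / Real.log Y) * E * (C₂ * (((M : ℝ) + 1) ^ A * (1 + Real.log x) ^ A)) := by
        refine mul_le_mul_of_nonneg_left (h2.trans (mul_le_mul_of_nonneg_left h5 hC0')) ?_
        positivity
    _ = 6 * C₁ * C₂ * ((M : ℝ) + 1) ^ A * (1 + Real.log x) ^ A * (Y / Real.log Y) * E := by ring

end H51.MS
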