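import Pool.Agent.H51.MM.Lim
import Pool.Agent.H51.MM.Gf

/-!
# H51/MS: bilinear phases on a frame (stage 2 of theorem (M), MP_b39724_nt): definitions

* `Bl F`: states `st a` of the labels (a finite set), the phase `P b a` of a pair, `lk i j θ` (linked: `θ` minus the phase is not zero on the pairs of classes `i`, `j`).
* `Or B`: an order of the labels; the order of labels of different states depends only on the states.
* `Bk X`: the blocks `(τ, r)`, `τ` a type, `r < 3`. `BOk u`: families of blocks over different places; `BU u` the union; `nrb u` the norm; `BF Y`: those of norm at most `Y`.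
* `prf g`: the numbers of labels of each state modulo `m`. `pph O g`: the sum of the phases of the pairs. `Bg Z g`: all classes of `g` have norm `> Z`.
* `PS`: the sum over the families with all classes large. `bt u`: the part of a block family.
* `Cb Z R k L u`: `k` is the first gap, `L` the set of the large blocks. `SB`: the part of the sum over block families.
-/

set_option autoImplicit false

open scoped NumberField
open IsDedekindDomain NumberField H63.MA H36.QA Filter Topology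
open scoped Classical

noncomputable section

namespace H51.MS

open H51.MM

variable {X : CD} {K : Type} [Field K] [NumberField K]

/-- bilinear data of a frame -/
structure Bl (F : Fr X K) where
  St : Type
  [fS : Fintype St]
  st : F.Lb → St
  P : F.Lb → F.Lb → ZMod X.p
  lk : Fin X.N → Fin X.N → (Fin X.w → ZMod X.p) → Prop
  lk_symm : ∀ i j θ, lk i j θ → lk j i (-θ)
  lk_sub : ∀ i j θ θ', ¬ lk i j θ → ¬ lk i j θ' → X.van i j (θ - θ')
  lk_add : ∀ i j θ θ', ¬ lk i j θ → X.van i j θ' → ¬ lk i j (θ + θ')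
  Xs : St → St → Fin X.w → ZMod X.p
  sym_s : ∀ a b : F.Lb, F.Gd a → F.Gd b → F.un a ≠ F.un b → F.s a b + F.s b a = Xs (st a) (st b)
  Xp : St → St → ZMod X.p
  sym_P : ∀ a b : F.Lb, F.Gd a → F.Gd b → F.un a ≠ F.un b → P b a = P a b + Xp (st a) (st b)
  Xp_self : ∀ x, Xp x x = 0
  D' : ℝ
  one_le_D' : 1 ≤ D'
  d' : ℕ
  chr : ∀ (i j : Fin X.N) (θ : Fin X.w → ZMod X.p) (h : Finset F.Lb), F.Ok h → (∀ b ∈ h, b.1 = j) →
    ∃ (𝔣 : Ideal (𝓞 (F.L i))) (χ : RC (F.L i) 𝔣), 𝔣 ≠ ⊥ ∧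
      (Ideal.absNorm 𝔣 : ℝ) ≤ D' * nr (F.und h) ^ d' ∧
      ∀ a : Pl (F.L i), F.Gd ⟨i, a⟩ → F.un ⟨i, a⟩ ∉ F.und h →
        χ.χ a.asIdeal = ep X.p (∑ b ∈ h, (θ ⬝ᵥ F.s ⟨i, a⟩ b + P b ⟨i, a⟩))
  sep : ∀ (i j : Fin X.N) (θ : Fin X.w → ZMod X.p), lk i j θ → ∀ h₁ h₂ : Finset F.Lb,
    F.Ok h₁ → F.Ok h₂ → (∀ b ∈ h₁, b.1 = j) → (∀ b ∈ h₂, b.1 = j) → F.und h₁ ≠ F.und h₂ →
    ∃ a : Pl (F.L i), F.Gd ⟨i, a⟩ ∧ F.un ⟨i, a⟩ ∉ F.und h₁ ∧ F.un ⟨i, a⟩ ∉ F.und h₂ ∧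
      ∑ b ∈ h₁, (θ ⬝ᵥ F.s ⟨i, a⟩ b + P b ⟨i, a⟩) ≠ ∑ b ∈ h₂, (θ ⬝ᵥ F.s ⟨i, a⟩ b + P b ⟨i, a⟩)

attribute [instance] Bl.fS

/-- an order of the labels -/
structure Or {F : Fr X K} (B : Bl F) where
  lt : F.Lb → F.Lb → Prop
  tot : ∀ a b, F.un a ≠ F.un b → (lt a b ↔ ¬ lt b a)
  sto : ∀ a b a' b', B.st a = B.st a' → B.st b = B.st b' → B.st a ≠ B.st b → (lt a b ↔ lt a' b')

/-- aligned data -/
def Bl.Al {F : Fr X K} (B : Bl F) : Prop :=
  ∃ f : Fin X.N → Fin X.w → ZMod X.p, (∀ i, f i ∈ X.Th i) ∧ ∀ i j, ¬ B.lk i j (f i - f j)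

/-- blocks -/
abbrev Bk (X : CD) : Type := X.Ty × Fin 3

/-- linked blocks -/
def Bl.bl {F : Fr X K} (B : Bl F) (β β' : Bk X) : Prop :=
  β ≠ β' ∧ B.lk β.1.1.1 β'.1.1.1 (β.1.1.2 - β'.1.1.2)

section blocks

variable (F : Fr0 X K)

/-- families of blocks -/
def BOk (u : Bk X → Finset F.Lb) : Prop :=
  (∀ β, ∀ a ∈ u β, a.1 = β.1.1.1) ∧ (∀ β, F.Ok (u β)) ∧
    ∀ β β', β ≠ β' → Disjoint (F.und (u β)) (F.und (u β'))

/-- the union -/
def BU (u : Bk X → Finset F.Lb) : Finset F.Lb := Finset.univ.biUnion u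

/-- the norm -/
def nrb (u : Bk X → Finset F.Lb) : ℝ := ∏ β, F.nrl (u β)

theorem one_le_nrb (u : Bk X → Finset F.Lb) : 1 ≤ nrb F u :=
  Finset.one_le_prod fun _ _ => F.one_le_nrl _

theorem nrl_le_nrb (u : Bk X → Finset F.Lb) (β : Bk X) : F.nrl (u β) ≤ nrb F u := by
  unfold nrb
  rw [← Finset.mul_prod_erase Finset.univ _ (Finset.mem_univ β)]
  have h1 : 1 ≤ ∏ x ∈ Finset.univ.erase β, F.nrl (u x) :=
    Finset.one_le_prod fun _ _ => F.one_le_nrl _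
  have h2 := F.one_le_nrl (u β)
  nlinarith

theorem bffin (Y : ℝ) : {u : Bk X → Finset F.Lb | BOk F u ∧ nrb F u ≤ Y}.Finite := by
  refine (Fintype.piFinset fun _ : Bk X => (F.lbfin Y).toFinset.powerset).finite_toSet.subset ?_
  rintro u ⟨-, h⟩
  rw [Finset.mem_coe, Fintype.mem_piFinset]
  intro τ
  rw [Finset.mem_powerset]
  intro a ha
  rw [Set.Finite.mem_toFinset]
  exact (F.le_nrl (u τ) a ha).trans ((nrl_le_nrb F u τ).trans h)

/-- the families of blocks of norm at most `Y` -/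
def BF (Y : ℝ) : Finset (Bk X → Finset F.Lb) := (bffin F Y).toFinset

theorem mem_BF (Y : ℝ) (u : Bk X → Finset F.Lb) : u ∈ BF F Y ↔ BOk F u ∧ nrb F u ≤ Y := by
  unfold BF
  rw [Set.Finite.mem_toFinset]
  rfl

/-- the labels of class `i` -/
def cl (i : Fin X.N) (g : Finset F.Lb) : Finset F.Lb := g.filter fun a => a.1 = i

/-- all classes are large -/
def Bg (Z : ℝ) (g : Finset F.Lb) : Prop := ∀ i, Z < F.nrl (cl F i g)

/-- the part of `u` in `L` -/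
def rb (L : Finset (Bk X)) (u : Bk X → Finset F.Lb) (β : Bk X) : Finset F.Lb :=
  if β ∈ L then u β else ∅

/-- `k` is the first gap, `L` the set of large blocks -/
def Cb (Z : ℝ) (R k : ℕ) (L : Finset (Bk X)) (u : Bk X → Finset F.Lb) : Prop :=
  (∀ β ∈ L, lv Z R (k + 1) < F.nrl (u β)) ∧ (∀ β, β ∉ L → F.nrl (u β) ≤ lv Z R k) ∧
    ∀ k' < k, ∃ β, β ∉ L ∧ lv Z R k' < F.nrl (u β) ∧ F.nrl (u β) ≤ lv Z R (k' + 1)

/-- the weight of a family of blocks -/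
def am (w : F.Lb → ℝ) (u : Bk X → Finset F.Lb) : ℝ := ∏ β, ∏ a ∈ u β, w a / 3

end blocks

section phase

variable {F : Fr X K} (B : Bl F)

/-- the profile -/
def prf (m : ℕ) (g : Finset F.Lb) (x : B.St) : ZMod m := ((g.filter fun a => B.st a = x).card : ZMod m)

/-- the phase of the pairs -/
def pph (O : Or B) (g : Finset F.Lb) : ZMod X.p :=
  ∑ a ∈ g, ∑ b ∈ g, if F.un a ≠ F.un b ∧ O.lt a b then B.P b a else 0

/-- the sum over the families with all classes large -/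
def PS (O : Or B) (m : ℕ) (c : F.C) (w : F.Lb → ℝ) (s : F.Lb → ZMod X.p)
    (H : (F.R → ZMod X.p) → (B.St → ZMod m) → ℂ) (Z Y : ℝ) : ℂ :=
  ∑ g ∈ F.Fam Finset.univ Y, if Bg F.toFr0 Z g then
    ((∏ a ∈ g, w a : ℝ) : ℂ) * F.wt c g * H (F.tot g) (prf B m g) * ep X.p (pph B O g + ∑ a ∈ g, s a)
  else 0

/-- the phase of a family of blocks -/
def pb (O : Or B) (c : F.C) (s : F.Lb → ZMod X.p) (u : Bk X → Finset F.Lb) : ZMod X.p :=
  ∑ β : Bk X, ∑ a ∈ u β, β.1.1.2 ⬝ᵥ F.E c (BU F.toFr0 u) a + pph B O (BU F.toFr0 u) +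
    ∑ a ∈ BU F.toFr0 u, s a

/-- the part of the sum over block families with given gap and large blocks -/
def SB (O : Or B) (m : ℕ) (c : F.C) (w : F.Lb → ℝ) (s : F.Lb → ZMod X.p)
    (H : (F.R → ZMod X.p) → (B.St → ZMod m) → ℂ) (Z₁ Z : ℝ) (R k : ℕ) (L : Finset (Bk X)) (Y : ℝ) : ℂ :=
  ∑ u ∈ BF F.toFr0 Y, if Cb F.toFr0 Z R k L u ∧ Bg F.toFr0 Z₁ (BU F.toFr0 u) then
    ((am F.toFr0 w u : ℝ) : ℂ) * H (F.tot (BU F.toFr0 u)) (prf B m (BU F.toFr0 u)) *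
      ep X.p (pb B O c s u)
  else 0

end phase

end H51.MS
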