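import Pool.Agent.H51.MS.Defs

/-!
# [H51 MS EXN] The sum over families as a sum over families of blocks (120-180 lines)

Model: `fs_exp` (Pool/Agent/H51/MM/Exp.lean) with blocks `(τ, r)` instead of types. `wt c g = ∏ a ∈ g, ∑ ψ ∈ Th a.1, ep (ψ ⬝ᵥ E c g a)`; `w a * ∑_ψ x_ψ = ∑_{(ψ, r)} (w a / 3) x_ψ`, a product of sums over the
blocks of class `a.1` (`Finset.prod_sum` or `Finset.prod_univ_sum`), and the choices of a block of class `a.1` for every `a ∈ g` are the `u ∈ BF` with `BU u = g` (`nrb u = nrl g`; `g ↦ u` with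
`u β` the set of the `a ∈ g` with choice `β`).
* `bok_ok`, `bok_nr`: as `tok_ok`, `tok_nr`.
-/

set_option autoImplicit false

open scoped NumberField
open IsDedekindDomain NumberField H63.MA H36.QA Filter Topology
open scoped Classical

noncomputable section

namespace H51.MS

open H51.MM

variable {X : CD} {K : Type} [Field K] [NumberField K]

theorem bok_ok (F : Fr0 X K) (u : Bk X → Finset F.Lb) (hu : BOk F u) : F.Ok (BU F u) := by
  obtain ⟨-, h2, h3⟩ := hu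
  refine ⟨fun a ha => ?_, fun a ha b hb hab => ?_⟩
  · unfold BU at ha
    rw [Finset.mem_biUnion] at ha
    obtain ⟨τ, -, ha⟩ := ha
    exact (h2 τ).1 a ha
  · unfold BU at ha hb
    rw [Finset.mem_biUnion] at ha hb
    obtain ⟨τ, -, ha⟩ := ha
    obtain ⟨τ', -, hb⟩ := hb
    by_cases hτ : τ = τ'
    · subst hτ
      exact (h2 τ).2 a ha b hb hab
    · intro he
      have h4 := h3 τ τ' hτ
      rw [Finset.disjoint_left] at h4
      refine h4 (a := F.un a) (Finset.mem_image_of_mem _ ha) ?_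
      rw [he]
      exact Finset.mem_image_of_mem _ hb

theorem bok_dis (F : Fr0 X K) (u : Bk X → Finset F.Lb) (hu : BOk F u) (β β' : Bk X) (h : β ≠ β') :
    Disjoint (u β) (u β') := by
  have h4 := hu.2.2 β β' h
  rw [Finset.disjoint_left] at h4 ⊢
  intro a ha hb
  exact h4 (Finset.mem_image_of_mem F.un ha) (Finset.mem_image_of_mem F.un hb)

theorem bok_nr (F : Fr0 X K) (u : Bk X → Finset F.Lb) (hu : BOk F u) : F.nrl (BU F u) = nrb F u := by
  unfold Fr0.nrl BU nrb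
  rw [Finset.prod_biUnion]
  · rfl
  · intro τ _ τ' _ h
    exact bok_dis F u hu τ τ' h

private theorem exp_ep {p : ℕ} (hp : p.Prime) {ι : Type} (s : Finset ι) (f : ι → ZMod p) :
    ∏ a ∈ s, ep p (f a) = ep p (∑ a ∈ s, f a) := by
  induction s using Finset.induction_on with
  | empty => rw [Finset.prod_empty, Finset.sum_empty, ep_zero]
  | insert a s ha ih => rw [Finset.prod_insert ha, Finset.sum_insert ha, ep_add hp, ih]

/-- the block family of a choice of functionals and indices -/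
private def uu (F : Fr0 X K) (g : Finset F.Lb) (Ψ : ∀ a ∈ g, (Fin X.w → ZMod X.p) × Fin 3)
    (β : Bk X) : Finset F.Lb :=
  g.filter fun a => ∃ h : a ∈ g, a.1 = β.1.1.1 ∧ Ψ a h = (β.1.1.2, β.2)

private theorem mem_uu (F : Fr0 X K) (g : Finset F.Lb)
    (Ψ : ∀ a ∈ g, (Fin X.w → ZMod X.p) × Fin 3) (β : Bk X)
    (a : F.Lb) : a ∈ uu F g Ψ β ↔ ∃ h : a ∈ g, a.1 = β.1.1.1 ∧ Ψ a h = (β.1.1.2, β.2) := by
  unfold uu
  rw [Finset.mem_filter]
  exact ⟨fun h => h.2, fun h => ⟨h.1, h⟩⟩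

private theorem U_uu (F : Fr0 X K) (g : Finset F.Lb) (Ψ : ∀ a ∈ g, (Fin X.w → ZMod X.p) × Fin 3)
    (hΨ : ∀ a (h : a ∈ g), (Ψ a h).1 ∈ X.Th a.1) : BU F (uu F g Ψ) = g := by
  ext a
  unfold BU
  rw [Finset.mem_biUnion]
  constructor
  · rintro ⟨τ, -, ha⟩
    rw [mem_uu] at ha
    exact ha.1
  · intro ha
    refine ⟨(⟨(a.1, (Ψ a ha).1), hΨ a ha⟩, (Ψ a ha).2), Finset.mem_univ _, ?_⟩
    rw [mem_uu]
    exact ⟨ha, rfl, rfl⟩

private theorem bk_ext {β β' : Bk X} (h1 : β.1.1.1 = β'.1.1.1) (h2 : β.1.1.2 = β'.1.1.2)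
    (h3 : β.2 = β'.2) : β = β' :=
  Prod.ext (Subtype.ext (Prod.ext h1 h2)) h3

private theorem tok_uu (F : Fr0 X K) (g : Finset F.Lb) (hg : F.Ok g)
    (Ψ : ∀ a ∈ g, (Fin X.w → ZMod X.p) × Fin 3) : BOk F (uu F g Ψ) := by
  refine ⟨fun τ a ha => ?_, fun τ => ⟨fun a ha => ?_, fun a ha b hb hab => ?_⟩, fun τ τ' h => ?_⟩
  · rw [mem_uu] at ha
    exact ha.2.1
  · rw [mem_uu] at ha
    exact hg.1 a ha.1
  · rw [mem_uu] at ha hb
    exact hg.2 a ha.1 b hb.1 hab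
  · rw [Finset.disjoint_left]
    intro v hv hv'
    unfold Fr0.und at hv hv'
    rw [Finset.mem_image] at hv hv'
    obtain ⟨a, ha, rfl⟩ := hv
    obtain ⟨b, hb, hab⟩ := hv'
    rw [mem_uu] at ha hb
    obtain ⟨ha0, ha1, ha2⟩ := ha
    obtain ⟨hb0, hb1, hb2⟩ := hb
    by_cases he : a = b
    · subst he
      have h5 := ha2.symm.trans hb2
      have h6 : τ.1.1.2 = τ'.1.1.2 ∧ τ.2 = τ'.2 := Prod.ext_iff.1 h5
      exact h (bk_ext (ha1.symm.trans hb1) h6.1 h6.2)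
    · exact hg.2 a ha0 b hb0 he hab.symm

private theorem wt_eq (F : Fr0 X K) (w : F.Lb → ℝ) (Y : ℝ) (c : F.C) (g : Finset F.Lb)
    (hg : g ∈ F.Fam Finset.univ Y) :
    ((∏ a ∈ g, w a : ℝ) : ℂ) * F.wt c g = ∑ u ∈ (BF F Y).filter fun u => BU F u = g,
      ((am F w u : ℝ) : ℂ) * ep X.p (∑ β : Bk X, ∑ a ∈ u β, β.1.1.2 ⬝ᵥ F.E c g a) := by
  rw [Fr0.mem_Fam] at hg
  obtain ⟨hg1, -, hg3⟩ := hg
  have h0 : ((∏ a ∈ g, w a : ℝ) : ℂ) * F.wt c g = ∏ a ∈ g, ∑ x ∈ X.Th a.1 ×ˢ (Finset.univ : Finset (Fin 3)),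
      ((w a / 3 : ℝ) : ℂ) * ep X.p (x.1 ⬝ᵥ F.E c g a) := by
    unfold Fr0.wt
    rw [Complex.ofReal_prod, ← Finset.prod_mul_distrib]
    refine Finset.prod_congr rfl fun a _ => ?_
    rw [Finset.sum_product, Finset.mul_sum]
    refine Finset.sum_congr rfl fun ψ _ => ?_
    change _ = ∑ y : Fin 3, ((w a / 3 : ℝ) : ℂ) * ep X.p (ψ ⬝ᵥ F.E c g a)
    rw [Finset.sum_const, Finset.card_univ, Fintype.card_fin]
    simp only [nsmul_eq_mul]
    push_cast
    ring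
  rw [h0, Finset.prod_sum]
  refine Finset.sum_bij (fun Ψ _ => uu F g Ψ) ?_ ?_ ?_ ?_
  · intro Ψ hΨ
    rw [Finset.mem_pi] at hΨ
    have hΨ' : ∀ a (h : a ∈ g), (Ψ a h).1 ∈ X.Th a.1 := fun a h => (Finset.mem_product.1 (hΨ a h)).1
    have hU := U_uu F g Ψ hΨ'
    rw [Finset.mem_filter, mem_BF]
    refine ⟨⟨tok_uu F g hg1 Ψ, ?_⟩, hU⟩
    rw [← bok_nr F _ (tok_uu F g hg1 Ψ), hU]
    exact hg3
  · intro Ψ hΨ Ψ' hΨ' he
    rw [Finset.mem_pi] at hΨ hΨ'
    funext a ha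
    have h1 : a ∈ uu F g Ψ (⟨(a.1, (Ψ a ha).1), (Finset.mem_product.1 (hΨ a ha)).1⟩, (Ψ a ha).2) := by
      rw [mem_uu]
      exact ⟨ha, rfl, rfl⟩
    have he' : uu F g Ψ = uu F g Ψ' := he
    rw [he', mem_uu] at h1
    exact h1.2.2.symm
  · intro u hu
    rw [Finset.mem_filter, mem_BF] at hu
    obtain ⟨⟨hu1, hu3⟩, hu4⟩ := hu
    have hex : ∀ a ∈ g, ∃ τ, a ∈ u τ := by
      intro a ha
      rw [← hu4] at ha
      unfold BU at ha
      rw [Finset.mem_biUnion] at ha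
      obtain ⟨τ, -, ha⟩ := ha
      exact ⟨τ, ha⟩
    choose T hT using hex
    refine ⟨fun a ha => ((T a ha).1.1.2, (T a ha).2), ?_, ?_⟩
    · rw [Finset.mem_pi]
      intro a ha
      rw [Finset.mem_product]
      refine ⟨?_, Finset.mem_univ _⟩
      rw [hu1.1 _ a (hT a ha)]
      exact (T a ha).1.2
    · funext τ
      ext a
      rw [mem_uu]
      constructor
      · rintro ⟨ha, h1, h2⟩
        have h6 : (T a ha).1.1.2 = τ.1.1.2 ∧ (T a ha).2 = τ.2 := Prod.ext_iff.1 h2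
        have h3 : T a ha = τ := bk_ext ((hu1.1 _ a (hT a ha)).symm.trans h1) h6.1 h6.2
        rw [← h3]
        exact hT a ha
      · intro ha
        have hag : a ∈ g := by
          rw [← hu4]
          unfold BU
          rw [Finset.mem_biUnion]
          exact ⟨τ, Finset.mem_univ _, ha⟩
        have h3 : T a hag = τ := by
          by_contra hne
          have h4 := bok_dis F u hu1 _ _ hne
          rw [Finset.disjoint_left] at h4
          exact h4 (hT a hag) ha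
        exact ⟨hag, hu1.1 τ a ha, by rw [h3]⟩
  · intro Ψ hΨ
    rw [Finset.mem_pi] at hΨ
    have hU := U_uu F g Ψ fun a h => (Finset.mem_product.1 (hΨ a h)).1
    have hdis : Set.PairwiseDisjoint ((Finset.univ : Finset (Bk X)) : Set (Bk X)) (uu F g Ψ) := by
      intro τ _ τ' _ h
      exact bok_dis F _ (tok_uu F g hg1 Ψ) τ τ' h
    rw [Finset.prod_mul_distrib, exp_ep X.hp]
    congr 1
    · rw [← Complex.ofReal_prod]
      congr 1
      unfold am
      rw [← Finset.prod_biUnion hdis]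
      have h2 : Finset.univ.biUnion (uu F g Ψ) = g := hU
      rw [h2, ← Finset.prod_attach g]
    · congr 1
      obtain ⟨f, hf⟩ : ∃ f : F.Lb → Fin X.w → ZMod X.p, ∀ a (h : a ∈ g), f a = (Ψ a h).1 :=
        ⟨fun a => if h : a ∈ g then (Ψ a h).1 else 0, fun a h => dif_pos h⟩
      have h1 : ∀ τ ∈ (Finset.univ : Finset (Bk X)), ∑ a ∈ uu F g Ψ τ, τ.1.1.2 ⬝ᵥ F.E c g a =
          ∑ a ∈ uu F g Ψ τ, f a ⬝ᵥ F.E c g a := by
        intro τ _
        refine Finset.sum_congr rfl fun a ha => ?_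
        rw [mem_uu] at ha
        obtain ⟨h2, -, h3⟩ := ha
        rw [hf a h2, h3]
      rw [Finset.sum_congr rfl h1, ← Finset.sum_biUnion hdis]
      have h2 : Finset.univ.biUnion (uu F g Ψ) = g := hU
      rw [h2, ← Finset.sum_attach g]
      refine Finset.sum_congr rfl fun a _ => ?_
      rw [hf a.1 a.2]

theorem exn (F : Fr X K) (B : Bl F) (O : Or B) (m : ℕ) (c : F.C) (w : F.Lb → ℝ) (s : F.Lb → ZMod X.p)
    (H : (F.R → ZMod X.p) → (B.St → ZMod m) → ℂ) (Z Y : ℝ) :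
    PS B O m c w s H Z Y = ∑ u ∈ BF F.toFr0 Y, if Bg F.toFr0 Z (BU F.toFr0 u) then
      ((am F.toFr0 w u : ℝ) : ℂ) * H (F.tot (BU F.toFr0 u)) (prf B m (BU F.toFr0 u)) *
        ep X.p (pb B O c s u)
    else 0 := by
  unfold PS
  have hmaps : ∀ u ∈ BF F.toFr0 Y, BU F.toFr0 u ∈ F.Fam Finset.univ Y := by
    intro u hu
    rw [mem_BF] at hu
    rw [Fr0.mem_Fam]
    refine ⟨bok_ok F.toFr0 u hu.1, Finset.subset_univ _, ?_⟩
    rw [bok_nr F.toFr0 u hu.1]
    exact hu.2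
  rw [← Finset.sum_fiberwise_of_maps_to hmaps]
  refine Finset.sum_congr rfl fun g hg => ?_
  by_cases hB : Bg F.toFr0 Z g
  · rw [if_pos hB]
    have h1 : ∀ u ∈ (BF F.toFr0 Y).filter fun u => BU F.toFr0 u = g,
        (if Bg F.toFr0 Z (BU F.toFr0 u) then
          ((am F.toFr0 w u : ℝ) : ℂ) * H (F.tot (BU F.toFr0 u)) (prf B m (BU F.toFr0 u)) *
            ep X.p (pb B O c s u) else 0) =
        (((am F.toFr0 w u : ℝ) : ℂ) * ep X.p (∑ β : Bk X, ∑ a ∈ u β, β.1.1.2 ⬝ᵥ F.E c g a)) *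
          (H (F.tot g) (prf B m g) * ep X.p (pph B O g + ∑ a ∈ g, s a)) := by
      intro u hu
      have hu' := (Finset.mem_filter.1 hu).2
      rw [if_pos (by rw [hu']; exact hB)]
      unfold pb
      rw [hu', add_assoc, ep_add X.hp]
      ring
    rw [Finset.sum_congr rfl h1, ← Finset.sum_mul, ← wt_eq F.toFr0 w Y c g hg]
    ring
  · rw [if_neg hB]
    refine (Finset.sum_eq_zero fun u hu => ?_).symm
    rw [if_neg]
    rw [(Finset.mem_filter.1 hu).2]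
    exact hB

end H51.MS
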