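import Pool.Agent.H51.MS.Exn

/-!
# [H51 MS PHA] The phase of a family of blocks as a function of two blocks (150-220 lines)

`u = update (update ρ β g) β' h`, `U = BU ρ ∪ g ∪ h` (disjoint, places pairwise different). `θ = β.1.1.2`, `θ' = β'.1.1.2`.
* `∑ β'', ∑ a ∈ u β'', θ'' ⬝ᵥ E c U a`, `E c U a = e c a + ∑ b ∈ U.erase a, s a b`: the terms with `a, b` in `BU ρ ∪ g` depend only on `g`, those in `BU ρ ∪ h` only on `h` (terms with both in `BU ρ`: put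
  them into `A1`), the rest is `∑ a ∈ g, ∑ b ∈ h, (θ ⬝ᵥ s a b + θ' ⬝ᵥ s b a)`, and `θ' ⬝ᵥ s b a = -θ' ⬝ᵥ s a b + θ' ⬝ᵥ Xs (st a) (st b)` (`sym_s`).
* `pph`: the rest is `∑ a ∈ g, ∑ b ∈ h, ((if lt a b then P b a else 0) + (if lt b a then P a b else 0))`; by `O.tot` exactly one of `lt a b`, `lt b a` holds; if `lt b a` then `P a b = P b a - Xp (st a) (st b)`. So it is
  `P b a - (if lt b a then Xp (st a) (st b) else 0)`, and the last term is a function of `(st a, st b)`: `0` for equal states (`Xp_self`), otherwise `lt b a` depends only on the states (`O.sto`;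
  choose representatives). Call it `f (st a) (st b)`.
* `∑ a ∈ g, ∑ b ∈ h, f (st a) (st b) = ∑ x, ∑ y, (prf B X.p g x) * (prf B X.p h y) * f x y` (`Finset.sum_fiberwise`, `card` as an element of `ZMod p`).
* `∑ a ∈ U, s a`: additive.
* `tot_upd`, `prf_upd`: additivity of `tot` and of the profile.
-/

set_option autoImplicit false

open scoped NumberField
open IsDedekindDomain NumberField H63.MA H36.QA Filter Topology
open scoped Classical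

noncomputable section

namespace H51.MS

open H51.MM

variable {X : CD} {K : Type} [Field K] [NumberField K]

/-- `ρ` with the blocks `β`, `β'` replaced by `g`, `h` -/
def upd (F : Fr0 X K) (ρ : Bk X → Finset F.Lb) (β β' : Bk X) (g h : Finset F.Lb) :
    Bk X → Finset F.Lb := Function.update (Function.update ρ β g) β' h

private theorem upd_1 (F : Fr0 X K) (ρ : Bk X → Finset F.Lb) {β β' : Bk X} (hne : β ≠ β') (g h : Finset F.Lb) :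
    upd F ρ β β' g h β = g := by
  unfold upd
  rw [Function.update_of_ne hne, Function.update_self]

private theorem upd_2 (F : Fr0 X K) (ρ : Bk X → Finset F.Lb) (β β' : Bk X) (g h : Finset F.Lb) :
    upd F ρ β β' g h β' = h := by
  unfold upd
  rw [Function.update_self]

private theorem upd_3 (F : Fr0 X K) (ρ : Bk X → Finset F.Lb) (β β' : Bk X) (g h : Finset F.Lb) (σ : Bk X)
    (h1 : σ ≠ β) (h2 : σ ≠ β') : upd F ρ β β' g h σ = ρ σ := by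
  unfold upd
  rw [Function.update_of_ne h2, Function.update_of_ne h1]

theorem upd_BU (F : Fr0 X K) (ρ : Bk X → Finset F.Lb) (β β' : Bk X) (hne : β ≠ β') (h1 : ρ β = ∅)
    (h2 : ρ β' = ∅) (g h : Finset F.Lb) : BU F (upd F ρ β β' g h) = BU F ρ ∪ g ∪ h := by
  ext a
  rw [Finset.mem_union, Finset.mem_union]
  unfold BU
  rw [Finset.mem_biUnion, Finset.mem_biUnion]
  constructor
  · rintro ⟨σ, -, ha⟩
    by_cases h3 : σ = β
    · rw [h3, upd_1 F ρ hne] at ha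
      exact Or.inl (Or.inr ha)
    by_cases h4 : σ = β'
    · rw [h4, upd_2] at ha
      exact Or.inr ha
    · rw [upd_3 F ρ β β' g h σ h3 h4] at ha
      exact Or.inl (Or.inl ⟨σ, Finset.mem_univ _, ha⟩)
  · rintro ((⟨σ, -, ha⟩ | ha) | ha)
    · refine ⟨σ, Finset.mem_univ _, ?_⟩
      have h3 : σ ≠ β := by
        rintro rfl
        rw [h1] at ha
        exact Finset.notMem_empty _ ha
      have h4 : σ ≠ β' := by
        rintro rfl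
        rw [h2] at ha
        exact Finset.notMem_empty _ ha
      rw [upd_3 F ρ β β' g h σ h3 h4]
      exact ha
    · exact ⟨β, Finset.mem_univ _, by rw [upd_1 F ρ hne]; exact ha⟩
    · exact ⟨β', Finset.mem_univ _, by rw [upd_2]; exact ha⟩

private theorem upd_sum (F : Fr0 X K) {M : Type} [AddCommMonoid M] (f : F.Lb → M) (ρ : Bk X → Finset F.Lb)
    (β β' : Bk X) (hne : β ≠ β') (h1 : ρ β = ∅) (h2 : ρ β' = ∅) (g h : Finset F.Lb)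
    (hu : BOk F (upd F ρ β β' g h)) :
    ∑ a ∈ BU F (upd F ρ β β' g h), f a = ∑ a ∈ BU F ρ, f a + ∑ a ∈ g, f a + ∑ a ∈ h, f a := by
  have hgh : Disjoint g h := by
    have h3 := bok_dis F _ hu β β' hne
    rwa [upd_1 F ρ hne, upd_2] at h3
  have hR : ∀ a ∈ BU F ρ, a ∉ g ∧ a ∉ h := by
    intro a ha
    unfold BU at ha
    rw [Finset.mem_biUnion] at ha
    obtain ⟨σ, -, ha⟩ := ha
    have h3 : σ ≠ β := by
      rintro rfl
      rw [h1] at ha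
      exact Finset.notMem_empty _ ha
    have h4 : σ ≠ β' := by
      rintro rfl
      rw [h2] at ha
      exact Finset.notMem_empty _ ha
    rw [← upd_3 F ρ β β' g h σ h3 h4] at ha
    constructor
    · intro hg
      have h5 := bok_dis F _ hu σ β h3
      rw [upd_1 F ρ hne] at h5
      exact Finset.disjoint_left.1 h5 ha hg
    · intro hg
      have h5 := bok_dis F _ hu σ β' h4
      rw [upd_2] at h5
      exact Finset.disjoint_left.1 h5 ha hg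
  rw [upd_BU F ρ β β' hne h1 h2, Finset.sum_union, Finset.sum_union]
  · rw [Finset.disjoint_left]
    exact fun a ha => (hR a ha).1
  · rw [Finset.disjoint_left]
    intro a ha
    rcases Finset.mem_union.1 ha with ha | ha
    · exact (hR a ha).2
    · exact Finset.disjoint_left.1 hgh ha

theorem tot_upd (F : Fr0 X K) (ρ : Bk X → Finset F.Lb) (β β' : Bk X) (hne : β ≠ β') (h1 : ρ β = ∅)
    (h2 : ρ β' = ∅) (g h : Finset F.Lb) (hu : BOk F (upd F ρ β β' g h)) :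
    F.tot (BU F (upd F ρ β β' g h)) = F.tot (BU F ρ) + F.tot g + F.tot h :=
  upd_sum F F.qv ρ β β' hne h1 h2 g h hu

private theorem prf_eq {F : Fr X K} (B : Bl F) (m : ℕ) (g : Finset F.Lb) (x : B.St) :
    prf B m g x = ∑ a ∈ g, if B.st a = x then (1 : ZMod m) else 0 := by
  rw [Finset.sum_boole]
  rfl

theorem prf_upd (F : Fr X K) (B : Bl F) (m : ℕ) (ρ : Bk X → Finset F.Lb) (β β' : Bk X) (hne : β ≠ β')
    (h1 : ρ β = ∅) (h2 : ρ β' = ∅) (g h : Finset F.Lb) (hu : BOk F.toFr0 (upd F.toFr0 ρ β β' g h)) :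
    prf B m (BU F.toFr0 (upd F.toFr0 ρ β β' g h)) =
      prf B m (BU F.toFr0 ρ) + prf B m g + prf B m h := by
  funext x
  rw [Pi.add_apply, Pi.add_apply, prf_eq, prf_eq, prf_eq, prf_eq]
  exact upd_sum F.toFr0 (fun a => if B.st a = x then (1 : ZMod m) else 0) ρ β β' hne h1 h2 g h hu

/-- sums of functions of the state -/
private theorem prf_one {F : Fr X K} (B : Bl F) (m : ℕ) (g : Finset F.Lb) (f : B.St → ZMod m) :
    ∑ b ∈ g, f (B.st b) = ∑ y, prf B m g y * f y := by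
  rw [← Finset.sum_fiberwise g B.st]
  refine Finset.sum_congr rfl fun y _ => ?_
  have h1 : ∀ b ∈ g.filter (fun b => B.st b = y), f (B.st b) = f y := by
    intro b hb
    rw [(Finset.mem_filter.1 hb).2]
  rw [Finset.sum_congr rfl h1, Finset.sum_const, nsmul_eq_mul]
  rfl

private theorem prf_two {F : Fr X K} (B : Bl F) (m : ℕ) (g h : Finset F.Lb) (f : B.St → B.St → ZMod m) :
    ∑ a ∈ g, ∑ b ∈ h, f (B.st a) (B.st b) = ∑ x, ∑ y, prf B m g x * prf B m h y * f x y := by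
  have h1 : ∀ a ∈ g, ∑ b ∈ h, f (B.st a) (B.st b) = (fun x => ∑ y, prf B m h y * f x y) (B.st a) := by
    intro a _
    exact prf_one B m h (f (B.st a))
  refine (Finset.sum_congr rfl h1).trans ((prf_one B m g (fun x => ∑ y, prf B m h y * f x y)).trans ?_)
  refine Finset.sum_congr rfl fun x _ => ?_
  rw [Finset.mul_sum]
  refine Finset.sum_congr rfl fun y _ => ?_
  rw [mul_assoc]

private theorem pha_sum {ι α M : Type*} [Fintype ι] [DecidableEq ι] [AddCommMonoid M]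
    (f : ι → Finset α → M) (hf : ∀ σ, f σ ∅ = 0) {u ρ : ι → Finset α} {τ τ' : ι} (hne : τ ≠ τ')
    {g h : Finset α} (h1 : ρ τ = ∅) (h2 : ρ τ' = ∅) (e1 : u τ = g) (e2 : u τ' = h)
    (e3 : ∀ σ, σ ≠ τ → σ ≠ τ' → u σ = ρ σ) :
    ∑ σ, f σ (u σ) = f τ g + f τ' h + ∑ σ, f σ (ρ σ) := by
  have key : ∀ v : ι → Finset α, ∑ σ, f σ (v σ) = f τ (v τ) + (f τ' (v τ') +
      ∑ σ ∈ (Finset.univ.erase τ).erase τ', f σ (v σ)) := by
    intro v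
    rw [Finset.add_sum_erase _ (fun σ => f σ (v σ))
      (Finset.mem_erase.2 ⟨hne.symm, Finset.mem_univ _⟩),
      Finset.add_sum_erase _ (fun σ => f σ (v σ)) (Finset.mem_univ _)]
  rw [key u, key ρ, h1, h2, hf, hf, zero_add, zero_add, e1, e2, add_assoc]
  congr 2
  refine Finset.sum_congr rfl fun σ hσ => ?_
  rw [Finset.mem_erase, Finset.mem_erase] at hσ
  rw [e3 σ hσ.2.1 hσ.1]

private theorem pha_ph (F : Fr0 X K) (c : F.C) (u : Bk X → Finset F.Lb) (hu : BOk F u) :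
    ∑ σ : Bk X, ∑ a ∈ u σ, σ.1.1.2 ⬝ᵥ F.E c (BU F u) a = ∑ σ : Bk X, ∑ a ∈ u σ, σ.1.1.2 ⬝ᵥ (F.e c a - F.s a a) +
      ∑ σ : Bk X, ∑ σ' : Bk X, ∑ a ∈ u σ, ∑ b ∈ u σ', σ.1.1.2 ⬝ᵥ F.s a b := by
  rw [← Finset.sum_add_distrib]
  refine Finset.sum_congr rfl fun σ _ => ?_
  have hc : ∑ σ', ∑ a ∈ u σ, ∑ b ∈ u σ', σ.1.1.2 ⬝ᵥ F.s a b =
      ∑ a ∈ u σ, ∑ σ', ∑ b ∈ u σ', σ.1.1.2 ⬝ᵥ F.s a b := Finset.sum_comm
  rw [hc, ← Finset.sum_add_distrib]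
  refine Finset.sum_congr rfl fun a ha => ?_
  have hmem : a ∈ BU F u := Finset.mem_biUnion.2 ⟨σ, Finset.mem_univ _, ha⟩
  have h1 : ∑ b ∈ (BU F u).erase a, F.s a b = ∑ σ', ∑ b ∈ u σ', F.s a b - F.s a a := by
    rw [eq_sub_iff_add_eq, Finset.sum_erase_add _ _ hmem]
    unfold BU
    rw [Finset.sum_biUnion]
    intro x _ y _ hxy
    exact bok_dis F u hu x y hxy
  unfold Fr0.E
  rw [h1]
  have h2 : F.e c a + (∑ σ', ∑ b ∈ u σ', F.s a b - F.s a a) =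
      (F.e c a - F.s a a) + ∑ σ', ∑ b ∈ u σ', F.s a b := by abel
  rw [h2, dotProduct_add, dotProduct_sum]
  congr 1
  refine Finset.sum_congr rfl fun σ' _ => ?_
  rw [dotProduct_sum]

/-- the phase of the twists -/
private theorem pha1 (F : Fr X K) (B : Bl F) (c : F.C) (τ τ' : Bk X) (hne : τ ≠ τ') (ρ : Bk X → Finset F.Lb)
    (h1 : ρ τ = ∅) (h2 : ρ τ' = ∅) : ∃ A1 A2 : Finset F.Lb → ZMod X.p, ∀ g h : Finset F.Lb,
      BOk F.toFr0 (upd F.toFr0 ρ τ τ' g h) →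
      ∑ σ : Bk X, ∑ a ∈ upd F.toFr0 ρ τ τ' g h σ, σ.1.1.2 ⬝ᵥ F.E c (BU F.toFr0 (upd F.toFr0 ρ τ τ' g h)) a =
        ∑ a ∈ g, ∑ b ∈ h, (τ.1.1.2 - τ'.1.1.2) ⬝ᵥ F.s a b + A1 g + A2 h +
          ∑ x, ∑ y, prf B X.p g x * prf B X.p h y * (τ'.1.1.2 ⬝ᵥ B.Xs x y) := by
  refine ⟨fun g => (∑ a ∈ g, τ.1.1.2 ⬝ᵥ (F.e c a - F.s a a)) + (∑ a ∈ g, ∑ b ∈ g, τ.1.1.2 ⬝ᵥ F.s a b) +
      (∑ σ, ∑ a ∈ ρ σ, ∑ b ∈ g, σ.1.1.2 ⬝ᵥ F.s a b) +
      (∑ σ, ∑ a ∈ g, ∑ b ∈ ρ σ, τ.1.1.2 ⬝ᵥ F.s a b) +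
      (∑ σ, ∑ a ∈ ρ σ, σ.1.1.2 ⬝ᵥ (F.e c a - F.s a a)) +
      (∑ σ, ∑ σ', ∑ a ∈ ρ σ, ∑ b ∈ ρ σ', σ.1.1.2 ⬝ᵥ F.s a b),
    fun h => (∑ a ∈ h, τ'.1.1.2 ⬝ᵥ (F.e c a - F.s a a)) + (∑ a ∈ h, ∑ b ∈ h, τ'.1.1.2 ⬝ᵥ F.s a b) +
      (∑ σ, ∑ a ∈ ρ σ, ∑ b ∈ h, σ.1.1.2 ⬝ᵥ F.s a b) +
      (∑ σ, ∑ a ∈ h, ∑ b ∈ ρ σ, τ'.1.1.2 ⬝ᵥ F.s a b),
    fun g h hu => ?_⟩
  have e1 := upd_1 F.toFr0 ρ hne g h
  have e2 := upd_2 F.toFr0 ρ τ τ' g h
  have e3 := upd_3 F.toFr0 ρ τ τ' g h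
  obtain ⟨u, hudef⟩ : ∃ u, u = upd F.toFr0 ρ τ τ' g h := ⟨_, rfl⟩
  rw [← hudef] at hu e1 e2 e3 ⊢
  have hgok : F.Ok g := e1 ▸ hu.2.1 τ
  have hhok : F.Ok h := e2 ▸ hu.2.1 τ'
  have hdis : Disjoint (F.und g) (F.und h) := by
    have h3 := hu.2.2 τ τ' hne
    rw [e1, e2] at h3
    exact h3
  have hD := pha_sum (fun (σ : Bk X) (x : Finset F.Lb) => ∑ a ∈ x, σ.1.1.2 ⬝ᵥ (F.e c a - F.s a a))
    (fun σ => Finset.sum_empty) hne h1 h2 e1 e2 e3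
  have hB1 : ∀ σ : Bk X, ∑ σ', ∑ a ∈ u σ, ∑ b ∈ u σ', σ.1.1.2 ⬝ᵥ F.s a b =
      ∑ a ∈ u σ, ∑ b ∈ g, σ.1.1.2 ⬝ᵥ F.s a b + ∑ a ∈ u σ, ∑ b ∈ h, σ.1.1.2 ⬝ᵥ F.s a b +
        ∑ σ', ∑ a ∈ u σ, ∑ b ∈ ρ σ', σ.1.1.2 ⬝ᵥ F.s a b := by
    intro σ
    exact pha_sum (fun (σ' : Bk X) (x : Finset F.Lb) => ∑ a ∈ u σ, ∑ b ∈ x, σ.1.1.2 ⬝ᵥ F.s a b)
      (fun σ' => by simp only [Finset.sum_empty, Finset.sum_const_zero]) hne h1 h2 e1 e2 e3
  have hB2 := pha_sum (fun (σ : Bk X) (x : Finset F.Lb) => ∑ a ∈ x, ∑ b ∈ g, σ.1.1.2 ⬝ᵥ F.s a b)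
    (fun σ => Finset.sum_empty) hne h1 h2 e1 e2 e3
  have hB3 := pha_sum (fun (σ : Bk X) (x : Finset F.Lb) => ∑ a ∈ x, ∑ b ∈ h, σ.1.1.2 ⬝ᵥ F.s a b)
    (fun σ => Finset.sum_empty) hne h1 h2 e1 e2 e3
  have hB4 := pha_sum (fun (σ : Bk X) (x : Finset F.Lb) =>
      ∑ σ', ∑ a ∈ x, ∑ b ∈ ρ σ', σ.1.1.2 ⬝ᵥ F.s a b)
    (fun σ => by simp only [Finset.sum_empty, Finset.sum_const_zero]) hne h1 h2 e1 e2 e3
  beta_reduce at hD hB2 hB3 hB4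
  rw [pha_ph F.toFr0 c u hu, hD]
  simp only [hB1]
  rw [Finset.sum_add_distrib, Finset.sum_add_distrib, hB2, hB3, hB4]
  have hcr : ∑ a ∈ g, ∑ b ∈ h, τ'.1.1.2 ⬝ᵥ (F.s a b + F.s b a) =
      ∑ x, ∑ y, prf B X.p g x * prf B X.p h y * (τ'.1.1.2 ⬝ᵥ B.Xs x y) := by
    rw [← prf_two B X.p g h (fun x y => τ'.1.1.2 ⬝ᵥ B.Xs x y)]
    refine Finset.sum_congr rfl fun a ha => Finset.sum_congr rfl fun b hb => ?_
    rw [B.sym_s a b (hgok.1 a ha) (hhok.1 b hb)]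
    intro h3
    refine Finset.disjoint_left.1 hdis (Finset.mem_image_of_mem F.un ha) ?_
    rw [h3]
    exact Finset.mem_image_of_mem F.un hb
  have hsw : ∑ a ∈ h, ∑ b ∈ g, τ'.1.1.2 ⬝ᵥ F.s a b = ∑ a ∈ g, ∑ b ∈ h, τ'.1.1.2 ⬝ᵥ F.s b a :=
    Finset.sum_comm
  have hsp : ∑ a ∈ g, ∑ b ∈ h, τ.1.1.2 ⬝ᵥ F.s a b + ∑ a ∈ g, ∑ b ∈ h, τ'.1.1.2 ⬝ᵥ F.s b a =
      ∑ a ∈ g, ∑ b ∈ h, (τ.1.1.2 - τ'.1.1.2) ⬝ᵥ F.s a b +
        ∑ a ∈ g, ∑ b ∈ h, τ'.1.1.2 ⬝ᵥ (F.s a b + F.s b a) := by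
    rw [← Finset.sum_add_distrib, ← Finset.sum_add_distrib]
    refine Finset.sum_congr rfl fun a _ => ?_
    rw [← Finset.sum_add_distrib, ← Finset.sum_add_distrib]
    refine Finset.sum_congr rfl fun b _ => ?_
    rw [sub_dotProduct, dotProduct_add]
    ring
  rw [hcr] at hsp
  rw [hsw]
  linear_combination hsp

/-- the phase of a pair depends only on the states, up to `P b a` -/
private theorem pha_pair (F : Fr X K) (B : Bl F) (O : Or B) : ∃ f : B.St → B.St → ZMod X.p,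
    ∀ a b : F.Lb, F.Gd a → F.Gd b → F.un a ≠ F.un b →
      (if F.un a ≠ F.un b ∧ O.lt a b then B.P b a else 0) + (if F.un b ≠ F.un a ∧ O.lt b a then B.P a b else 0) =
        B.P b a + f (B.st a) (B.st b) := by
  refine ⟨fun x y => if x = y then 0 else if ∃ a b, B.st a = x ∧ B.st b = y ∧ O.lt b a then -B.Xp x y else 0,
    fun a b ha hb hne => ?_⟩
  have hP := B.sym_P a b ha hb hne
  have ht := O.tot a b hne
  beta_reduce
  by_cases h1 : O.lt b a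
  · have h2 : ¬ O.lt a b := fun h3 => (ht.1 h3) h1
    rw [if_neg (fun h3 => h2 h3.2), if_pos ⟨hne.symm, h1⟩, zero_add]
    by_cases h3 : B.st a = B.st b
    · rw [if_pos h3, hP, h3, B.Xp_self, add_zero, add_zero]
    · rw [if_neg h3, if_pos ⟨a, b, rfl, rfl, h1⟩, hP]
      ring
  · have h2 : O.lt a b := ht.2 h1
    rw [if_pos ⟨hne, h2⟩, if_neg (fun h3 => h1 h3.2), add_zero]
    by_cases h3 : B.st a = B.st b
    · rw [if_pos h3, add_zero]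
    · rw [if_neg h3, if_neg, add_zero]
      rintro ⟨a', b', ha', hb', hlt⟩
      exact h1 ((O.sto b' a' b a hb' ha' (by rw [ha', hb']; exact Ne.symm h3)).1 hlt)

theorem pha (F : Fr X K) (B : Bl F) (O : Or B) (c : F.C) (s : F.Lb → ZMod X.p) (β β' : Bk X)
    (hne : β ≠ β') (ρ : Bk X → Finset F.Lb) (h1 : ρ β = ∅) (h2 : ρ β' = ∅) :
    ∃ (A1 A2 : Finset F.Lb → ZMod X.p) (Φ : (B.St → ZMod X.p) → (B.St → ZMod X.p) → ZMod X.p),
      ∀ g h : Finset F.Lb, BOk F.toFr0 (upd F.toFr0 ρ β β' g h) →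
        pb B O c s (upd F.toFr0 ρ β β' g h) = A1 g + A2 h + Φ (prf B X.p g) (prf B X.p h) +
          ∑ a ∈ g, ∑ b ∈ h, ((β.1.1.2 - β'.1.1.2) ⬝ᵥ F.s a b + B.P b a) := by
  obtain ⟨A1, A2, hA⟩ := pha1 F B c β β' hne ρ h1 h2
  obtain ⟨f, hf⟩ := pha_pair F B O
  obtain ⟨q, hq⟩ : ∃ q : F.Lb → F.Lb → ZMod X.p, ∀ a b, q a b = if F.un a ≠ F.un b ∧ O.lt a b then B.P b a else 0 :=
    ⟨_, fun _ _ => rfl⟩
  refine ⟨fun g => A1 g + (∑ a ∈ BU F.toFr0 ρ, ∑ b ∈ BU F.toFr0 ρ, q a b + ∑ a ∈ BU F.toFr0 ρ, ∑ b ∈ g, q a b +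
      ∑ a ∈ g, ∑ b ∈ BU F.toFr0 ρ, q a b + ∑ a ∈ g, ∑ b ∈ g, q a b) + (∑ a ∈ BU F.toFr0 ρ, s a + ∑ a ∈ g, s a),
    fun h => A2 h + (∑ a ∈ BU F.toFr0 ρ, ∑ b ∈ h, q a b + ∑ a ∈ h, ∑ b ∈ BU F.toFr0 ρ, q a b +
      ∑ a ∈ h, ∑ b ∈ h, q a b) + ∑ a ∈ h, s a,
    fun x y => ∑ σ, ∑ σ', x σ * y σ' * (β'.1.1.2 ⬝ᵥ B.Xs σ σ' + f σ σ'), fun g h hu => ?_⟩
  have hgok : F.Ok g := (upd_1 F.toFr0 ρ hne g h) ▸ hu.2.1 β
  have hhok : F.Ok h := (upd_2 F.toFr0 ρ β β' g h) ▸ hu.2.1 β'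
  have hdis : Disjoint (F.und g) (F.und h) := by
    have h3 := hu.2.2 β β' hne
    rw [upd_1 F.toFr0 ρ hne g h, upd_2 F.toFr0 ρ β β' g h] at h3
    exact h3
  have hAgh := hA g h hu
  have hsu := fun (f : F.Lb → ZMod X.p) => upd_sum F.toFr0 f ρ β β' hne h1 h2 g h hu
  have hp : pph B O (BU F.toFr0 (upd F.toFr0 ρ β β' g h)) =
      ∑ a ∈ BU F.toFr0 (upd F.toFr0 ρ β β' g h), ∑ b ∈ BU F.toFr0 (upd F.toFr0 ρ β β' g h), q a b := by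
    unfold pph
    refine Finset.sum_congr rfl fun a _ => Finset.sum_congr rfl fun b _ => ?_
    rw [hq]
  have hp2 : ∑ a ∈ BU F.toFr0 (upd F.toFr0 ρ β β' g h), ∑ b ∈ BU F.toFr0 (upd F.toFr0 ρ β β' g h), q a b =
      (∑ a ∈ BU F.toFr0 ρ, ∑ b ∈ BU F.toFr0 ρ, q a b + ∑ a ∈ BU F.toFr0 ρ, ∑ b ∈ g, q a b +
        ∑ a ∈ BU F.toFr0 ρ, ∑ b ∈ h, q a b) + (∑ a ∈ g, ∑ b ∈ BU F.toFr0 ρ, q a b + ∑ a ∈ g, ∑ b ∈ g, q a b +
        ∑ a ∈ g, ∑ b ∈ h, q a b) + (∑ a ∈ h, ∑ b ∈ BU F.toFr0 ρ, q a b + ∑ a ∈ h, ∑ b ∈ g, q a b +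
        ∑ a ∈ h, ∑ b ∈ h, q a b) := by
    rw [hsu]
    simp only [hsu, Finset.sum_add_distrib]
  have hcross : ∑ a ∈ g, ∑ b ∈ h, q a b + ∑ a ∈ h, ∑ b ∈ g, q a b =
      ∑ a ∈ g, ∑ b ∈ h, B.P b a + ∑ x, ∑ y, prf B X.p g x * prf B X.p h y * f x y := by
    rw [← prf_two B X.p g h f, Finset.sum_comm (s := h), ← Finset.sum_add_distrib, ← Finset.sum_add_distrib]
    refine Finset.sum_congr rfl fun a ha => ?_
    rw [← Finset.sum_add_distrib, ← Finset.sum_add_distrib]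
    refine Finset.sum_congr rfl fun b hb => ?_
    rw [hq, hq]
    refine hf a b (hgok.1 a ha) (hhok.1 b hb) ?_
    intro h3
    refine Finset.disjoint_left.1 hdis (Finset.mem_image_of_mem F.un ha) ?_
    rw [h3]
    exact Finset.mem_image_of_mem F.un hb
  have hΦ : ∑ σ, ∑ σ', prf B X.p g σ * prf B X.p h σ' * (β'.1.1.2 ⬝ᵥ B.Xs σ σ' + f σ σ') =
      ∑ x, ∑ y, prf B X.p g x * prf B X.p h y * (β'.1.1.2 ⬝ᵥ B.Xs x y) +
        ∑ x, ∑ y, prf B X.p g x * prf B X.p h y * f x y := by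
    rw [← Finset.sum_add_distrib]
    refine Finset.sum_congr rfl fun x _ => ?_
    rw [← Finset.sum_add_distrib]
    refine Finset.sum_congr rfl fun y _ => ?_
    ring
  have hlast : ∑ a ∈ g, ∑ b ∈ h, ((β.1.1.2 - β'.1.1.2) ⬝ᵥ F.s a b + B.P b a) =
      ∑ a ∈ g, ∑ b ∈ h, (β.1.1.2 - β'.1.1.2) ⬝ᵥ F.s a b + ∑ a ∈ g, ∑ b ∈ h, B.P b a := by
    rw [← Finset.sum_add_distrib]
    refine Finset.sum_congr rfl fun a _ => ?_
    rw [← Finset.sum_add_distrib]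
  unfold pb
  rw [hAgh, hp, hp2, hsu s]
  beta_reduce
  rw [hΦ, hlast]
  linear_combination hcross

end H51.MS
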