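import Pool.Agent.H51.MS.Exn

/-!
# [H51 MS TRB] Trivial bounds for families of blocks (50-80 lines)

As `trv` (Pool/Agent/H51/MM/Trv.lean) for `BF` instead of `TF`: the number of `u` with `und (BU u) = s` is at most `M ^ card s`; `H57.AN.i3a K : AN3a K`. (Or: from `trf` for `Fam univ`, the number of `u` with `BU u = g` is at
most `(card (Bk X)) ^ card g`.)
-/

set_option autoImplicit false

open scoped NumberField
open IsDedekindDomain NumberField H63.MA H36.QA Filter Topology
open scoped Classical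

noncomputable section

namespace H51.MS

open H51.MM

variable {X : CD} {K : Type} [Field K] [NumberField K]

/-- at most `(card (Bk X)) ^ card g` families of blocks with union `g` -/
private theorem trb_fib (F : Fr0 X K) (g : Finset F.Lb) (S : Finset (Bk X → Finset F.Lb))
    (hS : ∀ u ∈ S, BOk F u) (hg : ∀ u ∈ S, BU F u = g) : S.card ≤ Fintype.card (Bk X) ^ g.card := by
  have hsub : S ⊆ (Finset.univ : Finset (g → Bk X)).image
      fun (f : g → Bk X) (β : Bk X) => (Finset.univ.filter fun a : g => f a = β).image Subtype.val := by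
    intro u hu
    have hB := hS u hu
    have hU := hg u hu
    have h1 : ∀ a : g, ∃ β : Bk X, a.1 ∈ u β := by
      intro a
      have ha : a.1 ∈ BU F u := by rw [hU]; exact a.2
      rw [BU, Finset.mem_biUnion] at ha
      obtain ⟨β, -, hβ⟩ := ha
      exact ⟨β, hβ⟩
    choose f hf using h1
    rw [Finset.mem_image]
    refine ⟨f, Finset.mem_univ _, ?_⟩
    funext β
    ext a
    rw [Finset.mem_image]
    constructor
    · rintro ⟨x, hx, rfl⟩
      rw [Finset.mem_filter] at hx
      rw [← hx.2]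
      exact hf x
    · intro ha
      have hag : a ∈ g := by
        rw [← hU, BU, Finset.mem_biUnion]
        exact ⟨β, Finset.mem_univ _, ha⟩
      refine ⟨⟨a, hag⟩, ?_, rfl⟩
      rw [Finset.mem_filter]
      refine ⟨Finset.mem_univ _, ?_⟩
      by_contra hne
      exact Finset.disjoint_left.1 (bok_dis F u hB _ _ hne) (hf ⟨a, hag⟩) ha
  refine (Finset.card_le_card hsub).trans (Finset.card_image_le.trans ?_)
  rw [Finset.card_univ, Fintype.card_fun, Fintype.card_coe]

theorem trb (F : Fr X K) : ∃ (C : ℝ) (A : ℕ), 1 ≤ C ∧ ∀ Y : ℝ, 1 ≤ Y →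
    ((BF F.toFr0 Y).card : ℝ) ≤ C * Y * (1 + Real.log Y) ^ A ∧
    ∑ u ∈ BF F.toFr0 Y, 1 / nrb F.toFr0 u ≤ C * (1 + Real.log Y) ^ A := by
  obtain ⟨M, hM⟩ : ∃ M : ℕ, M = Fintype.card (Bk X) + 1 := ⟨_, rfl⟩
  have hM1 : (1 : ℝ) ≤ (M : ℝ) := by
    rw [hM]
    exact_mod_cast Nat.le_add_left 1 _
  obtain ⟨C, A, hC, h⟩ := trf X K (H57.AN.i3a K) F.d (M : ℝ) hM1
  refine ⟨C, A, hC, fun Y hY => ?_⟩
  obtain ⟨h1, h2⟩ := h F le_rfl Finset.univ Y hY
  have hmap : ∀ u ∈ BF F.toFr0 Y, BU F.toFr0 u ∈ F.Fam Finset.univ Y := by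
    intro u hu
    rw [mem_BF] at hu
    rw [Fr0.mem_Fam]
    refine ⟨bok_ok F.toFr0 u hu.1, Finset.subset_univ _, ?_⟩
    rw [bok_nr F.toFr0 u hu.1]
    exact hu.2
  have key : ∀ W : Finset F.Lb → ℝ, (∀ g, 0 ≤ W g) → ∑ u ∈ BF F.toFr0 Y, W (BU F.toFr0 u) ≤
      ∑ g ∈ F.Fam Finset.univ Y, (M : ℝ) ^ g.card * W g := by
    intro W hW
    rw [← Finset.sum_fiberwise_of_maps_to hmap]
    refine Finset.sum_le_sum fun g _ => ?_
    have h3 : ∀ u ∈ (BF F.toFr0 Y).filter (fun u => BU F.toFr0 u = g), W (BU F.toFr0 u) = W g := by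
      intro u hu
      rw [(Finset.mem_filter.1 hu).2]
    rw [Finset.sum_congr rfl h3, Finset.sum_const, nsmul_eq_mul]
    refine mul_le_mul_of_nonneg_right ?_ (hW g)
    have h4 := trb_fib F.toFr0 g ((BF F.toFr0 Y).filter (fun u => BU F.toFr0 u = g))
      (fun u hu => ((mem_BF F.toFr0 Y u).1 (Finset.mem_filter.1 hu).1).1)
      (fun u hu => (Finset.mem_filter.1 hu).2)
    have h5 : ((BF F.toFr0 Y).filter (fun u => BU F.toFr0 u = g)).card ≤ M ^ g.card :=
      h4.trans (Nat.pow_le_pow_left (by rw [hM]; exact Nat.le_succ _) _)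
    exact_mod_cast h5
  constructor
  · have h3 := key (fun _ => 1) (fun _ => zero_le_one)
    simp only [mul_one, Finset.sum_const, nsmul_eq_mul] at h3
    exact h3.trans h1
  · have h3 := key (fun g => 1 / F.nrl g) (fun g => by
      have := F.one_le_nrl g
      positivity)
    refine le_trans (le_of_eq ?_) (h3.trans (le_trans (le_of_eq ?_) h2))
    · refine Finset.sum_congr rfl fun u hu => ?_
      rw [mem_BF] at hu
      rw [bok_nr F.toFr0 u hu.1]
    · refine Finset.sum_congr rfl fun g _ => ?_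
      rw [mul_one_div]

end H51.MS
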