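import Pool.Agent.H51.MS.Bil
import Pool.Agent.H51.MS.Pha
import Pool.Agent.H51.MS.Trb

/-!
# [H51 MS LKB] The sums with a linked pair of large blocks (200-280 lines)

Model: `lnkb` (Pool/Agent/H51/MM/LnkB.lean). `β, β' ∈ L` linked, `i`, `j` their classes, `θ = β.1.1.2 - β'.1.1.2`, `B.lk i j θ`. Write `u = upd ρ β β' g h`, `g = u β`, `h = u β'`, `ρ` = `u` with `β`, `β'` emptied (`ρ ∈ BF Y`). For fixed `ρ`:
* `u ∈ BF Y` iff `ρ` is a family of blocks, `g ∈ Fam {i}`, `h ∈ Fam {j}` with places outside those of `ρ` (put into `α`, `β`), `Disjoint (und g) (und h)`, `nrl g * nrl h ≤ Y / nrb ρ =: Y'`.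
* `Cb`: `lv Z R (k+1) < nrl g, nrl h` (this is `z`), and conditions on `ρ` (the blocks not in `L` are not `β`, `β'`).
* `Bg Z₁ (BU u)`: for a class `i' ≠ i, j` a condition on `ρ`; if `i ≠ j`: `Z₁ < nrl (cl i (BU ρ)) * nrl g` a condition on `g`, the same for `h`, and `c := 0` in `bil`; if `i = j`: `Z₁ < nrl (cl i (BU ρ)) * nrl g * nrl h`, that is
  `c < nrl g * nrl h` with `c = Z₁ / nrl (cl i (BU ρ))`.
* `am w u = am w ρ * (∏ a ∈ g, w a / 3) * (∏ a ∈ h, w a / 3)`, in `[0, 1]`; `H (tot ..) (prf ..)` is a function `G` of `T = (F.R → ZMod p) × (B.St → ZMod m) × (B.St → ZMod p)` (values at `g` and `h`), the `Φ` of `pha` too.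
`bil` with `Y'` (if `Y' < 1` the sum is empty), and `∑_ρ 1 / nrb ρ` by `trb`. `Z ≤ lv Z R (k+1)`.
-/

set_option autoImplicit false

open scoped NumberField
open IsDedekindDomain NumberField H63.MA H36.QA Filter Topology
open scoped Classical

noncomputable section

namespace H51.MS

open H51.MM

variable {X : CD} {K : Type} [Field K] [NumberField K]

section

/-- the part of `u` outside `β`, `β'` -/
private def lr (F : Fr0 X K) (β β' : Bk X) (u : Bk X → Finset F.Lb) : Bk X → Finset F.Lb :=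
  Function.update (Function.update u β ∅) β' ∅

private theorem lr_eq (F : Fr0 X K) (β β' : Bk X) (u : Bk X → Finset F.Lb) {σ : Bk X} (h : σ ≠ β) (h' : σ ≠ β') :
    lr F β β' u σ = u σ := by
  unfold lr
  rw [Function.update_of_ne h', Function.update_of_ne h]

private theorem lr_b (F : Fr0 X K) (β β' : Bk X) (u : Bk X → Finset F.Lb) : lr F β β' u β = ∅ := by
  unfold lr
  by_cases h : β = β'
  · rw [← h, Function.update_self]
  · rw [Function.update_of_ne h, Function.update_self]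

private theorem lr_b' (F : Fr0 X K) (β β' : Bk X) (u : Bk X → Finset F.Lb) : lr F β β' u β' = ∅ := by
  unfold lr
  rw [Function.update_self]

private theorem lr_sub (F : Fr0 X K) (β β' : Bk X) (u : Bk X → Finset F.Lb) (σ : Bk X) :
    lr F β β' u σ ⊆ u σ := by
  by_cases h : σ = β
  · rw [h, lr_b]
    exact Finset.empty_subset _
  by_cases h' : σ = β'
  · rw [h', lr_b']
    exact Finset.empty_subset _
  · rw [lr_eq F β β' u h h']

private theorem lr_bok (F : Fr0 X K) (β β' : Bk X) (u : Bk X → Finset F.Lb) (hu : BOk F u) :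
    BOk F (lr F β β' u) := by
  refine ⟨fun σ a ha => hu.1 σ a (lr_sub F β β' u σ ha), fun σ => ⟨fun a ha => ?_, fun a ha b hb => ?_⟩,
    fun σ σ' hne => ?_⟩
  · exact (hu.2.1 σ).1 a (lr_sub F β β' u σ ha)
  · exact (hu.2.1 σ).2 a (lr_sub F β β' u σ ha) b (lr_sub F β β' u σ hb)
  · exact (hu.2.2 σ σ' hne).mono (Finset.image_subset_image (lr_sub F β β' u σ))
      (Finset.image_subset_image (lr_sub F β β' u σ'))

private theorem lkb_nrb (F : Fr0 X K) {β β' : Bk X} (hne : β ≠ β') (u : Bk X → Finset F.Lb) :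
    nrb F u = F.nrl (u β) * F.nrl (u β') * nrb F (lr F β β' u) := by
  have key : ∀ v : Bk X → Finset F.Lb, nrb F v = F.nrl (v β) * (F.nrl (v β') *
      ∏ σ ∈ (Finset.univ.erase β).erase β', F.nrl (v σ)) := by
    intro v
    unfold nrb
    rw [Finset.mul_prod_erase _ (fun σ => F.nrl (v σ))
      (Finset.mem_erase.2 ⟨hne.symm, Finset.mem_univ _⟩),
      Finset.mul_prod_erase _ (fun σ => F.nrl (v σ)) (Finset.mem_univ _)]
  have h0 : F.nrl ∅ = 1 := Finset.prod_empty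
  rw [key u, key (lr F β β' u), lr_b, lr_b', h0, one_mul, one_mul, mul_assoc]
  congr 2
  refine Finset.prod_congr rfl fun σ hσ => ?_
  rw [Finset.mem_erase, Finset.mem_erase] at hσ
  rw [lr_eq F β β' u hσ.2.1 hσ.1]

private theorem lkb_am (F : Fr0 X K) (w : F.Lb → ℝ) {β β' : Bk X} (hne : β ≠ β') (u : Bk X → Finset F.Lb) :
    am F w u = (∏ a ∈ u β, w a / 3) * (∏ a ∈ u β', w a / 3) * am F w (lr F β β' u) := by
  have key : ∀ v : Bk X → Finset F.Lb, am F w v = (∏ a ∈ v β, w a / 3) * ((∏ a ∈ v β', w a / 3) *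
      ∏ σ ∈ (Finset.univ.erase β).erase β', ∏ a ∈ v σ, w a / 3) := by
    intro v
    unfold am
    rw [Finset.mul_prod_erase _ (fun σ => ∏ a ∈ v σ, w a / 3)
      (Finset.mem_erase.2 ⟨hne.symm, Finset.mem_univ _⟩),
      Finset.mul_prod_erase _ (fun σ => ∏ a ∈ v σ, w a / 3) (Finset.mem_univ _)]
  rw [key u, key (lr F β β' u), lr_b, lr_b', Finset.prod_empty, one_mul, one_mul, mul_assoc]
  congr 2
  refine Finset.prod_congr rfl fun σ hσ => ?_
  rw [Finset.mem_erase, Finset.mem_erase] at hσ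
  rw [lr_eq F β β' u hσ.2.1 hσ.1]

private theorem lr_BF (F : Fr0 X K) {β β' : Bk X} (hne : β ≠ β') (Y : ℝ)
    (u : Bk X → Finset F.Lb) (hu : u ∈ BF F Y) : lr F β β' u ∈ BF F Y := by
  rw [mem_BF] at hu ⊢
  refine ⟨lr_bok F β β' u hu.1, ?_⟩
  have h1 := lkb_nrb F hne u
  have h2 := F.one_le_nrl (u β)
  have h3 := F.one_le_nrl (u β')
  have h4 := one_le_nrb F (lr F β β' u)
  have h5 : 1 ≤ F.nrl (u β) * F.nrl (u β') := by nlinarith
  nlinarith [hu.2]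

private theorem upd_b (F : Fr0 X K) (ρ : Bk X → Finset F.Lb) {β β' : Bk X} (hne : β ≠ β')
    (g h : Finset F.Lb) : upd F ρ β β' g h β = g := by
  unfold upd
  rw [Function.update_of_ne hne, Function.update_self]

private theorem upd_b' (F : Fr0 X K) (ρ : Bk X → Finset F.Lb) (β β' : Bk X)
    (g h : Finset F.Lb) : upd F ρ β β' g h β' = h := by
  unfold upd
  rw [Function.update_self]

private theorem upd_ne (F : Fr0 X K) (ρ : Bk X → Finset F.Lb) (β β' : Bk X)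
    (g h : Finset F.Lb) {σ : Bk X} (h1 : σ ≠ β) (h2 : σ ≠ β') : upd F ρ β β' g h σ = ρ σ := by
  unfold upd
  rw [Function.update_of_ne h2, Function.update_of_ne h1]

private theorem upd_lr (F : Fr0 X K) (ρ : Bk X → Finset F.Lb) {β β' : Bk X} (hne : β ≠ β')
    (u : Bk X → Finset F.Lb) (hlr : lr F β β' u = ρ) : upd F ρ β β' (u β) (u β') = u := by
  funext σ
  by_cases h2 : σ = β'
  · rw [h2, upd_b']
  by_cases h1 : σ = β
  · rw [h1, upd_b F ρ hne]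
  · rw [upd_ne F ρ β β' _ _ h1 h2, ← hlr, lr_eq F β β' u h1 h2]

private theorem upd_dis (F : Fr0 X K) (ρ : Bk X → Finset F.Lb) (β β' : Bk X) (hne : β ≠ β') (h1 : ρ β = ∅)
    (h2 : ρ β' = ∅) (g h : Finset F.Lb) (hu : BOk F (upd F ρ β β' g h)) :
    Disjoint (BU F ρ) g ∧ Disjoint (BU F ρ ∪ g) h := by
  have h3 : Disjoint (BU F ρ) g := by
    unfold BU
    rw [Finset.disjoint_biUnion_left]
    intro σ _
    by_cases e1 : σ = β
    · rw [e1, h1]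
      exact Finset.disjoint_empty_left _
    by_cases e2 : σ = β'
    · rw [e2, h2]
      exact Finset.disjoint_empty_left _
    · have h4 := bok_dis F _ hu σ β e1
      rwa [upd_b F ρ hne, upd_ne F ρ β β' g h e1 e2] at h4
  refine ⟨h3, ?_⟩
  rw [Finset.disjoint_union_left]
  constructor
  · unfold BU
    rw [Finset.disjoint_biUnion_left]
    intro σ _
    by_cases e1 : σ = β
    · rw [e1, h1]
      exact Finset.disjoint_empty_left _
    by_cases e2 : σ = β'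
    · rw [e2, h2]
      exact Finset.disjoint_empty_left _
    · have h4 := bok_dis F _ hu σ β' e2
      rwa [upd_b', upd_ne F ρ β β' g h e1 e2] at h4
  · have h4 := bok_dis F _ hu β β' hne
    rwa [upd_b', upd_b F ρ hne] at h4

private theorem nrl_cl_union (F : Fr0 X K) (i : Fin X.N) (g h : Finset F.Lb) (hd : Disjoint g h) :
    F.nrl (cl F i (g ∪ h)) = F.nrl (cl F i g) * F.nrl (cl F i h) := by
  unfold cl Fr0.nrl
  rw [Finset.filter_union, Finset.prod_union (Finset.disjoint_filter_filter hd)]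

private theorem cl_self (F : Fr0 X K) (i : Fin X.N) (g : Finset F.Lb) (hg : ∀ a ∈ g, a.1 = i) : cl F i g = g :=
  Finset.filter_true_of_mem hg

private theorem nrl_cl_ne (F : Fr0 X K) {i i' : Fin X.N} (hne : i ≠ i') (g : Finset F.Lb) (hg : ∀ a ∈ g, a.1 = i) :
    F.nrl (cl F i' g) = 1 := by
  have h1 : cl F i' g = ∅ := Finset.filter_false_of_mem fun a ha h => hne ((hg a ha).symm.trans h)
  rw [h1]
  exact Finset.prod_empty

private theorem bg_upd (F : Fr0 X K) (ρ : Bk X → Finset F.Lb) (β β' : Bk X) (hne : β ≠ β') (h1 : ρ β = ∅)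
    (h2 : ρ β' = ∅) (Z₁ : ℝ) : ∃ (a1 a2 : Finset F.Lb → Prop) (c : ℝ), ∀ g h : Finset F.Lb,
      BOk F (upd F ρ β β' g h) →
      (Bg F Z₁ (BU F (upd F ρ β β' g h)) ↔ a1 g ∧ a2 h ∧ c < F.nrl g * F.nrl h) := by
  have key : ∀ g h : Finset F.Lb, BOk F (upd F ρ β β' g h) → ∀ i, F.nrl (cl F i (BU F (upd F ρ β β' g h))) =
      F.nrl (cl F i (BU F ρ)) * F.nrl (cl F i g) * F.nrl (cl F i h) := by
    intro g h hu i
    obtain ⟨h3, h4⟩ := upd_dis F ρ β β' hne h1 h2 g h hu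
    rw [upd_BU F ρ β β' hne h1 h2, nrl_cl_union F i _ _ h4, nrl_cl_union F i _ _ h3]
  have hg1 : ∀ g h : Finset F.Lb, BOk F (upd F ρ β β' g h) → ∀ a ∈ g, a.1 = β.1.1.1 := by
    intro g h hu a ha
    refine hu.1 β a ?_
    rw [upd_b F ρ hne]
    exact ha
  have hh1 : ∀ g h : Finset F.Lb, BOk F (upd F ρ β β' g h) → ∀ a ∈ h, a.1 = β'.1.1.1 := by
    intro g h hu a ha
    refine hu.1 β' a ?_
    rw [upd_b']
    exact ha
  by_cases hij : β.1.1.1 = β'.1.1.1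
  · refine ⟨fun _ => ∀ i, i ≠ β.1.1.1 → Z₁ < F.nrl (cl F i (BU F ρ)), fun _ => True,
      Z₁ / F.nrl (cl F β.1.1.1 (BU F ρ)), fun g h hu => ?_⟩
    have hg := hg1 g h hu
    have hh := hh1 g h hu
    rw [← hij] at hh
    have hW : 0 < F.nrl (cl F β.1.1.1 (BU F ρ)) := lt_of_lt_of_le one_pos (F.one_le_nrl _)
    have k1 := key g h hu β.1.1.1
    rw [cl_self F _ g hg, cl_self F _ h hh] at k1
    have k2 : ∀ i, i ≠ β.1.1.1 → F.nrl (cl F i (BU F (upd F ρ β β' g h))) = F.nrl (cl F i (BU F ρ)) := by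
      intro i hi
      rw [key g h hu i, nrl_cl_ne F hi.symm g hg, nrl_cl_ne F hi.symm h hh, mul_one, mul_one]
    constructor
    · intro H
      refine ⟨fun i hi => ?_, trivial, ?_⟩
      · rw [← k2 i hi]
        exact H i
      · rw [div_lt_iff₀ hW]
        have h5 := H β.1.1.1
        rw [k1] at h5
        linarith [mul_comm (F.nrl g * F.nrl h) (F.nrl (cl F β.1.1.1 (BU F ρ))),
          mul_assoc (F.nrl (cl F β.1.1.1 (BU F ρ))) (F.nrl g) (F.nrl h)]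
    · rintro ⟨H1, -, H2⟩ i
      by_cases hi : i = β.1.1.1
      · rw [hi, k1]
        rw [div_lt_iff₀ hW] at H2
        linarith [mul_comm (F.nrl g * F.nrl h) (F.nrl (cl F β.1.1.1 (BU F ρ))),
          mul_assoc (F.nrl (cl F β.1.1.1 (BU F ρ))) (F.nrl g) (F.nrl h)]
      · rw [k2 i hi]
        exact H1 i hi
  · refine ⟨fun g => (∀ i, i ≠ β.1.1.1 → i ≠ β'.1.1.1 → Z₁ < F.nrl (cl F i (BU F ρ))) ∧
        Z₁ < F.nrl (cl F β.1.1.1 (BU F ρ)) * F.nrl g,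
      fun h => Z₁ < F.nrl (cl F β'.1.1.1 (BU F ρ)) * F.nrl h, 0, fun g h hu => ?_⟩
    have hg := hg1 g h hu
    have hh := hh1 g h hu
    have k1 := key g h hu β.1.1.1
    rw [cl_self F _ g hg, nrl_cl_ne F (Ne.symm hij) h hh, mul_one] at k1
    have k3 := key g h hu β'.1.1.1
    rw [cl_self F _ h hh, nrl_cl_ne F hij g hg, mul_one] at k3
    have k2 : ∀ i, i ≠ β.1.1.1 → i ≠ β'.1.1.1 →
        F.nrl (cl F i (BU F (upd F ρ β β' g h))) = F.nrl (cl F i (BU F ρ)) := by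
      intro i hi hi'
      rw [key g h hu i, nrl_cl_ne F hi.symm g hg, nrl_cl_ne F hi'.symm h hh, mul_one, mul_one]
    constructor
    · intro H
      refine ⟨⟨fun i hi hi' => ?_, ?_⟩, ?_, ?_⟩
      · rw [← k2 i hi hi']
        exact H i
      · rw [← k1]
        exact H _
      · beta_reduce
        rw [← k3]
        exact H _
      · have h5 := F.one_le_nrl g
        have h6 := F.one_le_nrl h
        positivity
    · rintro ⟨⟨H1, H2⟩, H3, -⟩ i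
      by_cases hi : i = β.1.1.1
      · rw [hi, k1]
        exact H2
      by_cases hi' : i = β'.1.1.1
      · rw [hi', k3]
        exact H3
      · rw [k2 i hi hi']
        exact H1 i hi hi'

private theorem lkb_ne (F : Fr0 X K) (g : Finset F.Lb) (z : ℝ) (hz : 1 ≤ z) (h : z < F.nrl g) : g ≠ ∅ := by
  rintro rfl
  have h0 : F.nrl ∅ = 1 := Finset.prod_empty
  rw [h0] at h
  linarith

private theorem lkb_und (F : Fr0 X K) (ρ : Bk X → Finset F.Lb) (σ : Bk X) : F.und (ρ σ) ⊆ F.und (BU F ρ) :=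
  Finset.image_subset_image fun _ ha => Finset.mem_biUnion.2 ⟨σ, Finset.mem_univ _, ha⟩

private theorem lkb_pr (F : Fr0 X K) (w : F.Lb → ℝ) (hw : ∀ a, 0 ≤ w a ∧ w a ≤ 1) (g : Finset F.Lb) :
    0 ≤ ∏ a ∈ g, w a / 3 ∧ ∏ a ∈ g, w a / 3 ≤ 1 := by
  constructor
  · exact Finset.prod_nonneg fun a _ => div_nonneg (hw a).1 (by norm_num)
  · refine Finset.prod_le_one (fun a _ => div_nonneg (hw a).1 (by norm_num)) fun a _ => ?_
    have := (hw a).2
    linarith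

private theorem lkb_am1 (F : Fr0 X K) (w : F.Lb → ℝ) (hw : ∀ a, 0 ≤ w a ∧ w a ≤ 1) (u : Bk X → Finset F.Lb) :
    0 ≤ am F w u ∧ am F w u ≤ 1 := by
  unfold am
  exact ⟨Finset.prod_nonneg fun β _ => (lkb_pr F w hw (u β)).1,
    Finset.prod_le_one (fun β _ => (lkb_pr F w hw (u β)).1) fun β _ => (lkb_pr F w hw (u β)).2⟩

private theorem lkb_inner (F : Fr X K) (B : Bl F) (m : ℕ) (O : Or B) (c : F.C) (w : F.Lb → ℝ)
    (s : F.Lb → ZMod X.p) (H : (F.R → ZMod X.p) → (B.St → ZMod m) → ℂ) (hw : ∀ a, 0 ≤ w a ∧ w a ≤ 1)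
    (hH : ∀ x y, ‖H x y‖ ≤ 1) (Z₁ Z : ℝ) (R k : ℕ) (L : Finset (Bk X)) 
    (β β' : Bk X) (hβ : β ∈ L) (hβ' : β' ∈ L) (hne : β ≠ β') (Y : ℝ) (ρ : Bk X → Finset F.Lb) :
    (∑ u ∈ (BF F.toFr0 Y).filter (fun u => lr F.toFr0 β β' u = ρ),
      if Cb F.toFr0 Z R k L u ∧ Bg F.toFr0 Z₁ (BU F.toFr0 u) then
      ((am F.toFr0 w u : ℝ) : ℂ) * H (F.tot (BU F.toFr0 u)) (prf B m (BU F.toFr0 u)) *
        ep X.p (pb B O c s u) else 0) = 0 ∨
    (1 ≤ Y / nrb F.toFr0 ρ ∧ ∃ (α α' : Finset F.Lb → ℂ)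
      (G : ((F.R → ZMod X.p) × (B.St → ZMod m) × (B.St → ZMod X.p)) →
        ((F.R → ZMod X.p) × (B.St → ZMod m) × (B.St → ZMod X.p)) → ℂ) (c' : ℝ),
      (∀ g, ‖α g‖ ≤ 1) ∧ (∀ g, ‖α' g‖ ≤ 1) ∧ (∀ x y, ‖G x y‖ ≤ 1) ∧
      (∑ u ∈ (BF F.toFr0 Y).filter (fun u => lr F.toFr0 β β' u = ρ),
        if Cb F.toFr0 Z R k L u ∧ Bg F.toFr0 Z₁ (BU F.toFr0 u) then
        ((am F.toFr0 w u : ℝ) : ℂ) * H (F.tot (BU F.toFr0 u)) (prf B m (BU F.toFr0 u)) *
          ep X.p (pb B O c s u) else 0) =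
      ∑ g ∈ F.Fam {β.1.1.1} (Y / nrb F.toFr0 ρ), ∑ h ∈ F.Fam {β'.1.1.1} (Y / nrb F.toFr0 ρ),
        if lv Z R (k + 1) < F.nrl g ∧ lv Z R (k + 1) < F.nrl h ∧ F.nrl g * F.nrl h ≤ Y / nrb F.toFr0 ρ ∧
          c' < F.nrl g * F.nrl h ∧ Disjoint (F.und g) (F.und h) then α g * α' h *
          G ((fun g : Finset F.Lb => (F.tot g, prf B m g, prf B X.p g)) g)
            ((fun g : Finset F.Lb => (F.tot g, prf B m g, prf B X.p g)) h) *
          ep X.p (∑ a ∈ g, ∑ b ∈ h, ((β.1.1.2 - β'.1.1.2) ⬝ᵥ F.s a b + B.P b a)) else 0) := by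
  by_cases hex : ∃ u₀ ∈ BF F.toFr0 Y, lr F.toFr0 β β' u₀ = ρ ∧ Cb F.toFr0 Z R k L u₀
  swap
  · left
    refine Finset.sum_eq_zero fun u hu => ?_
    rw [Finset.mem_filter] at hu
    rw [if_neg]
    intro hP
    exact hex ⟨u, hu.1, hu.2, hP.1⟩
  right
  obtain ⟨u₀, hu₀, hρ, hC⟩ := hex
  rw [mem_BF] at hu₀
  have hρβ : ρ β = ∅ := hρ ▸ lr_b F.toFr0 β β' u₀
  have hρβ' : ρ β' = ∅ := hρ ▸ lr_b' F.toFr0 β β' u₀
  have hρne : ∀ σ, σ ≠ β → σ ≠ β' → ρ σ = u₀ σ := fun σ h1 h2 => hρ ▸ lr_eq F.toFr0 β β' u₀ h1 h2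
  have hρok : BOk F.toFr0 ρ := hρ ▸ lr_bok F.toFr0 β β' u₀ hu₀.1
  have hn1 := one_le_nrb F.toFr0 ρ
  have hn0 : 0 < nrb F.toFr0 ρ := by linarith
  have hYY : 1 ≤ Y / nrb F.toFr0 ρ := by
    rw [le_div_iff₀ hn0, one_mul, ← hρ]
    have h1 := lkb_nrb F.toFr0 hne u₀
    have h2 := F.one_le_nrl (u₀ β)
    have h3 := F.one_le_nrl (u₀ β')
    have h4 := one_le_nrb F.toFr0 (lr F.toFr0 β β' u₀)
    have h5 : 1 ≤ F.nrl (u₀ β) * F.nrl (u₀ β') := by nlinarith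
    nlinarith [hu₀.2]
  obtain ⟨A1, A2, Φ, hAB⟩ := pha F B O c s β β' hne ρ hρβ hρβ'
  obtain ⟨a1, a2, c', hbg⟩ := bg_upd F.toFr0 ρ β β' hne hρβ hρβ' Z₁
  have hamρ := lkb_am1 F.toFr0 w hw ρ
  refine ⟨hYY, fun g => if Disjoint (F.und g) (F.und (BU F.toFr0 ρ)) ∧ a1 g then
      ((am F.toFr0 w ρ * ∏ a ∈ g, w a / 3 : ℝ) : ℂ) * ep X.p (A1 g) else 0,
    fun g => if Disjoint (F.und g) (F.und (BU F.toFr0 ρ)) ∧ a2 g then
      ((∏ a ∈ g, w a / 3 : ℝ) : ℂ) * ep X.p (A2 g) else 0,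
    fun x y => H (F.tot (BU F.toFr0 ρ) + x.1 + y.1) (prf B m (BU F.toFr0 ρ) + x.2.1 + y.2.1) *
      ep X.p (Φ x.2.2 y.2.2), c', ?_, ?_, ?_, ?_⟩
  · intro g
    beta_reduce
    have h1 := lkb_pr F.toFr0 w hw g
    split_ifs
    · rw [norm_mul, ep_norm, mul_one, Complex.norm_real, Real.norm_eq_abs, abs_of_nonneg (mul_nonneg hamρ.1 h1.1)]
      exact mul_le_one₀ hamρ.2 h1.1 h1.2
    · rw [norm_zero]
      exact zero_le_one
  · intro g
    beta_reduce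
    have h1 := lkb_pr F.toFr0 w hw g
    split_ifs
    · rw [norm_mul, ep_norm, mul_one, Complex.norm_real, Real.norm_eq_abs, abs_of_nonneg h1.1]
      exact h1.2
    · rw [norm_zero]
      exact zero_le_one
  · intro x y
    beta_reduce
    rw [norm_mul, ep_norm, mul_one]
    exact hH _ _
  -- the bijection
  rw [← Finset.sum_filter, ← Finset.sum_product', ← Finset.sum_filter]
  have hR : ∑ x ∈ (F.Fam {β.1.1.1} (Y / nrb F.toFr0 ρ) ×ˢ F.Fam {β'.1.1.1} (Y / nrb F.toFr0 ρ)).filter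
        (fun x => lv Z R (k + 1) < F.nrl x.1 ∧ lv Z R (k + 1) < F.nrl x.2 ∧
          F.nrl x.1 * F.nrl x.2 ≤ Y / nrb F.toFr0 ρ ∧
          c' < F.nrl x.1 * F.nrl x.2 ∧ Disjoint (F.und x.1) (F.und x.2)),
        (fun g => if Disjoint (F.und g) (F.und (BU F.toFr0 ρ)) ∧ a1 g then
          ((am F.toFr0 w ρ * ∏ a ∈ g, w a / 3 : ℝ) : ℂ) * ep X.p (A1 g) else 0) x.1 *
        (fun g => if Disjoint (F.und g) (F.und (BU F.toFr0 ρ)) ∧ a2 g then
          ((∏ a ∈ g, w a / 3 : ℝ) : ℂ) * ep X.p (A2 g) else 0) x.2 *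
        (fun x y : (F.R → ZMod X.p) × (B.St → ZMod m) × (B.St → ZMod X.p) =>
          H (F.tot (BU F.toFr0 ρ) + x.1 + y.1) (prf B m (BU F.toFr0 ρ) + x.2.1 + y.2.1) *
          ep X.p (Φ x.2.2 y.2.2)) ((fun g : Finset F.Lb => (F.tot g, prf B m g, prf B X.p g)) x.1)
            ((fun g : Finset F.Lb => (F.tot g, prf B m g, prf B X.p g)) x.2) *
        ep X.p (∑ a ∈ x.1, ∑ b ∈ x.2, ((β.1.1.2 - β'.1.1.2) ⬝ᵥ F.s a b + B.P b a)) =
      ∑ x ∈ ((F.Fam {β.1.1.1} (Y / nrb F.toFr0 ρ) ×ˢ F.Fam {β'.1.1.1} (Y / nrb F.toFr0 ρ)).filter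
        (fun x => lv Z R (k + 1) < F.nrl x.1 ∧ lv Z R (k + 1) < F.nrl x.2 ∧
          F.nrl x.1 * F.nrl x.2 ≤ Y / nrb F.toFr0 ρ ∧
          c' < F.nrl x.1 * F.nrl x.2 ∧ Disjoint (F.und x.1) (F.und x.2))).filter
        (fun x => (Disjoint (F.und x.1) (F.und (BU F.toFr0 ρ)) ∧ a1 x.1) ∧
          (Disjoint (F.und x.2) (F.und (BU F.toFr0 ρ)) ∧ a2 x.2)),
        ((am F.toFr0 w ρ * ∏ a ∈ x.1, w a / 3 : ℝ) : ℂ) * ep X.p (A1 x.1) *
        (((∏ a ∈ x.2, w a / 3 : ℝ) : ℂ) * ep X.p (A2 x.2)) *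
        (H (F.tot (BU F.toFr0 ρ) + F.tot x.1 + F.tot x.2)
          (prf B m (BU F.toFr0 ρ) + prf B m x.1 + prf B m x.2) * ep X.p (Φ (prf B X.p x.1) (prf B X.p x.2))) *
        ep X.p (∑ a ∈ x.1, ∑ b ∈ x.2, ((β.1.1.2 - β'.1.1.2) ⬝ᵥ F.s a b + B.P b a)) := by
    rw [Finset.sum_filter _ (f := fun x : Finset F.Lb × Finset F.Lb =>
        ((am F.toFr0 w ρ * ∏ a ∈ x.1, w a / 3 : ℝ) : ℂ) * ep X.p (A1 x.1) *
        (((∏ a ∈ x.2, w a / 3 : ℝ) : ℂ) * ep X.p (A2 x.2)) *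
        (H (F.tot (BU F.toFr0 ρ) + F.tot x.1 + F.tot x.2)
          (prf B m (BU F.toFr0 ρ) + prf B m x.1 + prf B m x.2) * ep X.p (Φ (prf B X.p x.1) (prf B X.p x.2))) *
        ep X.p (∑ a ∈ x.1, ∑ b ∈ x.2, ((β.1.1.2 - β'.1.1.2) ⬝ᵥ F.s a b + B.P b a)))]
    refine Finset.sum_congr rfl fun x _ => ?_
    beta_reduce
    by_cases h1 : Disjoint (F.und x.1) (F.und (BU F.toFr0 ρ)) ∧ a1 x.1
    · by_cases h2 : Disjoint (F.und x.2) (F.und (BU F.toFr0 ρ)) ∧ a2 x.2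
      · rw [if_pos h1, if_pos h2, if_pos ⟨h1, h2⟩]
      · have h4 : ¬ ((Disjoint (F.und x.1) (F.und (BU F.toFr0 ρ)) ∧ a1 x.1) ∧
            (Disjoint (F.und x.2) (F.und (BU F.toFr0 ρ)) ∧ a2 x.2)) := fun h3 => h2 h3.2
        rw [if_neg h2, if_neg h4, mul_zero, zero_mul, zero_mul]
    · have h4 : ¬ ((Disjoint (F.und x.1) (F.und (BU F.toFr0 ρ)) ∧ a1 x.1) ∧
          (Disjoint (F.und x.2) (F.und (BU F.toFr0 ρ)) ∧ a2 x.2)) := fun h3 => h1 h3.1
      rw [if_neg h1, if_neg h4, zero_mul, zero_mul, zero_mul]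
  rw [hR]
  refine Finset.sum_nbij' (fun u => (u β, u β')) (fun x => upd F.toFr0 ρ β β' x.1 x.2)
    ?_ ?_ ?_ ?_ ?_
  · -- maps into
    intro u hu
    rw [Finset.mem_filter, Finset.mem_filter, mem_BF] at hu
    obtain ⟨⟨⟨hok, hY⟩, hlr⟩, hCu, hBu⟩ := hu
    have hupd := upd_lr F.toFr0 ρ hne u hlr
    have hbgu := (hbg (u β) (u β') (hupd.symm ▸ hok)).1 (hupd.symm ▸ hBu)
    have hn := lkb_nrb F.toFr0 hne u
    rw [hlr] at hn
    have h2 := F.one_le_nrl (u β)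
    have h3 := F.one_le_nrl (u β')
    have hle : F.nrl (u β) * F.nrl (u β') ≤ Y / nrb F.toFr0 ρ := by
      rw [le_div_iff₀ hn0, ← hn]
      exact hY
    rw [Finset.mem_filter, Finset.mem_filter, Finset.mem_product, Fr0.mem_Fam, Fr0.mem_Fam]
    refine ⟨⟨⟨⟨hok.2.1 β, ?_, ?_⟩, ⟨hok.2.1 β', ?_, ?_⟩⟩, hCu.1 β hβ, hCu.1 β' hβ', hle, hbgu.2.2,
      hok.2.2 β β' hne⟩, ⟨?_, hbgu.1⟩, ⟨?_, hbgu.2.1⟩⟩
    · intro i hi
      unfold Fr0.cls at hi
      rw [Finset.mem_image] at hi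
      obtain ⟨a, ha, rfl⟩ := hi
      rw [Finset.mem_singleton]
      exact hok.1 β a ha
    · beta_reduce
      nlinarith
    · intro i hi
      unfold Fr0.cls at hi
      rw [Finset.mem_image] at hi
      obtain ⟨a, ha, rfl⟩ := hi
      rw [Finset.mem_singleton]
      exact hok.1 β' a ha
    · beta_reduce
      nlinarith
    · rw [Finset.disjoint_left]
      intro v hv hv'
      unfold Fr0.und BU at hv'
      rw [Finset.mem_image] at hv'
      obtain ⟨a, ha, rfl⟩ := hv'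
      rw [Finset.mem_biUnion] at ha
      obtain ⟨σ, -, ha⟩ := ha
      have h5 : σ ≠ β := by
        rintro rfl
        rw [hρβ] at ha
        exact Finset.notMem_empty _ ha
      have h6 := hlr ▸ ha
      exact Finset.disjoint_left.1 (hok.2.2 β σ h5.symm) hv
        (Finset.mem_image_of_mem _ (lr_sub F.toFr0 β β' u σ h6))
    · rw [Finset.disjoint_left]
      intro v hv hv'
      unfold Fr0.und BU at hv'
      rw [Finset.mem_image] at hv'
      obtain ⟨a, ha, rfl⟩ := hv'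
      rw [Finset.mem_biUnion] at ha
      obtain ⟨σ, -, ha⟩ := ha
      have h5 : σ ≠ β' := by
        rintro rfl
        rw [hρβ'] at ha
        exact Finset.notMem_empty _ ha
      have h6 := hlr ▸ ha
      exact Finset.disjoint_left.1 (hok.2.2 β' σ h5.symm) hv
        (Finset.mem_image_of_mem _ (lr_sub F.toFr0 β β' u σ h6))
  · -- the inverse
    rintro ⟨g, h⟩ hx
    rw [Finset.mem_filter, Finset.mem_filter, Finset.mem_product, Fr0.mem_Fam, Fr0.mem_Fam] at hx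
    obtain ⟨⟨⟨⟨hg, hgc, -⟩, ⟨hh, hhc, -⟩⟩, hz, hz', hle, hcc, hdis⟩, ⟨hd, ha1⟩, ⟨hd', ha2⟩⟩ := hx
    dsimp only at hg hgc hh hhc hz hz' hle hcc hdis hd hd' ha1 ha2
    obtain ⟨u, hudef⟩ : ∃ u, u = upd F.toFr0 ρ β β' g h := ⟨_, rfl⟩
    have e1 : u β = g := by
      rw [hudef, upd_b F.toFr0 ρ hne]
    have e2 : u β' = h := by
      rw [hudef, upd_b']
    have e3 : ∀ σ, σ ≠ β → σ ≠ β' → u σ = ρ σ := by
      intro σ hσ hσ'
      rw [hudef, upd_ne F.toFr0 ρ β β' g h hσ hσ']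
    have huok : BOk F.toFr0 u := by
      refine ⟨fun σ a ha => ?_, fun σ => ?_, fun σ σ' hσ => ?_⟩
      · by_cases h1 : σ = β
        · rw [h1] at ha ⊢
          rw [e1] at ha
          exact Finset.mem_singleton.1 (hgc (Finset.mem_image_of_mem _ ha))
        by_cases h2 : σ = β'
        · rw [h2] at ha ⊢
          rw [e2] at ha
          exact Finset.mem_singleton.1 (hhc (Finset.mem_image_of_mem _ ha))
        · rw [e3 σ h1 h2] at ha
          exact hρok.1 σ a ha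
      · by_cases h1 : σ = β
        · rw [h1, e1]
          exact hg
        by_cases h2 : σ = β'
        · rw [h2, e2]
          exact hh
        · rw [e3 σ h1 h2]
          exact hρok.2.1 σ
      · by_cases h1 : σ = β
        · rw [h1, e1]
          by_cases h2 : σ' = β'
          · rw [h2, e2]
            exact hdis
          · rw [e3 σ' (fun h3 => hσ (h1.trans h3.symm)) h2]
            exact hd.mono_right (lkb_und F.toFr0 ρ σ')
        by_cases h2 : σ = β'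
        · rw [h2, e2]
          by_cases h3 : σ' = β
          · rw [h3, e1]
            exact hdis.symm
          · rw [e3 σ' h3 (fun h4 => hσ (h2.trans h4.symm))]
            exact hd'.mono_right (lkb_und F.toFr0 ρ σ')
        · rw [e3 σ h1 h2]
          by_cases h3 : σ' = β
          · rw [h3, e1]
            exact (hd.mono_right (lkb_und F.toFr0 ρ σ)).symm
          by_cases h4 : σ' = β'
          · rw [h4, e2]
            exact (hd'.mono_right (lkb_und F.toFr0 ρ σ)).symm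
          · rw [e3 σ' h3 h4]
            exact hρok.2.2 σ σ' hσ
    have hlr : lr F.toFr0 β β' u = ρ := by
      funext σ
      by_cases h1 : σ = β
      · rw [h1, lr_b, hρβ]
      by_cases h2 : σ = β'
      · rw [h2, lr_b', hρβ']
      · rw [lr_eq F.toFr0 β β' u h1 h2, e3 σ h1 h2]
    have hout : ∀ σ, σ ∉ L → u σ = u₀ σ := by
      intro σ h1
      have h2 : σ ≠ β := fun h3 => h1 (h3 ▸ hβ)
      have h3 : σ ≠ β' := fun h4 => h1 (h4 ▸ hβ')
      rw [e3 σ h2 h3, hρne σ h2 h3]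
    have hbgu : Bg F.toFr0 Z₁ (BU F.toFr0 u) := by
      rw [hudef]
      exact (hbg g h (hudef ▸ huok)).2 ⟨ha1, ha2, hcc⟩
    dsimp only
    rw [← hudef, Finset.mem_filter, Finset.mem_filter, mem_BF]
    refine ⟨⟨⟨huok, ?_⟩, hlr⟩, ⟨fun σ hσ => ?_, fun σ hσ => ?_, fun k' hk' => ?_⟩, hbgu⟩
    · rw [lkb_nrb F.toFr0 hne u, hlr, e1, e2]
      rwa [le_div_iff₀ hn0] at hle
    · by_cases h1 : σ = β
      · rw [h1, e1]
        exact hz
      by_cases h2 : σ = β'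
      · rw [h2, e2]
        exact hz'
      · rw [e3 σ h1 h2, hρne σ h1 h2]
        exact hC.1 σ hσ
    · rw [hout σ hσ]
      exact hC.2.1 σ hσ
    · obtain ⟨σ, hσ, h1, h2⟩ := hC.2.2 k' hk'
      exact ⟨σ, hσ, by rw [hout σ hσ]; exact h1, by rw [hout σ hσ]; exact h2⟩
  · intro u hu
    rw [Finset.mem_filter, Finset.mem_filter] at hu
    dsimp only
    exact upd_lr F.toFr0 ρ hne u hu.1.2
  · rintro ⟨g, h⟩ _
    dsimp only
    rw [upd_b F.toFr0 ρ hne, upd_b']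
  · intro u hu
    rw [Finset.mem_filter, Finset.mem_filter, mem_BF] at hu
    obtain ⟨⟨⟨hok, hY⟩, hlr⟩, hCu, hBu⟩ := hu
    have hu' := upd_lr F.toFr0 ρ hne u hlr
    have hok' : BOk F.toFr0 (upd F.toFr0 ρ β β' (u β) (u β')) := hu'.symm ▸ hok
    have hPh := hAB (u β) (u β') hok'
    have ht := tot_upd F.toFr0 ρ β β' hne hρβ hρβ' (u β) (u β') hok'
    have hp := prf_upd F B m ρ β β' hne hρβ hρβ' (u β) (u β') hok'
    rw [hu'] at hPh ht hp
    have ham := lkb_am F.toFr0 w hne u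
    rw [hlr] at ham
    dsimp only
    rw [ht, hp, hPh, ep_add X.hp, ep_add X.hp, ep_add X.hp, ham]
    push_cast
    ring

end

theorem lkb (F : Fr X K) (B : Bl F) (m : ℕ) [NeZero m] : ∃ (C : ℝ) (A : ℕ) (δ : ℝ), 1 ≤ C ∧ 0 < δ ∧ δ ≤ 1 / 4 ∧
    ∀ (O : Or B) (c : F.C) (w : F.Lb → ℝ) (s : F.Lb → ZMod X.p)
      (H : (F.R → ZMod X.p) → (B.St → ZMod m) → ℂ), (∀ a, 0 ≤ w a ∧ w a ≤ 1) → (∀ x y, ‖H x y‖ ≤ 1) →
      ∀ (Z₁ Z : ℝ) (R k : ℕ) (L : Finset (Bk X)), 1 ≤ Z → 1 ≤ R → (∃ β ∈ L, ∃ β' ∈ L, B.bl β β') →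
      ∀ Y : ℝ, 1 ≤ Y → ‖SB B O m c w s H Z₁ Z R k L Y‖ ≤ C * Y * Z ^ (-δ) * (1 + Real.log Y) ^ A := by
  obtain ⟨C₁, A₁, δ, hC₁, hδ, hδ', H₁⟩ := bil F B
  obtain ⟨C₂, A₂, hC₂, H₂⟩ := trb F
  haveI : NeZero X.p := ⟨X.hp.ne_zero⟩
  obtain ⟨q, hq⟩ : ∃ q : ℝ, q = (Fintype.card ((F.R → ZMod X.p) × (B.St → ZMod m) × (B.St → ZMod X.p)) : ℝ) :=
    ⟨_, rfl⟩
  have hq1 : 1 ≤ q := by
    rw [hq]
    exact_mod_cast Fintype.card_pos
  refine ⟨C₁ * q ^ 2 * C₂, A₁ + A₂, δ, ?_, hδ, hδ',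
    fun O c w s H hw hH Z₁ Z R k L hZ hR hlk Y hY => ?_⟩
  · have h1 : 1 ≤ q ^ 2 := one_le_pow₀ hq1
    have h2 : 1 ≤ C₁ * q ^ 2 := by nlinarith
    nlinarith
  obtain ⟨β, hβ, β', hβ', hne, hl⟩ := hlk
  have hlv0 : lv Z R 0 = Z := by
    unfold lv
    rw [pow_zero, pow_one]
  have hlv : Z ≤ lv Z R (k + 1) := by
    have h1 := lv_mono Z hZ R hR (Nat.zero_le (k + 1))
    rwa [hlv0] at h1
  have hz1 : 1 ≤ lv Z R (k + 1) := hZ.trans hlv
  have hlog : 1 ≤ 1 + Real.log Y := by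
    have := Real.log_nonneg hY
    linarith
  -- the sum over `ρ`
  have hsum : SB B O m c w s H Z₁ Z R k L Y = ∑ ρ ∈ BF F.toFr0 Y,
      ∑ u ∈ (BF F.toFr0 Y).filter (fun u => lr F.toFr0 β β' u = ρ),
      if Cb F.toFr0 Z R k L u ∧ Bg F.toFr0 Z₁ (BU F.toFr0 u) then
      ((am F.toFr0 w u : ℝ) : ℂ) * H (F.tot (BU F.toFr0 u)) (prf B m (BU F.toFr0 u)) *
        ep X.p (pb B O c s u) else 0 := by
    rw [Finset.sum_fiberwise_of_maps_to (fun u hu => lr_BF F.toFr0 hne Y u hu)]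
    rfl
  have hbd : ∀ ρ ∈ BF F.toFr0 Y,
      ‖∑ u ∈ (BF F.toFr0 Y).filter (fun u => lr F.toFr0 β β' u = ρ),
      if Cb F.toFr0 Z R k L u ∧ Bg F.toFr0 Z₁ (BU F.toFr0 u) then
      ((am F.toFr0 w u : ℝ) : ℂ) * H (F.tot (BU F.toFr0 u)) (prf B m (BU F.toFr0 u)) *
        ep X.p (pb B O c s u) else 0‖ ≤
      C₁ * q ^ 2 * Y * Z ^ (-δ) * (1 + Real.log Y) ^ A₁ * (1 / nrb F.toFr0 ρ) := by
    intro ρ hρ
    have hn1 := one_le_nrb F.toFr0 ρ
    have hn0 : 0 < nrb F.toFr0 ρ := by linarith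
    have hpos : 0 ≤ C₁ * q ^ 2 * Y * Z ^ (-δ) * (1 + Real.log Y) ^ A₁ * (1 / nrb F.toFr0 ρ) := by
      have h1 : 0 ≤ Z ^ (-δ) := Real.rpow_nonneg (by linarith) _
      positivity
    rcases lkb_inner F B m O c w s H hw hH Z₁ Z R k L β β' hβ hβ' hne Y ρ with
      h0 | ⟨hYY, α, α', G, c', hα, hα', hG, heq⟩
    · rw [h0, norm_zero]
      exact hpos
    · rw [heq]
      refine (H₁ β.1.1.1 β'.1.1.1 (β.1.1.2 - β'.1.1.2) hl _
        (fun g : Finset F.Lb => (F.tot g, prf B m g, prf B X.p g)) α α' G hα hα' hG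
        (lv Z R (k + 1)) (Y / nrb F.toFr0 ρ) c' hz1 hYY).trans ?_
      rw [← hq, mul_one_div, le_div_iff₀ hn0]
      have h1 : (lv Z R (k + 1)) ^ (-δ) ≤ Z ^ (-δ) :=
        Real.rpow_le_rpow_of_nonpos (by linarith) hlv (by linarith)
      have h2 : Real.log (Y / nrb F.toFr0 ρ) ≤ Real.log Y := by
        refine Real.log_le_log (by linarith) ?_
        exact div_le_self (by linarith) hn1
      have h3 : 0 ≤ Real.log (Y / nrb F.toFr0 ρ) := Real.log_nonneg hYY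
      have h4 : (1 + Real.log (Y / nrb F.toFr0 ρ)) ^ A₁ ≤ (1 + Real.log Y) ^ A₁ :=
        pow_le_pow_left₀ (by linarith) (by linarith) _
      have h5 : 0 ≤ (lv Z R (k + 1)) ^ (-δ) := Real.rpow_nonneg (by linarith) _
      have h6 : C₁ * q ^ 2 * (Y / nrb F.toFr0 ρ) * (lv Z R (k + 1)) ^ (-δ) *
          (1 + Real.log (Y / nrb F.toFr0 ρ)) ^ A₁ * nrb F.toFr0 ρ =
          C₁ * q ^ 2 * Y * ((lv Z R (k + 1)) ^ (-δ) * (1 + Real.log (Y / nrb F.toFr0 ρ)) ^ A₁) := by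
        field_simp
      rw [h6, mul_assoc (C₁ * q ^ 2 * Y) (Z ^ (-δ))]
      refine mul_le_mul_of_nonneg_left ?_ (by positivity)
      exact mul_le_mul h1 h4 (pow_nonneg (by linarith) _) (h5.trans h1)
  rw [hsum]
  refine (norm_sum_le _ _).trans ((Finset.sum_le_sum hbd).trans ?_)
  rw [← Finset.mul_sum]
  have h2 := (H₂ Y hY).2
  have hZ0 : 0 ≤ Z ^ (-δ) := Real.rpow_nonneg (by linarith) _
  calc C₁ * q ^ 2 * Y * Z ^ (-δ) * (1 + Real.log Y) ^ A₁ * ∑ ρ ∈ BF F.toFr0 Y, 1 / nrb F.toFr0 ρ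
      ≤ C₁ * q ^ 2 * Y * Z ^ (-δ) * (1 + Real.log Y) ^ A₁ * (C₂ * (1 + Real.log Y) ^ A₂) :=
        mul_le_mul_of_nonneg_left h2 (by positivity)
    _ = C₁ * q ^ 2 * C₂ * Y * Z ^ (-δ) * (1 + Real.log Y) ^ (A₁ + A₂) := by
        rw [pow_add]
        ring

end H51.MS
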