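import Pool.Agent.H51.MS.Defs
import Pool.Agent.H51.MM.Lev

/-!
# [H51 MS LVN] Decomposition of the families of blocks by the first gap (80-110 lines)

As `lev` (Pool/Agent/H51/MM/Lev.lean), with `Bk X`, `Cb`, `BF` instead of `X.Ty`, `Cnd`, `TF`: copy.
-/

set_option autoImplicit false

open scoped NumberField
open IsDedekindDomain NumberField H63.MA H36.QA Filter Topology
open scoped Classical

noncomputable section

namespace H51.MS

open H51.MM

variable {X : CD} {K : Type} [Field K] [NumberField K]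

private theorem lev_one (F : Fr0 X K) (Z : ℝ) (hZ : 1 ≤ Z) (R : ℕ) (hR : 1 ≤ R)
    (u : (Bk X) → Finset F.Lb) : ∃ k0 ∈ Finset.range (Fintype.card (Bk X) + 1), ∃ L0 : Finset (Bk X),
      ∀ k L, Cb F Z R k L u ↔ k = k0 ∧ L = L0 := by
  have hm := lv_mono Z hZ R hR
  have hle : ∃ k ≤ Fintype.card (Bk X), ∀ τ, F.nrl (u τ) ≤ lv Z R k ∨ lv Z R (k + 1) < F.nrl (u τ) := by
    by_contra hcon
    push Not at hcon
    have h0 : ∀ k : Fin (Fintype.card (Bk X) + 1), ∃ τ, lv Z R k < F.nrl (u τ) ∧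
        F.nrl (u τ) ≤ lv Z R (k + 1) := fun k => hcon k (by have := k.2; omega)
    choose t ht using h0
    obtain ⟨a, b, hab, h⟩ := Fintype.exists_ne_map_eq_of_card_lt t (by rw [Fintype.card_fin]; omega)
    have key : ∀ a b : Fin (Fintype.card (Bk X) + 1), a < b → t a = t b → False := by
      intro a b hab h
      have h1 := (ht a).2
      have h2 := (ht b).1
      rw [h] at h1
      have h3 := hm (show (a : ℕ) + 1 ≤ b by exact hab)
      linarith
    rcases lt_or_gt_of_ne hab with h1 | h1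
    · exact key a b h1 h
    · exact key b a h1 h.symm
  obtain ⟨k1, hk1, hk1'⟩ := hle
  have hex : ∃ k, ∀ τ, F.nrl (u τ) ≤ lv Z R k ∨ lv Z R (k + 1) < F.nrl (u τ) := ⟨k1, hk1'⟩
  have hk0 : Nat.find hex ≤ k1 := Nat.find_min' hex hk1'
  have hgap := Nat.find_spec hex
  obtain ⟨k0, hk0e⟩ : ∃ k0, k0 = Nat.find hex := ⟨_, rfl⟩
  rw [← hk0e] at hk0 hgap
  refine ⟨k0, Finset.mem_range.2 (by omega), Finset.univ.filter (fun τ => lv Z R (k0 + 1) < F.nrl (u τ)),
    fun k L => ⟨fun h => ?_, ?_⟩⟩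
  · obtain ⟨h1, h2, h3⟩ := h
    have hg : ∀ τ, F.nrl (u τ) ≤ lv Z R k ∨ lv Z R (k + 1) < F.nrl (u τ) := by
      intro τ
      by_cases hτ : τ ∈ L
      · exact Or.inr (h1 τ hτ)
      · exact Or.inl (h2 τ hτ)
    have hkk : k = k0 := by
      have h4 : k0 ≤ k := by
        rw [hk0e]
        exact Nat.find_min' hex hg
      rcases h4.lt_or_eq with h5 | h5
      · exfalso
        obtain ⟨τ, -, h6, h7⟩ := h3 k0 h5
        rcases hgap τ with h8 | h8
        · linarith
        · linarith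
      · exact h5.symm
    refine ⟨hkk, ?_⟩
    ext τ
    rw [Finset.mem_filter, ← hkk]
    constructor
    · intro hτ
      exact ⟨Finset.mem_univ _, h1 τ hτ⟩
    · rintro ⟨-, h4⟩
      by_contra hτ
      have h5 := h2 τ hτ
      have h6 := hm (Nat.le_succ k)
      have h7 : lv Z R k ≤ lv Z R (k + 1) := h6
      linarith
  · rintro ⟨rfl, rfl⟩
    refine ⟨fun τ hτ => (Finset.mem_filter.1 hτ).2, fun τ hτ => ?_, fun k' hk' => ?_⟩
    · rcases hgap τ with h | h
      · exact h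
      · exfalso
        apply hτ
        rw [Finset.mem_filter]
        exact ⟨Finset.mem_univ _, h⟩
    · have h1 : ¬ ∀ τ, F.nrl (u τ) ≤ lv Z R k' ∨ lv Z R (k' + 1) < F.nrl (u τ) := by
        rw [hk0e] at hk'
        exact Nat.find_min hex hk'
      push Not at h1
      obtain ⟨τ, h2, h3⟩ := h1
      refine ⟨τ, ?_, h2, h3⟩
      intro hτ
      have h4 := (Finset.mem_filter.1 hτ).2
      have h5 := hm (show k' + 1 ≤ k + 1 by omega)
      linarith

theorem lvn (F : Fr0 X K) (Z : ℝ) (hZ : 1 ≤ Z) (R : ℕ) (hR : 1 ≤ R) (Y : ℝ)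
    (φ : ((Bk X) → Finset F.Lb) → ℂ) :
    ∑ u ∈ BF F Y, φ u = ∑ k ∈ Finset.range (Fintype.card (Bk X) + 1),
      ∑ L : Finset (Bk X), ∑ u ∈ BF F Y, if Cb F Z R k L u then φ u else 0 := by
  have h1 : ∀ k, ∑ L : Finset (Bk X), ∑ u ∈ BF F Y, (if Cb F Z R k L u then φ u else 0) =
      ∑ u ∈ BF F Y, ∑ L : Finset (Bk X), (if Cb F Z R k L u then φ u else 0) := fun k => Finset.sum_comm
  rw [Finset.sum_congr rfl fun k _ => h1 k, Finset.sum_comm]
  refine Finset.sum_congr rfl fun u _ => ?_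
  obtain ⟨k0, hk0, L0, h⟩ := lev_one F Z hZ R hR u
  rw [Finset.sum_eq_single k0, Finset.sum_eq_single L0]
  · rw [if_pos ((h k0 L0).2 ⟨rfl, rfl⟩)]
  · intro L _ hL
    rw [if_neg]
    intro hc
    exact hL ((h k0 L).1 hc).2
  · intro hL
    exact absurd (Finset.mem_univ _) hL
  · intro k _ hk
    refine Finset.sum_eq_zero fun L _ => ?_
    rw [if_neg]
    intro hc
    exact hk ((h k L).1 hc).1
  · intro hk
    exact absurd hk0 hk

end H51.MS
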