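import Pool.Agent.H51.MS.Defs

/-!
# [H51 MS UNB] Unlinked sets of blocks which meet every class (80-120 lines)

`θ, θ'` functionals of blocks of `L` of class `i`.
* If `θ ≠ θ'`: for every `j ≠ i` take `β ∈ L` of class `j` with functional `θ''`: `¬ lk i j (θ - θ'')`, `¬ lk i j (θ' - θ'')` (different classes, so the blocks are different), so `van i j (θ - θ')` (`lk_sub`). And `¬ lk i i (θ - θ')`.
* If `¬ lk i i 0`: `van i i (θ - θ')` (`lk_sub` with `0`), so `θ - θ' = 0` by `X.Cl univ` (`Th_sub`): one functional, at most 3 blocks.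
* If `lk i i 0`: for one functional only one `r` (two blocks `(τ, r)`, `(τ, r')` are linked); three different functionals `θ₁, θ₂, θ₃`: `¬ lk i i (θ₁ - θ₂)`, `¬ lk i i (θ₁ - θ₃)` give `van i i (θ₃ - θ₂)` (`lk_sub`; up to sign by `van_sub`), and
  `¬ lk i i (θ₂ - θ₃)` with `lk_add` gives `¬ lk i i 0`, a contradiction. So at most 2 blocks.
* `¬ Al`: if `¬ lk i i 0` for all `i`, let `f i` be the functional of class `i`: `¬ lk i j (f i - f j)` for all `i, j`: aligned.
-/

set_option autoImplicit false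

open scoped NumberField
open IsDedekindDomain NumberField H63.MA H36.QA Filter Topology
open scoped Classical

noncomputable section

namespace H51.MS

open H51.MM

variable {X : CD} {K : Type} [Field K] [NumberField K]

theorem unb (F : Fr X K) (B : Bl F) (hX : X.Cl Finset.univ) (L : Finset (Bk X))
    (hL : ∀ β ∈ L, ∀ β' ∈ L, ¬ B.bl β β') (hk : ∀ i, ∃ β ∈ L, β.1.1.1 = i) :
    (∀ i, (L.filter fun β => β.1.1.1 = i).card ≤ 3) ∧
      (¬ B.Al → ∃ i, (L.filter fun β => β.1.1.1 = i).card ≤ 2) := by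
  have hlk : ∀ β ∈ L, ∀ β' ∈ L, β ≠ β' → ¬ B.lk β.1.1.1 β'.1.1.1 (β.1.1.2 - β'.1.1.2) := by
    intro β hβ β' hβ' hne h
    exact hL β hβ β' hβ' ⟨hne, h⟩
  -- the case without self links
  have h3 : ∀ i, ¬ B.lk i i 0 → (L.filter fun β => β.1.1.1 = i).card ≤ 3 := by
    intro i hi
    have hsame : ∀ β ∈ L, ∀ β' ∈ L, β.1.1.1 = i → β'.1.1.1 = i → β.1.1.2 = β'.1.1.2 := by
      intro β hβ β' hβ' e e'
      by_contra hne
      have hb : β ≠ β' := fun h => hne (by rw [h])
      have h0 : ¬ B.lk i i (β.1.1.2 - β'.1.1.2) := by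
        have h := hlk β hβ β' hβ' hb
        rwa [e, e'] at h
      have hmem : β.1.1.2 - β'.1.1.2 ∈ X.Th i := by
        have m1 := β.1.2
        have m2 := β'.1.2
        rw [e] at m1
        rw [e'] at m2
        exact X.Th_sub i _ m1 _ m2
      have hz := hX i (Finset.mem_univ i) _ hmem (fun j _ => by
        by_cases hj : j = i
        · rw [hj]
          have h := B.lk_sub i i _ _ h0 hi
          rwa [sub_zero] at h
        · obtain ⟨γ, hγ, eγ⟩ := hk j
          have n1 : β ≠ γ := fun h => hj (by rw [← eγ, ← h, e])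
          have n2 : β' ≠ γ := fun h => hj (by rw [← eγ, ← h, e'])
          have g1 := hlk β hβ γ hγ n1
          have g2 := hlk β' hβ' γ hγ n2
          rw [e, eγ] at g1
          rw [e', eγ] at g2
          have g3 := B.lk_sub i j _ _ g1 g2
          rwa [sub_sub_sub_cancel_right] at g3)
      exact hne (sub_eq_zero.1 hz)
    have hinj : Set.InjOn (fun β : Bk X => β.2) ((L.filter fun β => β.1.1.1 = i : Finset (Bk X)) : Set (Bk X)) := by
      intro β hβ β' hβ' h
      obtain ⟨a1, a2⟩ := Finset.mem_filter.1 (Finset.mem_coe.1 hβ)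
      obtain ⟨b1, b2⟩ := Finset.mem_filter.1 (Finset.mem_coe.1 hβ')
      refine Prod.ext (Subtype.ext (Prod.ext (a2.trans b2.symm) (hsame β a1 β' b1 a2 b2))) h
    have h4 := Finset.card_le_card_of_injOn (t := (Finset.univ : Finset (Fin 3))) (fun β : Bk X => β.2)
      (fun _ _ => Finset.mem_univ _) hinj
    rwa [Finset.card_univ, Fintype.card_fin] at h4
  -- the case with self links
  have h2 : ∀ i, B.lk i i 0 → (L.filter fun β => β.1.1.1 = i).card ≤ 2 := by
    intro i hi
    by_contra hlt
    have h5 : 2 < (L.filter fun β => β.1.1.1 = i).card := not_le.1 hlt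
    obtain ⟨a, b, c, ha, hb, hc, hab, hac, hbc⟩ := Finset.two_lt_card_iff.1 h5
    obtain ⟨a1, a2⟩ := Finset.mem_filter.1 ha
    obtain ⟨b1, b2⟩ := Finset.mem_filter.1 hb
    obtain ⟨c1, c2⟩ := Finset.mem_filter.1 hc
    have g1 := hlk a a1 b b1 hab
    have g2 := hlk a a1 c c1 hac
    have g3 := hlk b b1 c c1 hbc
    rw [a2, b2] at g1
    rw [a2, c2] at g2
    rw [b2, c2] at g3
    have g4 := B.lk_sub i i _ _ g1 g2
    rw [sub_sub_sub_cancel_left] at g4
    have g5 := B.lk_add i i _ _ g3 g4
    apply g5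
    have e : b.1.1.2 - c.1.1.2 + (c.1.1.2 - b.1.1.2) = 0 := by abel
    rw [e]
    exact hi
  refine ⟨fun i => ?_, fun hal => ?_⟩
  · by_cases hi : B.lk i i 0
    · exact (h2 i hi).trans (by norm_num)
    · exact h3 i hi
  · by_contra hcon
    push Not at hcon
    apply hal
    have hnl : ∀ i, ¬ B.lk i i 0 := fun i hi => absurd (h2 i hi) (not_le.2 (hcon i))
    refine ⟨fun i => (hk i).choose.1.1.2, fun i => ?_, fun i j => ?_⟩
    · have m1 := (hk i).choose.1.2
      rw [(hk i).choose_spec.2] at m1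
      exact m1
    · by_cases hij : i = j
      · subst hij
        rw [sub_self]
        exact hnl i
      · have h6 := hlk _ (hk i).choose_spec.1 _ (hk j).choose_spec.1 (fun h => hij (by
          rw [← (hk i).choose_spec.2, ← (hk j).choose_spec.2, h]))
        rw [(hk i).choose_spec.2, (hk j).choose_spec.2] at h6
        exact h6

end H51.MS
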