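import Pool.Agent.H51.MS.Lkb
import Pool.Agent.H51.MS.Cnb
import Pool.Agent.H51.MS.Unb
import Pool.Agent.H51.MS.Lvn
import Pool.Agent.H51.MS.Exn

/-!
# [H51 MS PAR] The sum over the families with all classes large is negligible (200-260 lines)

`M = card (Bk X)`, `R = 2`. `(C₁, A₁', δ)` from `lkb`, `(C₂, A₂)` from `cnb`, `C₃` from `mss`. `Z = (log Y) ^ a`, `a δ ≥ A₁' + 1`; `lv Z 2 k = (log Y) ^ (a 2^k)`. `A₀ = a * 2 ^ (M + 1) * M`. For `A₁ ≥ A₀`, `Z₁ = (log Y) ^ A₁ ≥ lv Z 2 (M + 1) ^ M`.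
`exn`, `lvn`: `PS = ∑ k ≤ M, ∑ L, SB`. Fix `k`, `L`; three cases:
* some class `i` does not meet `L`: then `nrl (cl i (BU u)) ≤ lv Z 2 k ^ M ≤ Z₁` for every `u` with `Cb`, so `¬ Bg` and `SB = 0` (`cl i (BU u)` is the union of the `u β`, `β` of class `i`).
* `L` contains a linked pair: `lkb`: `≤ C₁ Y (1 + log Y) ^ A₁' (log Y) ^ (-a δ) = O(Y / log Y) * 2 ^ A₁'`.
* otherwise: `‖SB‖ ≤` the sum in `cnb` (for `Y` large `lv Z 2 k ^ (2 M) ≤ Y`) `≤ C₂ (1 + log (lv Z 2 k)) ^ A₂ (Y / log Y) exp (∑ β ∈ L, Ms (class of β) Y / 3)`, and `∑ β ∈ L, Ms / 3 ≤ (N - ε) loglog Y + C₄` by `unb`, `mss`, the hypothesis: with `n_i` = number of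
  `β ∈ L` of class `i`, `n_i ≤ 3`: case `¬ Al`: one `n_i ≤ 2`, `ε = 1/3`; case (ii): class `i` contributes `≤ n_i / 3 * ((1 - δ) loglog Y + C) ≤ (1 - δ)⁺ loglog Y + |C|` (`Ms ≥ 0`), `ε = min δ 1`.
So `SB / (Y (log Y) ^ (N - 1)) = O((loglog Y) ^ A₂ (log Y) ^ (-ε)) → 0`.
-/

set_option autoImplicit false

open scoped NumberField
open IsDedekindDomain NumberField H63.MA H36.QA Filter Topology
open scoped Classical

noncomputable section

namespace H51.MS

open H51.MM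

variable {X : CD} {K : Type} [Field K] [NumberField K]

/-- the labels of one class of a family of blocks -/
private theorem cl_nrl (F : Fr0 X K) (i : Fin X.N) (u : Bk X → Finset F.Lb) (hu : BOk F u) (x : ℝ)
    (hx : 1 ≤ x) (h : ∀ β : Bk X, β.1.1.1 = i → F.nrl (u β) ≤ x) :
    F.nrl (cl F i (BU F u)) ≤ x ^ Fintype.card (Bk X) := by
  have h1 : cl F i (BU F u) = (Finset.univ.filter fun β : Bk X => β.1.1.1 = i).biUnion u := by
    ext a
    unfold cl BU
    rw [Finset.mem_filter, Finset.mem_biUnion, Finset.mem_biUnion]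
    constructor
    · rintro ⟨⟨β, -, ha⟩, hi⟩
      refine ⟨β, Finset.mem_filter.2 ⟨Finset.mem_univ _, ?_⟩, ha⟩
      rw [← hu.1 β a ha]
      exact hi
    · rintro ⟨β, hβ, ha⟩
      refine ⟨⟨β, Finset.mem_univ _, ha⟩, ?_⟩
      rw [hu.1 β a ha]
      exact (Finset.mem_filter.1 hβ).2
  rw [h1]
  have h2 : F.nrl ((Finset.univ.filter fun β : Bk X => β.1.1.1 = i).biUnion u) =
      ∏ β ∈ Finset.univ.filter fun β : Bk X => β.1.1.1 = i, F.nrl (u β) := by
    unfold Fr0.nrl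
    rw [Finset.prod_biUnion]
    intro β _ β' _ hne
    exact bok_dis F u hu β β' hne
  rw [h2]
  calc ∏ β ∈ Finset.univ.filter fun β : Bk X => β.1.1.1 = i, F.nrl (u β)
      ≤ ∏ _β ∈ Finset.univ.filter fun β : Bk X => β.1.1.1 = i, x :=
        Finset.prod_le_prod (fun β _ => zero_le_one.trans (F.one_le_nrl (u β))) fun β hβ =>
          h β (Finset.mem_filter.1 hβ).2
    _ = x ^ (Finset.univ.filter fun β : Bk X => β.1.1.1 = i).card := Finset.prod_const _
    _ ≤ x ^ Fintype.card (Bk X) := pow_le_pow_right₀ hx (Finset.card_filter_le _ _)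

/-- a class without large blocks -/
private theorem sb_zero (F : Fr X K) (B : Bl F) (m : ℕ) (O : Or B) (c : F.C) (w : F.Lb → ℝ)
    (s : F.Lb → ZMod X.p) (H : (F.R → ZMod X.p) → (B.St → ZMod m) → ℂ) (Z₁ Z : ℝ) (hZ : 1 ≤ Z)
    (k : ℕ) (L : Finset (Bk X)) (i : Fin X.N) (hi : ∀ β ∈ L, β.1.1.1 ≠ i)
    (h : lv Z 2 k ^ Fintype.card (Bk X) ≤ Z₁) (Y : ℝ) : SB B O m c w s H Z₁ Z 2 k L Y = 0 := by
  unfold SB
  refine Finset.sum_eq_zero fun u hu => ?_
  rw [if_neg]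
  rintro ⟨hC, hB⟩
  rw [mem_BF] at hu
  have h1 := hB i
  have hl : 1 ≤ lv Z 2 k := by
    unfold lv
    exact one_le_pow₀ hZ
  have h2 := cl_nrl F.toFr0 i u hu.1 (lv Z 2 k) hl fun β hβ => hC.2.1 β fun hL => hi β hL hβ
  linarith

/-- the trivial bound -/
private theorem sb_le (F : Fr X K) (B : Bl F) (m : ℕ) (O : Or B) (c : F.C) (w : F.Lb → ℝ)
    (hw : ∀ a, 0 ≤ w a ∧ w a ≤ 1)
    (s : F.Lb → ZMod X.p) (H : (F.R → ZMod X.p) → (B.St → ZMod m) → ℂ) (hH : ∀ x y, ‖H x y‖ ≤ 1)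
    (Z₁ Z : ℝ) (R k : ℕ) (L : Finset (Bk X)) (Y : ℝ) : ‖SB B O m c w s H Z₁ Z R k L Y‖ ≤
      ∑ u ∈ BF F.toFr0 Y, if ∀ β, β ∉ L → F.nrl (u β) ≤ lv Z R k then am F.toFr0 w u else 0 := by
  unfold SB
  refine (norm_sum_le _ _).trans (Finset.sum_le_sum fun u _ => ?_)
  have h0 : 0 ≤ am F.toFr0 w u := by
    unfold am
    exact Finset.prod_nonneg fun β _ => Finset.prod_nonneg fun a _ =>
      div_nonneg (hw a).1 (by norm_num)
  by_cases h1 : Cb F.toFr0 Z R k L u ∧ Bg F.toFr0 Z₁ (BU F.toFr0 u)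
  · rw [if_pos h1, if_pos h1.1.2.1, norm_mul, norm_mul, ep_norm, mul_one, Complex.norm_real,
      Real.norm_of_nonneg h0]
    exact mul_le_of_le_one_right h0 (hH _ _)
  · rw [if_neg h1, norm_zero]
    split_ifs
    · exact h0
    · exact le_rfl

private theorem lim_a (C : ℝ) (A a : ℕ) (δ : ℝ) (h : (A : ℝ) + 1 ≤ a * δ) :
    Tendsto (fun Y : ℝ => C * ((Real.log Y ^ a) ^ (-δ) * (1 + Real.log Y) ^ A)) atTop (𝓝 0) := by
  have h1 : Tendsto (fun t : ℝ => (t ^ a) ^ (-δ) * (1 + t) ^ A) atTop (𝓝 0) := by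
    refine squeeze_zero' (g := fun t : ℝ => 2 ^ A * t⁻¹) ?_ ?_ ?_
    · filter_upwards [eventually_ge_atTop (1 : ℝ)] with t ht
      have ht0 : 0 < t := by linarith
      positivity
    · filter_upwards [eventually_ge_atTop (1 : ℝ)] with t ht
      have ht0 : 0 < t := by linarith
      have h2 : (t ^ a) ^ (-δ) ≤ (t ^ (A + 1))⁻¹ := by
        rw [← Real.rpow_natCast t a, ← Real.rpow_mul ht0.le, ← Real.rpow_natCast t (A + 1),
          ← Real.rpow_neg ht0.le]
        refine Real.rpow_le_rpow_of_exponent_le ht ?_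
        push_cast
        linarith
      have h3 : (1 + t) ^ A ≤ 2 ^ A * t ^ A := by
        rw [← mul_pow]
        exact pow_le_pow_left₀ (by positivity) (by linarith) A
      calc (t ^ a) ^ (-δ) * (1 + t) ^ A ≤ (t ^ (A + 1))⁻¹ * (2 ^ A * t ^ A) :=
            mul_le_mul h2 h3 (by positivity) (by positivity)
        _ = 2 ^ A * t⁻¹ := by
            rw [pow_succ]
            field_simp
    · simpa using tendsto_inv_atTop_zero.const_mul ((2 : ℝ) ^ A)
  have h2 := (h1.comp Real.tendsto_log_atTop).const_mul C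
  simpa using h2

private theorem lim_b (C ε q : ℝ) (hε : 0 < ε) (hq : 0 ≤ q) (A : ℕ) :
    Tendsto (fun t : ℝ => C * ((1 + q * t) ^ A * Real.exp (-(ε * t)))) atTop (𝓝 0) := by
  have h1 : Tendsto (fun t : ℝ => (1 + q * t) ^ A * Real.exp (-(ε * t))) atTop (𝓝 0) := by
    refine squeeze_zero' (g := fun t : ℝ => (1 + q) ^ A * (t ^ A / Real.exp (ε * t))) ?_ ?_ ?_
    · filter_upwards [eventually_ge_atTop (1 : ℝ)] with t ht
      have ht0 : 0 < t := by linarith
      positivity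
    · filter_upwards [eventually_ge_atTop (1 : ℝ)] with t ht
      have ht0 : 0 < t := by linarith
      have h3 : (1 + q * t) ^ A ≤ (1 + q) ^ A * t ^ A := by
        rw [← mul_pow]
        exact pow_le_pow_left₀ (by positivity) (by nlinarith) A
      rw [Real.exp_neg, ← div_eq_mul_inv, ← mul_div_assoc]
      exact div_le_div_of_nonneg_right h3 (Real.exp_pos _).le
    · simpa using (isLittleO_pow_exp_pos_mul_atTop A hε).tendsto_div_nhds_zero.const_mul ((1 + q) ^ A)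
  have h2 := h1.const_mul C
  simpa using h2

/-- the exponent -/
private theorem ms_sum (L : Finset (Bk X)) (T C₃ ε C₅ : ℝ) (hC₃ : 0 ≤ C₃) (μ : Fin X.N → ℝ)
    (hμ0 : ∀ i, 0 ≤ μ i) (hμ : ∀ i, μ i ≤ T + C₃)
    (hn : ∀ i, (L.filter fun β => β.1.1.1 = i).card ≤ 3) (i₀ : Fin X.N)
    (h₀ : ((L.filter fun β => β.1.1.1 = i₀).card : ℝ) * (μ i₀ / 3) ≤ (1 - ε) * T + C₅) :
    ∑ β ∈ L, μ β.1.1.1 / 3 ≤ (X.N * T - ε * T) + (X.N * C₃ + C₅) := by
  have h1 : ∑ β ∈ L, μ β.1.1.1 / 3 =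
      ∑ i : Fin X.N, ((L.filter fun β => β.1.1.1 = i).card : ℝ) * (μ i / 3) := by
    rw [← Finset.sum_fiberwise L (fun β : Bk X => β.1.1.1)]
    refine Finset.sum_congr rfl fun i _ => ?_
    rw [← nsmul_eq_mul, ← Finset.sum_const]
    refine Finset.sum_congr rfl fun β hβ => ?_
    rw [(Finset.mem_filter.1 hβ).2]
  rw [h1, ← Finset.add_sum_erase Finset.univ _ (Finset.mem_univ i₀)]
  have h2 : ∑ i ∈ Finset.univ.erase i₀, ((L.filter fun β => β.1.1.1 = i).card : ℝ) * (μ i / 3) ≤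
      ∑ _i ∈ Finset.univ.erase i₀, (T + C₃) := by
    refine Finset.sum_le_sum fun i _ => ?_
    have h3 : ((L.filter fun β => β.1.1.1 = i).card : ℝ) ≤ 3 := by exact_mod_cast hn i
    have h4 := hμ0 i
    have h5 := hμ i
    calc ((L.filter fun β => β.1.1.1 = i).card : ℝ) * (μ i / 3) ≤ 3 * (μ i / 3) :=
          mul_le_mul_of_nonneg_right h3 (by linarith)
      _ ≤ T + C₃ := by linarith
  have hN : 0 < X.N := Fin.pos i₀
  rw [Finset.sum_const, Finset.card_erase_of_mem (Finset.mem_univ _), Finset.card_univ,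
    Fintype.card_fin, nsmul_eq_mul, Nat.cast_sub hN, Nat.cast_one] at h2
  linarith

theorem par (F : Fr X K) (B : Bl F) (hN : 0 < X.N) (hX : X.Cl Finset.univ) (m : ℕ) [NeZero m]
    (w : F.Lb → ℝ) (hw : ∀ a, 0 ≤ w a ∧ w a ≤ 1)
    (h : ¬ B.Al ∨ ∃ (i : Fin X.N) (δ C : ℝ), 0 < δ ∧ ∀ Y : ℝ, 3 ≤ Y →
      Ms F.toFr0 w i Y ≤ (1 - δ) * Real.log (Real.log Y) + C) :
    ∃ A₀ : ℕ, ∀ A₁ : ℕ, A₀ ≤ A₁ → ∀ (O : Or B) (c : F.C) (s : F.Lb → ZMod X.p)
      (H : (F.R → ZMod X.p) → (B.St → ZMod m) → ℂ), (∀ x y, ‖H x y‖ ≤ 1) →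
      Tendsto (fun Y : ℝ => PS B O m c w s H (Real.log Y ^ A₁) Y /
        ((Y * Real.log Y ^ (X.N - 1) : ℝ) : ℂ)) atTop (𝓝 0) := by
  obtain ⟨C₁, A₁', δ, hC₁, hδ, -, hlk⟩ := lkb F B m
  obtain ⟨C₂, A₂, hC₂, hcn⟩ := cnb F w hw
  obtain ⟨C₃, hC₃, hms⟩ := mss F
  obtain ⟨M, hM⟩ : ∃ M, M = Fintype.card (Bk X) := ⟨_, rfl⟩
  obtain ⟨a, ha⟩ := exists_nat_ge (((A₁' : ℝ) + 1) / δ)
  have ha' : (A₁' : ℝ) + 1 ≤ a * δ := by rwa [div_le_iff₀ hδ] at ha
  have hl3 : ∀ Y : ℝ, 3 ≤ Y → 1 ≤ Real.log Y := by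
    intro Y hY
    rw [Real.le_log_iff_exp_le (by linarith)]
    have := Real.exp_one_lt_d9
    linarith
  refine ⟨a * 2 ^ (M + 1) * M, fun A₁ hA₁ O c s H hH => ?_⟩
  have key : ∀ k ∈ Finset.range (M + 1), ∀ L : Finset (Bk X),
      Tendsto (fun Y : ℝ => SB B O m c w s H (Real.log Y ^ A₁) (Real.log Y ^ a) 2 k L Y /
        ((Y * Real.log Y ^ (X.N - 1) : ℝ) : ℂ)) atTop (𝓝 0) := by
    intro k hk L
    rw [Finset.mem_range] at hk
    by_cases h1 : ∃ i, ∀ β ∈ L, β.1.1.1 ≠ i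
    · obtain ⟨i, hi⟩ := h1
      refine (tendsto_const_nhds (x := (0 : ℂ))).congr' ?_
      filter_upwards [eventually_ge_atTop (3 : ℝ)] with Y hY
      rw [sb_zero F B m O c w s H _ _ (one_le_pow₀ (hl3 Y hY)) k L i hi ?_ Y, zero_div]
      unfold lv
      rw [← hM, ← pow_mul, ← pow_mul]
      refine pow_le_pow_right₀ (hl3 Y hY) (le_trans ?_ hA₁)
      rw [mul_assoc]
      exact Nat.mul_le_mul_left _ (Nat.mul_le_mul_right _ (Nat.pow_le_pow_right two_pos (by omega)))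
    by_cases h2 : ∃ β ∈ L, ∃ β' ∈ L, B.bl β β'
    · refine squeeze_zero_norm' ?_ (lim_a C₁ A₁' a δ ha')
      filter_upwards [eventually_ge_atTop (3 : ℝ)] with Y hY
      have hl := hl3 Y hY
      have hY0 : 0 < Y := by linarith
      have hl0 : 0 < Real.log Y := by linarith
      have h3 := hlk O c w s H hw hH (Real.log Y ^ A₁) (Real.log Y ^ a) 2 k L (one_le_pow₀ hl)
        one_le_two h2 Y (by linarith)
      have hpos : 0 < Y * Real.log Y ^ (X.N - 1) := by positivity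
      rw [norm_div, Complex.norm_real, Real.norm_of_nonneg hpos.le, div_le_iff₀ hpos]
      refine h3.trans ?_
      have h4 : 1 ≤ Real.log Y ^ (X.N - 1) := one_le_pow₀ hl
      have h5 : 0 ≤ C₁ * Y * (Real.log Y ^ a) ^ (-δ) * (1 + Real.log Y) ^ A₁' := by positivity
      calc C₁ * Y * (Real.log Y ^ a) ^ (-δ) * (1 + Real.log Y) ^ A₁'
          ≤ (C₁ * Y * (Real.log Y ^ a) ^ (-δ) * (1 + Real.log Y) ^ A₁') * Real.log Y ^ (X.N - 1) :=
            le_mul_of_one_le_right h5 h4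
        _ = _ := by ring
    · push Not at h1 h2
      obtain ⟨hn, hn'⟩ := unb F B hX L h2 h1
      have hM0 : ∀ i Y, 0 ≤ Ms F.toFr0 w i Y := by
        intro i Y
        unfold Ms
        exact Finset.sum_nonneg fun a _ => div_nonneg (hw a).1 (Nat.cast_nonneg _)
      have hex : ∃ (i₀ : Fin X.N) (ε C₅ : ℝ), 0 < ε ∧ ∀ Y : ℝ, 3 ≤ Y →
          ((L.filter fun β => β.1.1.1 = i₀).card : ℝ) * (Ms F.toFr0 w i₀ Y / 3) ≤
            (1 - ε) * Real.log (Real.log Y) + C₅ := by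
        rcases h with h | ⟨i, δ', C, hδ', hC⟩
        · obtain ⟨i₀, hi₀⟩ := hn' h
          refine ⟨i₀, 1 / 3, C₃, by norm_num, fun Y hY => ?_⟩
          have h3 : ((L.filter fun β => β.1.1.1 = i₀).card : ℝ) ≤ 2 := by exact_mod_cast hi₀
          have h4 := hM0 i₀ Y
          have h5 := hms w i₀ hw Y hY
          calc ((L.filter fun β => β.1.1.1 = i₀).card : ℝ) * (Ms F.toFr0 w i₀ Y / 3)
              ≤ 2 * (Ms F.toFr0 w i₀ Y / 3) := mul_le_mul_of_nonneg_right h3 (by linarith)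
            _ ≤ _ := by linarith
        · refine ⟨i, δ', C, hδ', fun Y hY => ?_⟩
          have h3 : ((L.filter fun β => β.1.1.1 = i).card : ℝ) ≤ 3 := by exact_mod_cast hn i
          have h4 := hM0 i Y
          have h5 := hC Y hY
          calc ((L.filter fun β => β.1.1.1 = i).card : ℝ) * (Ms F.toFr0 w i Y / 3)
              ≤ 3 * (Ms F.toFr0 w i Y / 3) := mul_le_mul_of_nonneg_right h3 (by linarith)
            _ ≤ _ := by linarith
      obtain ⟨i₀, ε, C₅, hε, h₀⟩ := hex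
      have hlim := (lim_b (C₂ * Real.exp (X.N * C₃ + C₅)) ε (2 ^ k * a) hε (by positivity) A₂).comp
        (Real.tendsto_log_atTop.comp Real.tendsto_log_atTop)
      have hev : ∀ᶠ Y : ℝ in atTop, lv (Real.log Y ^ a) 2 k ^ (2 * Fintype.card (Bk X)) ≤ Y := by
        have h3 := (Real.isLittleO_pow_log_id_atTop
          (n := a * (2 ^ k * (2 * Fintype.card (Bk X))))).bound (zero_lt_one' ℝ)
        filter_upwards [h3, eventually_ge_atTop (3 : ℝ)] with Y hY hY3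
        have hl := hl3 Y hY3
        rw [one_mul, id, Real.norm_of_nonneg (by positivity), Real.norm_of_nonneg (by linarith)] at hY
        unfold lv
        rw [← pow_mul, ← pow_mul]
        exact hY
      refine squeeze_zero_norm' ?_ hlim
      filter_upwards [eventually_ge_atTop (3 : ℝ), hev] with Y hY hY2
      have hl := hl3 Y hY
      have hY0 : 0 < Y := by linarith
      have hl0 : 0 < Real.log Y := by linarith
      have h4 := sb_le F B m O c w hw s H hH (Real.log Y ^ A₁) (Real.log Y ^ a) 2 k L Y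
      have h5 := hcn (Real.log Y ^ a) 2 k L (one_le_pow₀ hl) one_le_two Y hY hY2
      have h6 := ms_sum L (Real.log (Real.log Y)) C₃ ε C₅ hC₃ (fun i => Ms F.toFr0 w i Y)
        (fun i => hM0 i Y) (fun i => hms w i hw Y hY) hn i₀ (h₀ Y hY)
      have h7 : Real.log (lv (Real.log Y ^ a) 2 k) = 2 ^ k * a * Real.log (Real.log Y) := by
        unfold lv
        rw [Real.log_pow, Real.log_pow]
        push_cast
        ring
      have h8 : Real.exp (X.N * Real.log (Real.log Y)) = Real.log Y ^ X.N := by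
        rw [mul_comm, Real.exp_mul, Real.exp_log hl0, Real.rpow_natCast]
      have hT0 : 0 ≤ Real.log (Real.log Y) := Real.log_nonneg hl
      have h9 : Real.exp (∑ β ∈ L, Ms F.toFr0 w β.1.1.1 Y / 3) ≤
          Real.log Y ^ X.N * Real.exp (-(ε * Real.log (Real.log Y))) *
            Real.exp (X.N * C₃ + C₅) := by
        rw [← h8, ← Real.exp_add, ← Real.exp_add]
        exact Real.exp_le_exp.2 (by linarith)
      have hpos : 0 < Y * Real.log Y ^ (X.N - 1) := by positivity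
      rw [norm_div, Complex.norm_real, Real.norm_of_nonneg hpos.le, div_le_iff₀ hpos]
      refine (h4.trans h5).trans ?_
      rw [h7]
      have h10 : 0 ≤ C₂ * (1 + 2 ^ k * a * Real.log (Real.log Y)) ^ A₂ * (Y / Real.log Y) := by
        positivity
      refine (mul_le_mul_of_nonneg_left h9 h10).trans (le_of_eq ?_)
      have h11 : Real.log Y ^ X.N = Real.log Y * Real.log Y ^ (X.N - 1) := by
        rw [← pow_succ', Nat.sub_add_cancel hN]
      rw [h11]
      simp only [Function.comp_apply]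
      field_simp
  have hsum : Tendsto (fun Y : ℝ => ∑ k ∈ Finset.range (M + 1), ∑ L : Finset (Bk X),
      SB B O m c w s H (Real.log Y ^ A₁) (Real.log Y ^ a) 2 k L Y /
        ((Y * Real.log Y ^ (X.N - 1) : ℝ) : ℂ)) atTop (𝓝 0) := by
    have h3 := tendsto_finsetSum (Finset.range (M + 1)) fun k hk =>
      tendsto_finsetSum (Finset.univ : Finset (Finset (Bk X))) fun L _ => key k hk L
    simpa using h3
  refine hsum.congr' ?_
  filter_upwards [eventually_ge_atTop (3 : ℝ)] with Y hY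
  rw [exn F B O m c w s H (Real.log Y ^ A₁) Y,
    lvn F.toFr0 (Real.log Y ^ a) (one_le_pow₀ (hl3 Y hY)) 2 one_le_two Y, ← hM, Finset.sum_div]
  refine Finset.sum_congr rfl fun k _ => ?_
  rw [Finset.sum_div]
  refine Finset.sum_congr rfl fun L _ => ?_
  unfold SB
  congr 1
  refine Finset.sum_congr rfl fun u _ => ?_
  rw [ite_and]

end H51.MS
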